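import Mathlib

/-!
Projective schemes given by a homogeneous ideal `I` of a polynomial ring, their curves,
intersection numbers and numerical equivalence; the Deligne-Lusztig surface of type `G₂`.
-/

namespace Pool.Agent.Lib.MP_557161_ag.G2

open MvPolynomial Filter

variable {k : Type} [Field k] {σ : Type}

/-- An ideal that contains the homogeneous components of its elements. -/
def Homog (J : Ideal (MvPolynomial σ k)) : Prop :=
  ∀ f ∈ J, ∀ n, homogeneousComponent n f ∈ J

/-- The points of `Proj (k[X] / I)`, ordered by inclusion: homogeneous prime ideals that contain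
`I` but not all variables. -/
abbrev Pt (I : Ideal (MvPolynomial σ k)) : Type :=
  {P : Ideal (MvPolynomial σ k) // P.IsPrime ∧ Homog P ∧ I ≤ P ∧ ∃ i, X i ∉ P}

/-- The points of codimension one (prime divisors). -/
abbrev Curve (I : Ideal (MvPolynomial σ k)) : Type := {C : Pt I // Order.height C = 1}

/-- The Hilbert function: the dimension of the degree `n` part of `k[X] / J`. -/
noncomputable def hf (J : Ideal (MvPolynomial σ k)) (n : ℕ) : ℤ :=
  Module.finrank k ((homogeneousSubmodule σ k n).map (Ideal.Quotient.mkₐ k J).toLinearMap)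

/-- For large `n` this is `χ(O(n)) - χ(O(n - C)) - χ(O(n - D)) + χ(O(n - C - D))`. -/
noncomputable def chi {I : Ideal (MvPolynomial σ k)} (C D : Curve I) (n : ℕ) : ℤ :=
  hf C.1.1 n + hf D.1.1 n - hf (C.1.1 * D.1.1 ⊔ I) n

/-- The intersection number of two curves on a smooth projective surface. -/
noncomputable def inter {I : Ideal (MvPolynomial σ k)} (C D : Curve I) : ℤ :=
  limUnder atTop (chi C D)

/-- Divisors modulo numerical equivalence. -/
abbrev Num (I : Ideal (MvPolynomial σ k)) : Type :=
  (Curve I →₀ ℤ) ⧸ LinearMap.ker (Finsupp.linearCombination ℤ fun C D : Curve I => inter C D)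

/-- The affine chart `X i = 1` of `Proj (k[X] / I)`. -/
abbrev Chart (I : Ideal (MvPolynomial σ k)) (i : σ) : Type :=
  MvPolynomial σ k ⧸ (I ⊔ Ideal.span {X i - 1})

/-- The bracket `f g ^ q - g f ^ q`. -/
def br {R : Type} [CommRing R] (q : ℕ) (f g : R) : R := f * g ^ q - g * f ^ q

/-- For the trace zero split octonion `x` with Zorn matrix `(a, u; w, -a)`, `a = v 0`,
`u = (v 1, v 2, v 3)`, `w = (v 4, v 5, v 6)`, the equations `x * x = 0` and `x * F x = 0`, where `F`
raises the coordinates to the power `q`. -/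
def eqs {R : Type} [CommRing R] (q : ℕ) (v : Fin 7 → R) : Fin 9 → R :=
  ![v 0 ^ 2 + v 1 * v 4 + v 2 * v 5 + v 3 * v 6,
    v 0 * v 0 ^ q + v 1 * v 4 ^ q + v 2 * v 5 ^ q + v 3 * v 6 ^ q,
    v 0 * v 0 ^ q + v 4 * v 1 ^ q + v 5 * v 2 ^ q + v 6 * v 3 ^ q,
    br q (v 0) (v 1) - br q (v 5) (v 6), br q (v 0) (v 2) - br q (v 6) (v 4),
    br q (v 0) (v 3) - br q (v 4) (v 5), br q (v 0) (v 4) - br q (v 2) (v 3),
    br q (v 0) (v 5) - br q (v 3) (v 1), br q (v 0) (v 6) - br q (v 1) (v 2)]

/-- The homogeneous ideal of the surface. -/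
noncomputable def ideal (k : Type) [Field k] (q : ℕ) : Ideal (MvPolynomial (Fin 7) k) :=
  Ideal.span (Set.range (eqs q X))

/-- The number of `K`-points of the surface. -/
noncomputable def points (K : Type) [Field K] (q : ℕ) : ℕ :=
  Nat.card {P : Projectivization K (Fin 7 → K) // eqs q P.rep = 0}

end Pool.Agent.Lib.MP_557161_ag.G2
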