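import Mathlib
import Pool.Agent.Lib.MP_557161_ag.G2.Defs

/-!
The equations of the surface in an arbitrary commutative ring and their symmetries.
-/

namespace Pool.Agent.Lib.MP_557161_ag.G2

variable {R : Type} [CommRing R] {q : ℕ}

/-- Raising to the power `q` is additive. -/
structure Fr (q : ℕ) (R : Type) [CommRing R] : Prop where
  two : 2 ≤ q
  add : ∀ x y : R, (x + y) ^ q = x ^ q + y ^ q

theorem Fr.ne (h : Fr q R) : q ≠ 0 := by have := h.two; omega

theorem Fr.zero (h : Fr q R) : (0 : R) ^ q = 0 := zero_pow h.ne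

theorem Fr.neg (h : Fr q R) (x : R) : (-x) ^ q = -x ^ q := by
  have := h.add x (-x)
  rw [add_neg_cancel, h.zero] at this
  linear_combination -this

theorem Fr.sub (h : Fr q R) (x y : R) : (x - y) ^ q = x ^ q - y ^ q := by
  rw [sub_eq_add_neg, h.add, h.neg, sub_eq_add_neg]

theorem Fr.ofNat_two (h : Fr q R) : (2 : R) ^ q = 2 := by
  have := h.add 1 1
  rw [one_pow] at this
  rw [← one_add_one_eq_two, this]

theorem Fr.of_algebra {k : Type} [Field k] (p e : ℕ) [Fact p.Prime] [CharP k p] (he : 0 < e)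
    (R : Type) [CommRing R] [Algebra k R] : Fr (p ^ e) R := by
  have hp : p.Prime := Fact.out
  refine ⟨le_trans hp.two_le (Nat.le_self_pow he.ne' p), fun x y => ?_⟩
  rcases subsingleton_or_nontrivial R with h | h
  · exact Subsingleton.elim _ _
  · have : CharP R p := charP_of_injective_algebraMap (algebraMap k R).injective p
    exact add_pow_char_pow x y p e

theorem Fr.pow (h : Fr q R) {n : ℕ} (hn : n ≠ 0) : Fr (q ^ n) R := by
  refine ⟨le_trans h.two (Nat.le_self_pow hn q), fun x y => ?_⟩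
  clear hn
  induction n with
  | zero => simp
  | succ n ih => rw [pow_succ, pow_mul, ih, h.add, pow_mul, pow_mul]

/-- The nine equations. -/
structure E (q : ℕ) (a u1 u2 u3 w1 w2 w3 : R) : Prop where
  q0 : a ^ 2 + u1 * w1 + u2 * w2 + u3 * w3 = 0
  e1 : a * a ^ q + u1 * w1 ^ q + u2 * w2 ^ q + u3 * w3 ^ q = 0
  e2 : a * a ^ q + w1 * u1 ^ q + w2 * u2 ^ q + w3 * u3 ^ q = 0
  g1 : a * u1 ^ q - u1 * a ^ q = w2 * w3 ^ q - w3 * w2 ^ q
  g2 : a * u2 ^ q - u2 * a ^ q = w3 * w1 ^ q - w1 * w3 ^ q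
  g3 : a * u3 ^ q - u3 * a ^ q = w1 * w2 ^ q - w2 * w1 ^ q
  h1 : a * w1 ^ q - w1 * a ^ q = u2 * u3 ^ q - u3 * u2 ^ q
  h2 : a * w2 ^ q - w2 * a ^ q = u3 * u1 ^ q - u1 * u3 ^ q
  h3 : a * w3 ^ q - w3 * a ^ q = u1 * u2 ^ q - u2 * u1 ^ q

/-- The equations for a vector. -/
def EV (q : ℕ) (v : Fin 7 → R) : Prop := E q (v 0) (v 1) (v 2) (v 3) (v 4) (v 5) (v 6)

theorem eqs_eq_zero (v : Fin 7 → R) : eqs q v = 0 ↔ EV q v := by
  constructor
  · intro h
    have h0 := congrFun h 0
    have h1 := congrFun h 1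
    have h2 := congrFun h 2
    have h3 := congrFun h 3
    have h4 := congrFun h 4
    have h5 := congrFun h 5
    have h6 := congrFun h 6
    have h7 := congrFun h 7
    have h8 := congrFun h 8
    simp only [eqs, br, Pi.zero_apply, Matrix.cons_val] at h0 h1 h2 h3 h4 h5 h6 h7 h8
    exact ⟨h0, h1, h2, sub_eq_zero.1 h3, sub_eq_zero.1 h4, sub_eq_zero.1 h5, sub_eq_zero.1 h6,
      sub_eq_zero.1 h7, sub_eq_zero.1 h8⟩
  · intro h
    funext i
    fin_cases i
    · exact h.q0
    · exact h.e1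
    · exact h.e2
    · exact sub_eq_zero.2 h.g1
    · exact sub_eq_zero.2 h.g2
    · exact sub_eq_zero.2 h.g3
    · exact sub_eq_zero.2 h.h1
    · exact sub_eq_zero.2 h.h2
    · exact sub_eq_zero.2 h.h3

theorem map_eqs {R' : Type} [CommRing R'] (f : R →+* R') (v : Fin 7 → R) (i : Fin 9) :
    f (eqs q v i) = eqs q (fun j => f (v j)) i := by
  fin_cases i <;> simp [eqs, br]

variable {a u1 u2 u3 w1 w2 w3 : R}

theorem E.map {R' : Type} [CommRing R'] (f : R →+* R') (h : E q a u1 u2 u3 w1 w2 w3) :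
    E q (f a) (f u1) (f u2) (f u3) (f w1) (f w2) (f w3) := by
  obtain ⟨h0, h1, h2, h3, h4, h5, h6, h7, h8⟩ := h
  refine ⟨?_, ?_, ?_, ?_, ?_, ?_, ?_, ?_, ?_⟩
  · simpa using congrArg f h0
  · simpa using congrArg f h1
  · simpa using congrArg f h2
  · simpa using congrArg f h3
  · simpa using congrArg f h4
  · simpa using congrArg f h5
  · simpa using congrArg f h6
  · simpa using congrArg f h7
  · simpa using congrArg f h8

theorem E.scale (c : R) (h : E q a u1 u2 u3 w1 w2 w3) :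
    E q (c * a) (c * u1) (c * u2) (c * u3) (c * w1) (c * w2) (c * w3) := by
  obtain ⟨h0, h1, h2, h3, h4, h5, h6, h7, h8⟩ := h
  refine ⟨?_, ?_, ?_, ?_, ?_, ?_, ?_, ?_, ?_⟩ <;> simp only [mul_pow]
  · linear_combination c ^ 2 * h0
  · linear_combination c * c ^ q * h1
  · linear_combination c * c ^ q * h2
  · linear_combination c * c ^ q * h3
  · linear_combination c * c ^ q * h4
  · linear_combination c * c ^ q * h5
  · linear_combination c * c ^ q * h6
  · linear_combination c * c ^ q * h7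
  · linear_combination c * c ^ q * h8

theorem E.cyc (h : E q a u1 u2 u3 w1 w2 w3) : E q a u2 u3 u1 w2 w3 w1 := by
  obtain ⟨h0, h1, h2, h3, h4, h5, h6, h7, h8⟩ := h
  exact ⟨by linear_combination h0, by linear_combination h1, by linear_combination h2, h4, h5, h3,
    h7, h8, h6⟩

theorem E.tau (hq : Fr q R) (h : E q a u1 u2 u3 w1 w2 w3) : E q (-a) w3 w2 w1 u3 u2 u1 := by
  obtain ⟨h0, h1, h2, h3, h4, h5, h6, h7, h8⟩ := h
  refine ⟨?_, ?_, ?_, ?_, ?_, ?_, ?_, ?_, ?_⟩ <;> try simp only [hq.neg]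
  · linear_combination h0
  · linear_combination h2
  · linear_combination h1
  · linear_combination -h8
  · linear_combination -h7
  · linear_combination -h6
  · linear_combination -h5
  · linear_combination -h4
  · linear_combination -h3

theorem E.theta (hq : Fr q R) {c d : R} (hc : c ^ q = c) (hd : d ^ q = d)
    (h : E q a u1 u2 u3 w1 w2 w3) :
    E q a (u1 + c * u2 + d * u3) u2 u3 w1 (w2 - c * w1) (w3 - d * w1) := by
  obtain ⟨h0, h1, h2, h3, h4, h5, h6, h7, h8⟩ := h
  refine ⟨?_, ?_, ?_, ?_, ?_, ?_, ?_, ?_, ?_⟩ <;>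
    try simp only [hq.add, hq.sub, mul_pow, hc, hd]
  · linear_combination h0
  · linear_combination h1
  · linear_combination h2
  · linear_combination h3 + c * h4 + d * h5
  · linear_combination h4
  · linear_combination h5
  · linear_combination h6
  · linear_combination h7 - c * h6
  · linear_combination h8 - d * h6

theorem E.kappa (hq : Fr q R) {b : R} (hb : b ^ q = b) (h : E q a u1 u2 u3 w1 w2 w3) :
    E q a u1 (u2 + b * u3) u3 w1 w2 (w3 - b * w2) := by
  have := (h.cyc.theta hq hb hq.zero).cyc.cyc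
  simpa using this

theorem E.swap (hq : Fr q R) (h : E q a u1 u2 u3 w1 w2 w3) :
    E q a u1 u3 (-u2) w1 w3 (-w2) := by
  obtain ⟨h0, h1, h2, h3, h4, h5, h6, h7, h8⟩ := h
  refine ⟨?_, ?_, ?_, ?_, ?_, ?_, ?_, ?_, ?_⟩ <;> try simp only [hq.neg]
  · linear_combination h0
  · linear_combination h1
  · linear_combination h2
  · linear_combination h3
  · linear_combination h5
  · linear_combination -h4
  · linear_combination h6
  · linear_combination h8
  · linear_combination -h7

theorem E.shift (hq : Fr q R) {c : R} (hc : c ^ q = c) (h : E q a u1 u2 u3 w1 w2 w3) :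
    E q (a + c * u2) (u1 - c * w3) u2 (u3 + c * w1) w1 (w2 - 2 * c * a - c * c * u2) w3 := by
  obtain ⟨h0, h1, h2, h3, h4, h5, h6, h7, h8⟩ := h
  refine ⟨?_, ?_, ?_, ?_, ?_, ?_, ?_, ?_, ?_⟩ <;>
    try simp only [hq.add, hq.sub, mul_pow, hc, hq.ofNat_two]
  · linear_combination h0
  · linear_combination h1 + c * h4
  · linear_combination h2 - c * h4
  · linear_combination h3 + c * h8
  · linear_combination h4
  · linear_combination h5 - c * h6
  · linear_combination h6
  · linear_combination h7 + c * h1 - c * h2 + c * c * h4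
  · linear_combination h8

theorem E.of_chart (hq : Fr q R) {a u2 u3 w2 w3 : R}
    (h1 : a ^ q = a - (u2 * u3 ^ q - u3 * u2 ^ q))
    (h2 : w2 ^ q = w2 + (a * u3 ^ q - u3 * a ^ q))
    (h3 : w3 ^ q = w3 - (a * u2 ^ q - u2 * a ^ q)) :
    E q a (-(a ^ 2 + u2 * w2 + u3 * w3)) u2 u3 1 w2 w3 := by
  have hu : (-(a ^ 2 + u2 * w2 + u3 * w3)) ^ q =
      -((a ^ q) ^ 2 + u2 ^ q * w2 ^ q + u3 ^ q * w3 ^ q) := by
    rw [hq.neg, hq.add, hq.add, mul_pow, mul_pow, pow_right_comm]
  refine ⟨?_, ?_, ?_, ?_, ?_, ?_, ?_, ?_, ?_⟩ <;> try simp only [hu, one_pow]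
  all_goals
    generalize u2 ^ q = U2 at *
    generalize u3 ^ q = U3 at *
    generalize w2 ^ q = W2 at *
    generalize w3 ^ q = W3 at *
    generalize a ^ q = A at *
    subst h2 h3 h1
    ring

end Pool.Agent.Lib.MP_557161_ag.G2
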