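import Mathlib
import Pool.Agent.Lib.MP_557161_ag.G2.Eqs

/-!
Consequences of the equations in local rings and in fields.
-/

namespace Pool.Agent.Lib.MP_557161_ag.G2

open IsLocalRing

variable {q : ℕ}

section Local

variable {O : Type} [CommRing O] [IsLocalRing O] {a u1 u2 u3 w1 w2 w3 : O}

theorem unit_sub {x y : O} (hx : IsUnit x) (hy : y ∈ maximalIdeal O) : IsUnit (x - y) := by
  by_contra h
  have := (maximalIdeal O).add_mem h hy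
  rw [sub_add_cancel] at this
  exact this hx

theorem E.locA (hq : Fr q O) (h : E q a u1 u2 u3 w1 w2 w3) (h2 : IsUnit u2)
    (h3 : u3 ∈ maximalIdeal O) : ∃ μ, u3 = w1 * μ ∧ μ * u2 - a ∈ Ideal.span {u3, w1} := by
  obtain ⟨r, rfl⟩ : ∃ r, q = r + 2 := ⟨q - 2, by have := hq.two; omega⟩
  obtain ⟨ε, hε⟩ := (unit_sub (h2.pow (r + 2)) (Ideal.mul_mem_left _ (u2 * u3 ^ r) h3)).exists_left_inv
  refine ⟨ε * (a ^ (r + 2) - a * w1 ^ (r + 1)), ?_, Ideal.mem_span_pair.2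
    ⟨ε * a * u2 * u3 ^ r, ε * (w3 ^ (r + 2) - w3 * w1 ^ (r + 1) - a * u2 * w1 ^ r), ?_⟩⟩
  · linear_combination (-u3) * hε + ε * h.h1
  · linear_combination (-a) * hε + ε * h.g2

theorem E.locB' [IsDomain O] (hq : Fr q O) (h : E q a u1 u2 u3 w1 w2 1) (h2 : u2 ∈ maximalIdeal O)
    (h0 : a ∈ maximalIdeal O) (h5 : w2 ∈ maximalIdeal O) (h4 : w1 ∈ maximalIdeal O)
    (h4' : w1 ≠ 0) : ∃ μ, u3 = w1 * μ ∧ μ + (u1 ^ q) ^ q ∈ Ideal.span {u2} := by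
  have hs := hq.sub
  have hs' := hq.add
  obtain ⟨r, rfl⟩ : ∃ r, q = r + 2 := ⟨q - 2, by have := hq.two; omega⟩
  have hu : ∀ x ∈ maximalIdeal O, ∃ ε, ε * (1 - x ^ (r + 1)) = 1 := fun x hx =>
    (unit_sub isUnit_one (Ideal.pow_mem_of_mem _ hx _ r.succ_pos)).exists_left_inv
  obtain ⟨_, _, _, g1, g2, _, _, _, h3⟩ := id h
  have q0 := h.q0
  rw [one_pow] at g1 g2 h3
  obtain ⟨ε0, e0⟩ := hu a h0
  obtain ⟨ε5, e5⟩ := hu w2 h5
  obtain ⟨ε4, e4⟩ := hu w1 h4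
  obtain ⟨b, rfl⟩ : ∃ b, a = u2 * b := ⟨ε0 * (u1 * u2 ^ (r + 1) - u1 ^ (r + 2)), by
    linear_combination (-a) * e0 + ε0 * h3⟩
  obtain ⟨c, rfl⟩ : ∃ c, w2 = u2 * c :=
    ⟨ε5 * b * (u1 ^ (r + 2) - u1 * (u2 * b) ^ (r + 1)), by linear_combination (-w2) * e5 - ε5 * g1⟩
  obtain ⟨d, rfl⟩ : ∃ d, w1 = u2 * d :=
    ⟨ε4 * u2 ^ (r + 2) * (b ^ (r + 2) - b), by linear_combination (-w1) * e4 + ε4 * g2⟩
  have ht : u2 ≠ 0 := left_ne_zero_of_mul h4'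
  obtain ⟨z, hz⟩ : ∃ z, z = b ^ 2 + c := ⟨_, rfl⟩
  obtain ⟨y, hy⟩ : ∃ y, y = u2 ^ r * (u1 + b ^ (r + 2)) := ⟨_, rfl⟩
  obtain ⟨ε, e⟩ := hu (u2 * z) (Ideal.mul_mem_right _ _ h2)
  have h6 : (u2 ^ 2 * z) ^ (r + 2) =
      ((u2 * b) ^ (r + 2)) ^ 2 + u2 ^ (r + 2) * (u2 * c) ^ (r + 2) := by
    rw [show u2 ^ 2 * z = (u2 * b) ^ 2 + u2 * (u2 * c) by rw [hz]; ring, hs', mul_pow u2 (u2 * c),
      pow_right_comm]
  have h7 : u2 ^ 2 * z * (1 - (u2 * z) ^ (r + 1)) =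
      -((b ^ (r + 2) + u1) * (u2 * d) * (1 - (u2 * d) ^ (r + 1))) := by
    refine mul_left_cancel₀ (pow_ne_zero (r + 2) ht) ?_
    linear_combination (-u2) * h6 - u2 * u2 ^ (r + 2) * g1 + u2 * b * u2 ^ (r + 2) * h3 +
      ((u2 * b) ^ (r + 2) + u1 * u2 ^ (r + 2)) * g2 + u2 ^ 2 * u2 ^ (r + 2) * hz
  have h8 : b + u1 ^ (r + 2) = u2 * y := mul_left_cancel₀ ht (by
    linear_combination h3 - u2 ^ 2 * hy)
  refine ⟨ε * (b ^ (r + 2) + u1) * (1 - (u2 * d) ^ (r + 1)) - u1, ?_, ?_⟩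
  · linear_combination q0 - ε * h7 + u2 ^ 2 * z * e + u2 ^ 2 * hz
  · have h9 := congrArg (· ^ (r + 2)) h8
    simp only [hs'] at h9
    refine Ideal.mem_span_singleton'.2 ⟨u2 ^ (r + 1) * y ^ (r + 2) +
      ε * (b ^ (r + 2) + u1) * u2 ^ r * (z ^ (r + 1) - d ^ (r + 1)), ?_⟩
    linear_combination -h9 - (b ^ (r + 2) + u1) * e

theorem E.locB [IsDomain O] (hq : Fr q O) (h : E q a u1 u2 u3 w1 w2 w3) (h6 : IsUnit w3)
    (h2 : u2 ∈ maximalIdeal O) (h0 : a ∈ maximalIdeal O) (h5 : w2 ∈ maximalIdeal O)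
    (h4 : w1 ∈ maximalIdeal O) (h4' : w1 ≠ 0) :
    ∃ μ, u3 = w1 * μ ∧ μ * (w3 ^ q) ^ q + (u1 ^ q) ^ q ∈ Ideal.span {u2} := by
  obtain ⟨c, hc⟩ := h6.exists_left_inv
  have h1 := h.scale c
  rw [hc] at h1
  have hc0 : c ≠ 0 := left_ne_zero_of_mul (hc ▸ one_ne_zero)
  obtain ⟨μ, h7, h8⟩ := h1.locB' hq (Ideal.mul_mem_left _ _ h2) (Ideal.mul_mem_left _ _ h0)
    (Ideal.mul_mem_left _ _ h5) (Ideal.mul_mem_left _ _ h4) (mul_ne_zero hc0 h4')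
  obtain ⟨z, hz⟩ := Ideal.mem_span_singleton'.1 h8
  refine ⟨μ, mul_left_cancel₀ hc0 (by linear_combination h7),
    Ideal.mem_span_singleton'.2 ⟨(w3 ^ q) ^ q * z * c, ?_⟩⟩
  have h9 : ((c * w3) ^ q) ^ q = 1 := by rw [hc, one_pow, one_pow]
  rw [mul_pow, mul_pow] at hz h9
  linear_combination (w3 ^ q) ^ q * hz + (u1 ^ q) ^ q * h9

end Local

section Field

variable {K : Type} [Field K]

theorem Fr.inj (hq : Fr q K) {x y : K} (h : x ^ q = y ^ q) : x = y :=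
  sub_eq_zero.1 (pow_eq_zero_iff hq.ne |>.1 (by rw [hq.sub, h, sub_self]))

/-- The two additive relations on a fibre. -/
structure Rel (q : ℕ) (x u a w : K) : Prop where
  r1 : a ^ q = a + x * u ^ q - x ^ q * u
  r2 : w ^ q = w + a * x ^ q - x * a ^ q

theorem E.rel {a u1 u2 u3 w2 w3 : K} (h : E q a u1 u2 u3 1 w2 w3) : Rel q u3 u2 a w2 := by
  have h1 := h.h1
  have h2 := h.g3
  rw [one_pow] at h1 h2
  exact ⟨by linear_combination -h1, by linear_combination -h2⟩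

/-- The value of a point of a fibre on the polynomial with roots `s` and `t`. -/
def Dq {R : Type} [CommRing R] (s t u a w : R) : R := -w - (s + t) * a + s * t * u

variable (hq : Fr q K) {x u a w u' a' w' : K}

include hq

theorem Rel.sub (h : Rel q x u a w) (h' : Rel q x u' a' w') :
    Rel q x (u - u') (a - a') (w - w') :=
  ⟨by rw [hq.sub, hq.sub]; linear_combination h.r1 - h'.r1,
    by rw [hq.sub, hq.sub]; linear_combination h.r2 - h'.r2⟩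

theorem Dq_pow (s t : K) : Dq s t u a w ^ q = Dq (s ^ q) (t ^ q) (u ^ q) (a ^ q) (w ^ q) := by
  simp only [Dq, hq.add, hq.sub, hq.neg, mul_pow]

omit hq in
theorem Rel.dq (h : Rel q x u a w) (s : K) : Dq s x (u ^ q) (a ^ q) (w ^ q) = Dq s (x ^ q) u a w := by
  rw [Dq, Dq]
  linear_combination -h.r2 - s * h.r1

omit hq in
theorem Dq_sub {s t : K} (h : Dq s t u a w = Dq s t u' a' w') :
    Dq s t (u - u') (a - a') (w - w') = 0 := by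
  simp only [Dq] at h ⊢
  linear_combination h

omit hq in
theorem Dq_comm (s t : K) : Dq s t u a w = Dq t s u a w := by rw [Dq, Dq]; ring

omit hq in
theorem Dq_two {s t t' : K} (h : Dq s t u a w = 0) (h' : Dq s t' u a w = 0) (ht : t ≠ t') :
    a = s * u := by
  rw [Dq] at h h'
  exact mul_left_cancel₀ (sub_ne_zero.2 ht) (by linear_combination h' - h)

omit hq in
theorem Dq_zero {s t y y' : K} (h : Dq s t u a w = 0) (h1 : a = y * u) (h2 : a = y' * u)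
    (hy : y ≠ y') : u = 0 ∧ a = 0 ∧ w = 0 := by
  have h3 : u = 0 := mul_left_cancel₀ (sub_ne_zero.2 hy) (by linear_combination h2 - h1)
  rw [h3, mul_zero] at h1
  rw [Dq, h1, h3] at h
  exact ⟨h3, h1, by linear_combination -h⟩

theorem Rel.gen (h : Rel q x u a w) (h2 : (x ^ q) ^ q ≠ x) (h3 : ((x ^ q) ^ q) ^ q ≠ x)
    (hs : Dq (x ^ q) ((x ^ q) ^ q) u a w = 0) : u = 0 ∧ a = 0 ∧ w = 0 := by
  have h4 := Dq_pow hq (u := u) (a := a) (w := w) (x ^ q) ((x ^ q) ^ q)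
  rw [hs, hq.zero] at h4
  have h5 := Dq_two h4.symm ((h.dq _).trans ((Dq_comm _ _).trans hs)) h3
  have h6 : a = x ^ q * u := hq.inj (by rw [mul_pow, h5])
  have h7 : u = 0 := (pow_eq_zero_iff hq.ne).1 (mul_left_cancel₀ (sub_ne_zero.2 h2) (by
    linear_combination h.r1 - h5 + h6))
  rw [h7, mul_zero] at h6
  rw [Dq, h6, h7] at hs
  exact ⟨h7, h6, by linear_combination -hs⟩

theorem Rel.quad (h : Rel q x u a w) (h1 : x ^ q ≠ x) (h2 : (x ^ q) ^ q = x)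
    (hs : Dq (x ^ q) ((x ^ q) ^ q) u a w = 0) (ht : Dq x ((x ^ q) ^ q) u a w = 0) :
    u = 0 ∧ a = 0 ∧ w = 0 := by
  rw [h2] at hs ht
  have h4 := Dq_pow hq (u := u) (a := a) (w := w) (x ^ q) x
  rw [hs, hq.zero, h2, Dq_comm, h.dq] at h4
  exact Dq_zero hs (Dq_two hs h4.symm h1.symm) (Dq_two ht ((Dq_comm _ _).trans hs) h1.symm) h1

theorem Rel.cub (h : Rel q x u a w) (h1 : x ^ q ≠ x) (h3 : ((x ^ q) ^ q) ^ q = x)
    (hs : Dq (x ^ q) ((x ^ q) ^ q) u a w = 0) (ht : Dq x ((x ^ q) ^ q) u a w = 0) :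
    u = 0 ∧ a = 0 ∧ w = 0 := by
  have h4 := Dq_pow hq (u := u) (a := a) (w := w) x ((x ^ q) ^ q)
  rw [ht, hq.zero, h3, h.dq] at h4
  have h5 : (x ^ q) ^ q ≠ x ^ q := fun h6 => h1 (hq.inj h6)
  exact Dq_zero hs (Dq_two hs h4.symm h5)
    (Dq_two ((Dq_comm _ _).trans hs) ((Dq_comm _ _).trans ht) h1) h5.symm

theorem Rel.sig_cub (h : Rel q x u a w) (h3 : ((x ^ q) ^ q) ^ q = x) :
    Dq (x ^ q) ((x ^ q) ^ q) u a w ^ q = Dq (x ^ q) ((x ^ q) ^ q) u a w := by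
  rw [Dq_pow hq, h3, h.dq, Dq_comm]

theorem Rel.sig_quad (h : Rel q x u a w) (h2 : (x ^ q) ^ q = x) :
    (Dq (x ^ q) ((x ^ q) ^ q) u a w ^ q) ^ q = Dq (x ^ q) ((x ^ q) ^ q) u a w := by
  rw [h2, Dq_pow hq, h2, Dq_comm, h.dq, Dq_pow hq, h2, h.dq, Dq_comm]

end Field

end Pool.Agent.Lib.MP_557161_ag.G2
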