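import Mathlib
import Pool.Agent.Lib.MP_557161_ag.G2.Defs

/-!
Homogeneous ideals, homogenisation and Hilbert functions.
-/

namespace Pool.Agent.Lib.MP_557161_ag.G2

open MvPolynomial Filter

variable {k : Type} [Field k] {σ : Type}

attribute [local instance] MvPolynomial.gradedAlgebra

theorem homog_iff (J : Ideal (MvPolynomial σ k)) :
    Homog J ↔ J.IsHomogeneous (homogeneousSubmodule σ k) := by
  constructor
  · intro h t z hz
    have := h z hz t
    rwa [← decomposition.decompose'_apply] at this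
  · intro h z hz t
    have := h t hz
    rwa [← decomposition.decompose'_apply]

theorem hc_mul {g : MvPolynomial σ k} {e : ℕ} (hg : g.IsHomogeneous e) (f : MvPolynomial σ k)
    (n : ℕ) : homogeneousComponent (n + e) (g * f) = g * homogeneousComponent n f := by
  rw [← decomposition.decompose'_apply, ← decomposition.decompose'_apply, add_comm]
  exact DirectSum.coe_decompose_mul_add_of_left_mem (homogeneousSubmodule σ k) hg

theorem hc_mul_lt {g : MvPolynomial σ k} {e : ℕ} (hg : g.IsHomogeneous e) (f : MvPolynomial σ k)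
    {n : ℕ} (h : n < e) : homogeneousComponent n (g * f) = 0 := by
  rw [← decomposition.decompose'_apply]
  exact DirectSum.coe_decompose_mul_of_left_mem_of_not_le (homogeneousSubmodule σ k) hg (by omega)

variable {I J J' K : Ideal (MvPolynomial σ k)}

theorem Homog.sup (h : Homog J) (h' : Homog J') : Homog (J ⊔ J') :=
  (homog_iff _).2 (((homog_iff _).1 h).sup ((homog_iff _).1 h'))

theorem Homog.inf (h : Homog J) (h' : Homog J') : Homog (J ⊓ J') :=
  fun f hf n => ⟨h f hf.1 n, h' f hf.2 n⟩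

theorem Homog.mul (h : Homog J) (h' : Homog J') : Homog (J * J') :=
  (homog_iff _).2 (((homog_iff _).1 h).mul ((homog_iff _).1 h'))

theorem homog_top : Homog (⊤ : Ideal (MvPolynomial σ k)) := fun _ _ _ => trivial

theorem Homog.pow (h : Homog J) (n : ℕ) : Homog (J ^ n) := by
  induction n with
  | zero => rw [pow_zero, Ideal.one_eq_top]; exact homog_top
  | succ n ih => rw [pow_succ]; exact ih.mul h

theorem homog_span {s : Set (MvPolynomial σ k)} (h : ∀ g ∈ s, ∃ n, g.IsHomogeneous n) :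
    Homog (Ideal.span s) :=
  (homog_iff _).2 (Ideal.homogeneous_span _ _ h)

theorem homog_one {g : MvPolynomial σ k} {e : ℕ} (hg : g.IsHomogeneous e) :
    Homog (Ideal.span {g}) :=
  homog_span fun _ h => ⟨e, by rw [Set.mem_singleton_iff.1 h]; exact hg⟩

theorem mem_of_hc {f : MvPolynomial σ k} (h : ∀ n, homogeneousComponent n f ∈ J) : f ∈ J := by
  rw [← sum_homogeneousComponent f]
  exact J.sum_mem fun n _ => h n

theorem Homog.le_of (h : Homog J) (H : ∀ f ∈ J, ∀ n, f.IsHomogeneous n → f ∈ J') : J ≤ J' :=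
  fun f hf => mem_of_hc fun n => H _ (h f hf n) n (homogeneousComponent_isHomogeneous n f)

theorem Homog.colon (h : Homog J) (h' : Homog J') : Homog (J.colon J') := by
  intro f hf n
  rw [Submodule.mem_colon] at hf ⊢
  intro c hc
  rw [smul_eq_mul, ← sum_homogeneousComponent c, Finset.mul_sum]
  refine J.sum_mem fun m _ => ?_
  have h1 := h _ (hf _ (h' c hc m)) (n + m)
  rwa [smul_eq_mul, mul_comm, hc_mul (homogeneousComponent_isHomogeneous m c), mul_comm] at h1

theorem Homog.exists_notMem (h : Homog J) {g r : MvPolynomial σ k} {e : ℕ} (hg : g.IsHomogeneous e)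
    (hr : r ∉ J') (hrg : r * g ∈ J) :
    ∃ r' n, MvPolynomial.IsHomogeneous r' n ∧ r' ∉ J' ∧ r' * g ∈ J := by
  by_contra H
  push Not at H
  refine hr (mem_of_hc fun n => ?_)
  by_contra h1
  refine H _ n (homogeneousComponent_isHomogeneous n r) h1 ?_
  have := h _ hrg (n + e)
  rwa [mul_comm, hc_mul hg, mul_comm] at this

/-- The largest homogeneous ideal inside an ideal. -/
noncomputable def core (P : Ideal (MvPolynomial σ k)) : Ideal (MvPolynomial σ k) :=
  (P.homogeneousCore (homogeneousSubmodule σ k)).toIdeal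

theorem homog_core (P : Ideal (MvPolynomial σ k)) : Homog (core P) :=
  (homog_iff _).2 (HomogeneousIdeal.isHomogeneous _)

theorem core_le (P : Ideal (MvPolynomial σ k)) : core P ≤ P :=
  Ideal.toIdeal_homogeneousCore_le _ _

theorem mem_core {P : Ideal (MvPolynomial σ k)} {f : MvPolynomial σ k} {n : ℕ}
    (hf : f.IsHomogeneous n) : f ∈ core P ↔ f ∈ P :=
  ⟨fun h => core_le P h, fun h => Ideal.mem_homogeneousCore_of_homogeneous_of_mem ⟨n, hf⟩ h⟩

theorem Homog.le_core {P : Ideal (MvPolynomial σ k)} (h : Homog J) (hP : J ≤ P) : J ≤ core P :=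
  h.le_of fun _ hf _ hn => (mem_core hn).2 (hP hf)

theorem core_prime {P : Ideal (MvPolynomial σ k)} (hP : P.IsPrime) : (core P).IsPrime :=
  hP.homogeneousCore

/-- Homogenisation in degree `N` with respect to the variable `i`. -/
noncomputable def hm (i : σ) (N : ℕ) (f : MvPolynomial σ k) : MvPolynomial σ k :=
  ∑ n ∈ Finset.range (N + 1), X i ^ (N - n) * homogeneousComponent n f

theorem hm_hom (i : σ) (N : ℕ) (f : MvPolynomial σ k) : (hm i N f).IsHomogeneous N := by
  refine IsHomogeneous.sum _ _ _ fun n hn => ?_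
  have := (isHomogeneous_X_pow (R := k) i (N - n)).mul (homogeneousComponent_isHomogeneous n f)
  rwa [Nat.sub_add_cancel (Nat.lt_succ_iff.1 (Finset.mem_range.1 hn))] at this

theorem exists_hom (i : σ) (f : MvPolynomial σ k) :
    ∃ g n, MvPolynomial.IsHomogeneous g n ∧ g - f ∈ Ideal.span {(X i - 1 : MvPolynomial σ k)} := by
  refine ⟨hm i f.totalDegree f, _, hm_hom _ _ _, ?_⟩
  nth_rewrite 3 [← sum_homogeneousComponent f]
  rw [hm, ← Finset.sum_sub_distrib]
  refine Ideal.sum_mem _ fun n _ => ?_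
  rw [← sub_one_mul]
  exact Ideal.mul_mem_right _ _ (Ideal.mem_span_singleton.2 (sub_one_dvd_pow_sub_one _ _))

theorem Homog.dehom (h : Homog J) (i : σ) {g : MvPolynomial σ k} {e : ℕ} (hg : g.IsHomogeneous e)
    (hJ : g ∈ J ⊔ Ideal.span {(X i - 1 : MvPolynomial σ k)}) : ∃ N, X i ^ N * g ∈ J := by
  obtain ⟨j, hj, z, hz, hjz⟩ := Submodule.mem_sup.1 hJ
  obtain ⟨f, rfl⟩ := Ideal.mem_span_singleton'.1 hz
  set N := f.totalDegree + 1 + e with hN
  refine ⟨N - e, ?_⟩
  have h1 : hm i N g = X i ^ (N - e) * g := by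
    rw [hm, Finset.sum_eq_single e]
    · rw [homogeneousComponent_eq_self hg]
    · intro n _ hn
      rw [homogeneousComponent_of_mem hg, if_neg hn, mul_zero]
    · intro hn
      exact absurd (Finset.mem_range.2 (by omega)) hn
  have h2 : hm i N (X i * f) = hm i N f := by
    rw [hm, hm, Finset.sum_range_succ', Finset.sum_range_succ,
      hc_mul_lt (isHomogeneous_X k i) f one_pos,
      homogeneousComponent_eq_zero N f (by omega), mul_zero, mul_zero]
    congr 1
    refine Finset.sum_congr rfl fun n hn => ?_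
    have := Finset.mem_range.1 hn
    rw [hc_mul (isHomogeneous_X k i), ← mul_assoc, ← pow_succ]
    congr 2
    omega
  have h3 : hm i N g = hm i N j + (hm i N (X i * f) - hm i N f) := by
    rw [← hjz, mul_comm f, sub_one_mul]
    simp only [hm, map_add, map_sub, mul_add, mul_sub, Finset.sum_add_distrib,
      Finset.sum_sub_distrib]
  rw [← h1, h3, h2, sub_self, add_zero]
  exact J.sum_mem fun n _ => J.mul_mem_left _ (h j hj n)

section Finite

variable [Finite σ]

theorem Homog.exists_gens (h : Homog J) : ∃ s : Finset (MvPolynomial σ k),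
    (∀ g ∈ s, g ∈ J ∧ ∃ n, g.IsHomogeneous n) ∧ Ideal.span (s : Set (MvPolynomial σ k)) = J := by
  have h1 : Ideal.span {g | g ∈ J ∧ ∃ n, MvPolynomial.IsHomogeneous g n} = J :=
    le_antisymm (Ideal.span_le.2 fun _ hg => hg.1)
      (h.le_of fun f hf n hn => Ideal.subset_span ⟨hf, n, hn⟩)
  obtain ⟨s, hs1, hs2⟩ := (Submodule.fg_span_iff_fg_span_finset_subset (R := MvPolynomial σ k)
    {g | g ∈ J ∧ ∃ n, MvPolynomial.IsHomogeneous g n}).1 (IsNoetherian.noetherian _)
  exact ⟨s, fun g hg => hs1 hg, hs2.symm.trans h1⟩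

theorem mul_mem_of_deg {N : ℕ} {g f : MvPolynomial σ k} (hg : ∀ j, X j ^ N * g ∈ J) {m : ℕ}
    (hf : f.IsHomogeneous m) (hm : Nat.card σ * N < m) : f * g ∈ J := by
  classical
  have := Fintype.ofFinite σ
  rw [f.as_sum, Finset.sum_mul]
  refine J.sum_mem fun d hd => ?_
  have h1 : d.degree = m := by
    by_contra h
    exact (mem_support_iff.1 hd) (hf.coeff_eq_zero h)
  obtain ⟨j, hj⟩ : ∃ j, N ≤ d j := by
    by_contra h
    push Not at h
    rw [Finsupp.degree_eq_sum] at h1
    have : ∑ j, d j ≤ ∑ _j : σ, N := Finset.sum_le_sum fun j _ => (h j).le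
    rw [Finset.sum_const, Finset.card_univ, smul_eq_mul, ← Nat.card_eq_fintype_card] at this
    omega
  have h2 : monomial d (coeff d f) = monomial (d - Finsupp.single j N) (coeff d f) * X j ^ N := by
    rw [X_pow_eq_monomial, monomial_mul, mul_one, tsub_add_cancel_of_le]
    exact Finsupp.single_le_iff.2 hj
  rw [h2, mul_assoc]
  exact J.mul_mem_left _ (hg j)

theorem ev_le_of_pow (h' : Homog J') (H : ∀ j, ∃ N, ∀ z ∈ J', X j ^ N * z ∈ J) :
    ∀ᶠ n in atTop, ∀ z ∈ J', z.IsHomogeneous n → z ∈ J := by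
  classical
  have := Fintype.ofFinite σ
  choose N hN using H
  obtain ⟨s, hs1, hs2⟩ := h'.exists_gens
  choose! e he using fun g hg => (hs1 g hg).2
  set M := Finset.univ.sup N with hM
  have hM' : ∀ j, ∀ z ∈ J', X j ^ M * z ∈ J := fun j z hz => by
    obtain ⟨c, hc⟩ := Nat.exists_eq_add_of_le (Finset.le_sup (f := N) (Finset.mem_univ j))
    rw [hM, hc, pow_add, mul_comm (X j ^ N j), mul_assoc]
    exact J.mul_mem_left _ (hN j z hz)
  filter_upwards [eventually_gt_atTop (Nat.card σ * M + s.sup e)] with n hn z hz hzn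
  rw [← hs2] at hz
  obtain ⟨c, -, hc⟩ := Submodule.mem_span_finset.1 hz
  rw [← homogeneousComponent_eq_self hzn, ← hc, map_sum]
  refine J.sum_mem fun g hg => ?_
  have h1 : e g ≤ s.sup e := Finset.le_sup hg
  obtain ⟨m, rfl⟩ : ∃ m, n = m + e g := ⟨n - e g, by omega⟩
  rw [smul_eq_mul, mul_comm, hc_mul (he g hg), mul_comm]
  exact mul_mem_of_deg (fun j => hM' j g (hs1 g hg).1) (homogeneousComponent_isHomogeneous m _)
    (by omega)

/-- The degree `n` part of an ideal. -/
noncomputable def part (J : Ideal (MvPolynomial σ k)) (n : ℕ) : Submodule k (MvPolynomial σ k) :=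
  homogeneousSubmodule σ k n ⊓ J.restrictScalars k

omit [Finite σ] in
theorem mem_part {f : MvPolynomial σ k} {n : ℕ} : f ∈ part J n ↔ f.IsHomogeneous n ∧ f ∈ J :=
  Iff.rfl

instance (n : ℕ) : Module.Finite k (homogeneousSubmodule σ k n) :=
  Module.Finite.iff_fg.2 (homogeneousSubmodule_fg σ k n)

instance (n : ℕ) : Module.Finite k (part J n) :=
  Submodule.finiteDimensional_of_le (S₂ := homogeneousSubmodule σ k n) inf_le_left

omit [Finite σ] in
theorem finrank_map_add {M N : Type} [AddCommGroup M] [Module k M] [AddCommGroup N] [Module k N]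
    (f : M →ₗ[k] N) (V : Submodule k M) [Module.Finite k V] :
    Module.finrank k (V.map f) + Module.finrank k (V ⊓ LinearMap.ker f : Submodule k M) =
      Module.finrank k V := by
  have h := (f.domRestrict V).finrank_range_add_finrank_ker
  rw [LinearMap.range_domRestrict, LinearMap.ker_domRestrict] at h
  rw [← h]
  congr 1
  rw [← Submodule.finrank_map_subtype_eq V, Submodule.map_comap_subtype]

theorem hf_eq (J : Ideal (MvPolynomial σ k)) (n : ℕ) :
    hf J n = (Module.finrank k (homogeneousSubmodule σ k n) : ℤ) - Module.finrank k (part J n) := by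
  have h := finrank_map_add (Ideal.Quotient.mkₐ k J).toLinearMap (homogeneousSubmodule σ k n)
  have h1 : homogeneousSubmodule σ k n ⊓ LinearMap.ker (Ideal.Quotient.mkₐ k J).toLinearMap =
      part J n := by
    ext f
    simp [part, Ideal.Quotient.eq_zero_iff_mem]
  rw [h1] at h
  rw [hf]
  omega

theorem hf_congr {n : ℕ} (h : ∀ f : MvPolynomial σ k, f.IsHomogeneous n → (f ∈ J ↔ f ∈ J')) :
    hf J n = hf J' n := by
  have : part J n = part J' n := by
    ext f
    exact and_congr_right (h f)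
  rw [hf_eq, hf_eq, this]

theorem hf_top (n : ℕ) : hf (⊤ : Ideal (MvPolynomial σ k)) n = 0 := by
  have : part (⊤ : Ideal (MvPolynomial σ k)) n = homogeneousSubmodule σ k n := by
    simp [part]
  rw [hf_eq, this, sub_self]

omit [Finite σ] in
theorem hf_nonneg (n : ℕ) : 0 ≤ hf J n := Int.natCast_nonneg _

theorem hf_pos {n : ℕ} {f : MvPolynomial σ k} (hf' : f.IsHomogeneous n) (h : f ∉ J) :
    0 < hf J n := by
  have h1 : part J n < homogeneousSubmodule σ k n :=
    lt_of_le_of_ne inf_le_left fun h2 => h (show f ∈ part J n from h2 ▸ hf').2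
  have := Submodule.finrank_lt_finrank_of_lt h1
  rw [hf_eq]
  omega

theorem hf_sup_inf (h : Homog J) (h' : Homog J') (n : ℕ) :
    hf (J ⊔ J') n + hf (J ⊓ J') n = hf J n + hf J' n := by
  have h1 : part (J ⊔ J') n = part J n ⊔ part J' n := by
    refine le_antisymm (fun f hf => ?_) (sup_le (fun f hf => ⟨hf.1, Ideal.mem_sup_left hf.2⟩)
      fun f hf => ⟨hf.1, Ideal.mem_sup_right hf.2⟩)
    obtain ⟨a, ha, b, hb, hab⟩ := Submodule.mem_sup.1 (mem_part.1 hf).2
    rw [← homogeneousComponent_eq_self (mem_part.1 hf).1, ← hab, map_add]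
    exact Submodule.add_mem_sup ⟨homogeneousComponent_isHomogeneous n a, h a ha n⟩
      ⟨homogeneousComponent_isHomogeneous n b, h' b hb n⟩
  have h2 : part (J ⊓ J') n = part J n ⊓ part J' n := by
    ext f
    simp only [mem_part, Submodule.mem_inf]
    tauto
  have := Submodule.finrank_sup_add_finrank_inf_eq (part J n) (part J' n)
  rw [hf_eq, hf_eq, hf_eq, hf_eq, h1, h2]
  omega

theorem hf_mul {J1 J2 K1 K2 : Ideal (MvPolynomial σ k)} (hJ : J2 ≤ J1) (hK : K2 ≤ K1)
    {g : MvPolynomial σ k} {e : ℕ} (hg : g.IsHomogeneous e) (n : ℕ)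
    (ha : ∀ z ∈ J1, g * z ∈ K1)
    (hb : ∀ w ∈ K1, w.IsHomogeneous (n + e) → ∃ z ∈ J1, z.IsHomogeneous n ∧ w - g * z ∈ K2)
    (hc : ∀ z ∈ J1, z.IsHomogeneous n → (g * z ∈ K2 ↔ z ∈ J2)) :
    hf K2 (n + e) - hf K1 (n + e) = hf J2 n - hf J1 n := by
  let π := (Ideal.Quotient.mkₐ k K2).toLinearMap
  let f := π ∘ₗ LinearMap.mulLeft k g
  have h1 := finrank_map_add f (part J1 n)
  have h2 := finrank_map_add π (part K1 (n + e))
  have e1 : part J1 n ⊓ LinearMap.ker f = part J2 n := by
    ext z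
    simp only [Submodule.mem_inf, mem_part, LinearMap.mem_ker, f, π, LinearMap.comp_apply,
      LinearMap.mulLeft_apply, AlgHom.toLinearMap_apply, Ideal.Quotient.mkₐ_eq_mk,
      Ideal.Quotient.eq_zero_iff_mem]
    exact ⟨fun h => ⟨h.1.1, (hc z h.1.2 h.1.1).1 h.2⟩,
      fun h => ⟨⟨h.1, hJ h.2⟩, (hc z (hJ h.2) h.1).2 h.2⟩⟩
  have e2 : part K1 (n + e) ⊓ LinearMap.ker π = part K2 (n + e) := by
    ext z
    simp only [Submodule.mem_inf, mem_part, LinearMap.mem_ker, π,
      AlgHom.toLinearMap_apply, Ideal.Quotient.mkₐ_eq_mk, Ideal.Quotient.eq_zero_iff_mem]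
    exact ⟨fun h => ⟨h.1.1, h.2⟩, fun h => ⟨⟨h.1, hK h.2⟩, h.2⟩⟩
  have e3 : (part J1 n).map f = (part K1 (n + e)).map π := by
    refine le_antisymm ?_ ?_
    · rintro _ ⟨z, hz, rfl⟩
      exact ⟨g * z, ⟨by rw [add_comm]; exact hg.mul hz.1, ha z hz.2⟩, rfl⟩
    · rintro _ ⟨w, hw, rfl⟩
      obtain ⟨z, h1, h2, h3⟩ := hb w hw.2 hw.1
      exact ⟨z, ⟨h2, h1⟩, (Ideal.Quotient.eq.2 h3).symm⟩
  rw [e1, e3] at h1
  rw [e2] at h2
  rw [hf_eq, hf_eq, hf_eq, hf_eq]
  omega

end Finite

end Pool.Agent.Lib.MP_557161_ag.G2
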