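import Mathlib

/-!
A Noetherian local ring whose maximal ideal is generated by a regular sequence of length two is a
domain in which the non-maximal primes are principal.
-/

namespace Pool.Agent.Lib.MP_557161_ag.G2

open IsLocalRing

theorem exists_pow_mul {R : Type} [CommRing R] [IsLocalRing R] [IsNoetherianRing R] {t z : R}
    (ht : t ∈ maximalIdeal R) (hz : z ≠ 0) : ∃ n u, z = t ^ n * u ∧ ¬ t ∣ u := by
  classical
  have h1 : Ideal.span {t} ≠ ⊤ := fun h =>
    (maximalIdeal.isMaximal R).ne_top (top_le_iff.1 (h ▸ (Ideal.span_singleton_le_iff_mem _).2 ht))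
  have h2 : ∃ n, ¬ t ^ (n + 1) ∣ z := by
    by_contra h
    push Not at h
    apply hz
    rw [← Ideal.mem_bot, ← Ideal.iInf_pow_eq_bot_of_isLocalRing _ h1, Ideal.mem_iInf]
    intro n
    rw [Ideal.span_singleton_pow, Ideal.mem_span_singleton]
    exact (pow_dvd_pow t (Nat.le_succ n)).trans (h n)
  have h3 : t ^ Nat.find h2 ∣ z := by
    rcases h : Nat.find h2 with _ | n
    · simp
    · have := Nat.find_min h2 (m := n) (by omega)
      exact not_not.1 this
  obtain ⟨u, hu⟩ := h3
  refine ⟨_, u, hu, fun h => Nat.find_spec h2 ?_⟩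
  rw [pow_succ]
  exact (mul_dvd_mul_left _ h).trans (dvd_of_eq hu.symm)

theorem isDomain_of_prime {R : Type} [CommRing R] [IsLocalRing R] [IsNoetherianRing R] {t : R}
    (h0 : ∀ a, t * a = 0 → a = 0) (hp : (Ideal.span {t}).IsPrime) : IsDomain R := by
  have ht : t ∈ maximalIdeal R := le_maximalIdeal hp.ne_top (Ideal.mem_span_singleton_self t)
  have h1 : ∀ n a, t ^ n * a = 0 → a = 0 := by
    intro n
    induction n with
    | zero => simp
    | succ n ih => exact fun a ha => h0 a (ih _ (by rw [← ha]; ring))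
  have : NoZeroDivisors R := ⟨fun {a b} hab => by
    by_contra h
    push Not at h
    obtain ⟨n, u, rfl, hu⟩ := exists_pow_mul ht h.1
    obtain ⟨m, v, rfl, hv⟩ := exists_pow_mul ht h.2
    have h2 : u * v = 0 := h1 (n + m) _ (by rw [← hab]; ring)
    rcases hp.mem_or_mem (show u * v ∈ _ by rw [h2]; exact zero_mem _) with h3 | h3
    · exact hu (Ideal.mem_span_singleton.1 h3)
    · exact hv (Ideal.mem_span_singleton.1 h3)⟩
  exact NoZeroDivisors.to_isDomain R

/-- The properties of two dimensional regular local rings that are used. -/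
structure Good (O : Type) [CommRing O] [IsLocalRing O] : Prop where
  dom : IsDomain O
  ufd : UniqueFactorizationMonoid O
  prin : ∀ P : Ideal O, P.IsPrime → P ≠ maximalIdeal O → P.IsPrincipal
  nprin : ¬ (maximalIdeal O).IsPrincipal

section

variable {O : Type} [CommRing O] [IsLocalRing O] [IsNoetherianRing O] {x y : O}

theorem quot_facts (hm : maximalIdeal O = Ideal.span {x, y})
    (hxy : ∀ a, x ∣ y * a → x ∣ a) :
    (Ideal.span {x}).IsPrime ∧ IsPrincipalIdealRing (O ⧸ Ideal.span {x}) := by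
  have hx : Ideal.span {x} ≤ maximalIdeal O := by
    rw [hm]; exact Ideal.span_mono (by simp)
  have hne : Ideal.span {x} ≠ ⊤ := fun h => (maximalIdeal.isMaximal O).ne_top (top_le_iff.1 (h ▸ hx))
  have := Ideal.Quotient.nontrivial_iff.2 hne
  have := IsLocalRing.of_surjective' _ (Ideal.Quotient.mk_surjective (I := Ideal.span {x}))
  have h1 : maximalIdeal (O ⧸ Ideal.span {x}) = Ideal.span {Ideal.Quotient.mk _ y} := by
    have h2 := (maximalIdeal.isMaximal O).map_of_surjective_of_ker_le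
      (Ideal.Quotient.mk_surjective (I := Ideal.span {x})) (by rwa [Ideal.mk_ker])
    rw [← eq_maximalIdeal h2, hm, Ideal.map_span, Set.image_pair,
      Ideal.Quotient.eq_zero_iff_mem.2 (Ideal.mem_span_singleton_self x), Ideal.span_insert]
    simp
  have hd : IsDomain (O ⧸ Ideal.span {x}) := by
    refine isDomain_of_prime (t := Ideal.Quotient.mk _ y) (fun a ha => ?_)
      (h1 ▸ (maximalIdeal.isMaximal _).isPrime)
    obtain ⟨a, rfl⟩ := Ideal.Quotient.mk_surjective a
    rw [← map_mul, Ideal.Quotient.eq_zero_iff_mem, Ideal.mem_span_singleton] at ha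
    rw [Ideal.Quotient.eq_zero_iff_mem, Ideal.mem_span_singleton]
    exact hxy a ha
  refine ⟨(Ideal.Quotient.isDomain_iff_prime _).1 hd, ?_⟩
  have h3 := (tfae_of_isNoetherianRing_of_isLocalRing_of_isDomain (O ⧸ Ideal.span {x})).out 4 0
  exact h3.1 ⟨⟨_, h1⟩⟩

theorem prin_of_notMem (hm : maximalIdeal O = Ideal.span {x, y})
    (hxy : ∀ a, x ∣ y * a → x ∣ a) (P : Ideal O) (hP : P.IsPrime) (hx : x ∉ P) :
    P.IsPrincipal := by
  have := (quot_facts hm hxy).2
  obtain ⟨z, hz⟩ := (IsPrincipalIdealRing.principal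
    (P.map (Ideal.Quotient.mk (Ideal.span {x})))).principal
  have h1 : z ∈ P.map (Ideal.Quotient.mk (Ideal.span {x})) := by
    rw [hz]; exact Submodule.mem_span_singleton_self z
  obtain ⟨p, hp, rfl⟩ := (Ideal.mem_map_iff_of_surjective _ Ideal.Quotient.mk_surjective).1 h1
  refine ⟨p, le_antisymm ?_ ((Ideal.span_singleton_le_iff_mem _).2 hp)⟩
  refine Submodule.le_of_le_smul_of_le_jacobson_bot (I := maximalIdeal O)
    (IsNoetherian.noetherian P) (maximalIdeal_le_jacobson _) fun r hr => ?_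
  have h2 := Ideal.mem_map_of_mem (Ideal.Quotient.mk (Ideal.span {x})) hr
  rw [hz] at h2
  obtain ⟨s, hs⟩ := Ideal.mem_span_singleton'.1 h2
  obtain ⟨s, rfl⟩ := Ideal.Quotient.mk_surjective s
  rw [← map_mul, Ideal.Quotient.eq, Ideal.mem_span_singleton'] at hs
  obtain ⟨c, hc⟩ := hs
  have h3 : c ∈ P := by
    refine (hP.mem_or_mem (show c * x ∈ P from ?_)).resolve_right hx
    rw [hc]
    exact P.sub_mem (P.mul_mem_left _ hp) hr
  have h4 : r = s * p + (-x) • c := by rw [smul_eq_mul]; linear_combination hc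
  rw [h4]
  refine Submodule.add_mem_sup (Ideal.mul_mem_left _ _ (Ideal.mem_span_singleton_self p))
    (Submodule.smul_mem_smul (neg_mem ?_) h3)
  rw [hm]
  exact Ideal.subset_span (by simp)

theorem good_of_regular (hm : maximalIdeal O = Ideal.span {x, y}) (hx : ∀ a, x * a = 0 → a = 0)
    (hxy : ∀ a, x ∣ y * a → x ∣ a) (hyx : ∀ a, y ∣ x * a → y ∣ a) : Good O := by
  have hp := (quot_facts hm hxy).1
  have hd := isDomain_of_prime hx hp
  have hx0 : x ≠ 0 := fun h => one_ne_zero (hx 1 (by rw [h, zero_mul]))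
  have hxp : Prime x := (Ideal.span_singleton_prime hx0).1 hp
  have hxm : x ∈ maximalIdeal O := by rw [hm]; exact Ideal.subset_span (by simp)
  have hpr : ∀ P : Ideal O, P.IsPrime → P ≠ maximalIdeal O → P.IsPrincipal := by
    intro P hP hne
    by_cases h : x ∈ P
    · refine prin_of_notMem (x := y) (y := x) (by rw [hm, Set.pair_comm]) hyx P hP fun h' => ?_
      refine hne (le_antisymm (le_maximalIdeal hP.ne_top) ?_)
      rw [hm, Ideal.span_le]
      rintro z (rfl | rfl)
      exacts [h, h']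
    · exact prin_of_notMem hm hxy P hP h
  refine ⟨hd, ?_, hpr, ?_⟩
  · rw [UniqueFactorizationMonoid.iff_exists_prime_mem_of_isPrime]
    intro P h0 hP
    by_cases h : P = maximalIdeal O
    · exact ⟨x, h ▸ hxm, hxp⟩
    · obtain ⟨z, rfl⟩ := (hpr P hP h).principal
      refine ⟨z, Submodule.mem_span_singleton_self z, (Ideal.span_singleton_prime ?_).1 hP⟩
      rintro rfl
      exact h0 (by simp)
  · rintro ⟨z, hz⟩
    have hz' : maximalIdeal O = Ideal.span {z} := hz
    have h1 : z ∣ x := Ideal.mem_span_singleton.1 (hz' ▸ hxm)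
    have h2 : z ∣ y := Ideal.mem_span_singleton.1 (by
      rw [← hz', hm]; exact Ideal.subset_span (by simp))
    have h3 : z ∈ maximalIdeal O := by rw [hz]; exact Submodule.mem_span_singleton_self z
    rcases hxp.irreducible.dvd_iff.1 h1 with h | h
    · exact h3 h
    · have h4 := hxy 1 (by rw [mul_one]; exact h.dvd.trans h2)
      exact hxp.not_isUnit (isUnit_of_dvd_one h4)

end

namespace Good

variable {O : Type} [CommRing O] [IsLocalRing O] (h : Good O)

include h

theorem gen {P : Ideal O} (hP : P.IsPrime) (h0 : P ≠ ⊥) (hm : P ≠ maximalIdeal O) :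
    ∃ z, Prime z ∧ P = Ideal.span {z} := by
  have := h.dom
  obtain ⟨z, rfl⟩ := (h.prin P hP hm).principal
  refine ⟨z, (Ideal.span_singleton_prime ?_).1 hP, rfl⟩
  rintro rfl
  exact h0 (by simp)

theorem span_ne (z : O) : Ideal.span {z} ≠ maximalIdeal O := fun hz => h.nprin ⟨z, hz.symm⟩

theorem eq_max {P P' : Ideal O} (hP : P.IsPrime) (hP' : P'.IsPrime) (h0 : P ≠ ⊥) (hlt : P < P') :
    P' = maximalIdeal O := by
  have := h.dom
  by_contra hm
  have h1 : P ≠ maximalIdeal O := fun h2 =>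
    hlt.not_ge (h2 ▸ le_maximalIdeal hP'.ne_top)
  obtain ⟨z, hz, rfl⟩ := h.gen hP h0 h1
  obtain ⟨z', hz', rfl⟩ := h.gen hP' (ne_bot_of_gt hlt) hm
  have h3 := Ideal.span_singleton_le_span_singleton.1 hlt.le
  exact hlt.not_ge (Ideal.span_singleton_le_span_singleton.2
    (hz'.irreducible.dvd_symm hz.irreducible h3))

theorem exists_prime_dvd {z : O} (h0 : z ≠ 0) (hz : z ∈ maximalIdeal O) : ∃ π, Prime π ∧ π ∣ z := by
  have := h.dom
  have := h.ufd
  obtain ⟨π, h1, h2⟩ := WfDvdMonoid.exists_irreducible_factor hz h0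
  exact ⟨π, UniqueFactorizationMonoid.irreducible_iff_prime.1 h1, h2⟩

theorem exists_prime : ∃ π : O, Prime π := by
  have := h.dom
  have h1 : maximalIdeal O ≠ ⊥ := fun h2 => h.span_ne 0 (by rw [h2]; simp)
  obtain ⟨z, hz, h0⟩ := Submodule.exists_mem_ne_zero_of_ne_bot h1
  obtain ⟨π, hπ, -⟩ := h.exists_prime_dvd h0 hz
  exact ⟨π, hπ⟩

end Good

end Pool.Agent.Lib.MP_557161_ag.G2
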