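import Mathlib
import Pool.Agent.Lib.MP_557161_ag.G2.Grad
import Pool.Agent.Lib.MP_557161_ag.G2.LocAlg

/-!
Local rings at the closed points of the charts and the passage from local to global statements.
-/

namespace Pool.Agent.Lib.MP_557161_ag.G2

open MvPolynomial Filter IsLocalRing

variable {k : Type} [Field k] {σ : Type}

/-- A closed point of one of the charts. -/
structure LP (I : Ideal (MvPolynomial σ k)) (T : Set σ) where
  i : σ
  hi : i ∈ T
  m : Ideal (Chart I i)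
  hm : m.IsMaximal

variable {I : Ideal (MvPolynomial σ k)} {T : Set σ}

namespace LP

variable (p : LP I T)

instance : p.m.IsPrime := p.hm.isPrime

/-- The local ring. -/
def O : Type := Localization.AtPrime p.m

noncomputable instance : CommRing p.O := inferInstanceAs (CommRing (Localization.AtPrime p.m))

noncomputable instance : Algebra (Chart I p.i) p.O :=
  inferInstanceAs (Algebra (Chart I p.i) (Localization.AtPrime p.m))

instance : IsLocalization.AtPrime p.O p.m :=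
  inferInstanceAs (IsLocalization.AtPrime (Localization.AtPrime p.m) p.m)

instance : IsLocalRing p.O := IsLocalization.AtPrime.isLocalRing p.O p.m

instance [Finite σ] : IsNoetherianRing p.O :=
  IsLocalization.isNoetherianRing p.m.primeCompl p.O inferInstance

/-- The map from the polynomial ring to the local ring. -/
noncomputable def φ : MvPolynomial σ k →+* p.O :=
  (algebraMap (Chart I p.i) p.O).comp (Ideal.Quotient.mk _)

/-- The maximal ideal of the polynomial ring. -/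
noncomputable def M : Ideal (MvPolynomial σ k) := p.m.comap (Ideal.Quotient.mk _)

theorem M_max : p.M.IsMaximal :=
  have := p.hm
  Ideal.comap_isMaximal_of_surjective _ Ideal.Quotient.mk_surjective

theorem φ_K {z : MvPolynomial σ k} (hz : z ∈ I ⊔ Ideal.span {X p.i - 1}) : p.φ z = 0 := by
  rw [φ, RingHom.comp_apply, Ideal.Quotient.eq_zero_iff_mem.2 hz, map_zero]

theorem φ_I {z : MvPolynomial σ k} (hz : z ∈ I) : p.φ z = 0 := p.φ_K (Ideal.mem_sup_left hz)

theorem φ_X : p.φ (X p.i) = 1 := by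
  have := p.φ_K (Ideal.mem_sup_right (Ideal.mem_span_singleton_self _))
  rwa [map_sub, map_one, sub_eq_zero] at this

theorem φ_congr {a b : MvPolynomial σ k} (h : a - b ∈ Ideal.span {(X p.i - 1 : MvPolynomial σ k)}) :
    p.φ a = p.φ b := by
  rw [← sub_eq_zero, ← map_sub]
  exact p.φ_K (Ideal.mem_sup_right h)

theorem isUnit_φ {r : MvPolynomial σ k} : IsUnit (p.φ r) ↔ r ∉ p.M :=
  IsLocalization.AtPrime.isUnit_to_map_iff p.O p.m _

theorem φ_mem_max {r : MvPolynomial σ k} : p.φ r ∈ maximalIdeal p.O ↔ r ∈ p.M := by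
  rw [mem_maximalIdeal, mem_nonunits_iff, isUnit_φ, not_not]

theorem X_notMem : X p.i ∉ p.M := p.isUnit_φ.1 (p.φ_X ▸ isUnit_one)

theorem K_le : I ⊔ Ideal.span {X p.i - 1} ≤ p.M := fun _ hz =>
  p.φ_mem_max.1 (p.φ_K hz ▸ zero_mem _)

theorem map_M : p.M.map p.φ = maximalIdeal p.O := by
  rw [φ, ← Ideal.map_map, M, Ideal.map_comap_of_surjective _ Ideal.Quotient.mk_surjective]
  exact IsLocalization.AtPrime.map_eq_maximalIdeal p.m p.O

theorem exists_mul_mem {J : Ideal (MvPolynomial σ k)} (hI : I ≤ J) {z : MvPolynomial σ k}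
    (h : p.φ z ∈ J.map p.φ) : ∃ r, r ∉ p.M ∧ r * z ∈ J ⊔ Ideal.span {X p.i - 1} := by
  rw [φ, ← Ideal.map_map, RingHom.comp_apply,
    IsLocalization.mem_map_algebraMap_iff p.m.primeCompl] at h
  obtain ⟨⟨⟨a, ha⟩, ⟨s, hs⟩⟩, h⟩ := h
  rw [← map_mul, IsLocalization.eq_iff_exists p.m.primeCompl] at h
  obtain ⟨⟨c, hc⟩, h⟩ := h
  obtain ⟨s, rfl⟩ := Ideal.Quotient.mk_surjective s
  obtain ⟨c, rfl⟩ := Ideal.Quotient.mk_surjective c
  obtain ⟨a, ha', rfl⟩ := (Ideal.mem_map_iff_of_surjective _ Ideal.Quotient.mk_surjective).1 ha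
  refine ⟨c * s, fun h1 => (p.M_max.isPrime.mem_or_mem h1).elim hc hs, ?_⟩
  simp only [← map_mul] at h
  rw [Ideal.Quotient.eq] at h
  have h2 : c * s * z = (c * (z * s) - c * a) + c * a := by ring
  rw [h2]
  exact add_mem (sup_le_sup_right hI _ h) (Ideal.mem_sup_left (J.mul_mem_left _ ha'))

theorem exists_hom_mul_mem {J : Ideal (MvPolynomial σ k)} (hJ : Homog J) (hI : I ≤ J)
    {z : MvPolynomial σ k} {e : ℕ} (hz : z.IsHomogeneous e) (h : p.φ z ∈ J.map p.φ) :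
    ∃ r n, MvPolynomial.IsHomogeneous r n ∧ r ∉ p.M ∧ r * z ∈ J := by
  obtain ⟨r, hr, h1⟩ := p.exists_mul_mem hI h
  obtain ⟨r', n, h2, h3⟩ := exists_hom p.i r
  have h4 : r' * z ∈ J ⊔ Ideal.span {X p.i - 1} := by
    have : r' * z = r * z + (r' - r) * z := by ring
    rw [this]
    exact add_mem h1 (Ideal.mem_sup_right (Ideal.mul_mem_right _ _ h3))
  obtain ⟨N, hN⟩ := hJ.dehom p.i (h2.mul hz) h4
  refine ⟨X p.i ^ N * r', _, (isHomogeneous_X_pow _ N).mul h2, ?_, by rwa [mul_assoc]⟩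
  rw [← isUnit_φ, map_mul, map_pow, φ_X, one_pow, one_mul, p.φ_congr h3, isUnit_φ]
  exact hr

theorem surj (ζ : p.O) :
    ∃ z n u, MvPolynomial.IsHomogeneous z n ∧ IsUnit u ∧ ζ = u * p.φ z := by
  obtain ⟨⟨a, s⟩, h⟩ := IsLocalization.surj p.m.primeCompl ζ
  obtain ⟨a, rfl⟩ := Ideal.Quotient.mk_surjective a
  obtain ⟨z, n, h1, h2⟩ := exists_hom p.i a
  obtain ⟨u, hu⟩ := IsLocalization.map_units p.O s
  refine ⟨z, n, ↑u⁻¹, h1, Units.isUnit _, ?_⟩
  rw [p.φ_congr h2, Units.eq_inv_mul_iff_mul_eq, hu, mul_comm]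
  exact h

theorem le_of_hom {A B : Ideal p.O}
    (h : ∀ z n, MvPolynomial.IsHomogeneous z n → p.φ z ∈ A → p.φ z ∈ B) : A ≤ B := by
  intro ζ hζ
  obtain ⟨z, n, u, h1, h2, rfl⟩ := p.surj ζ
  exact B.mul_mem_left _ (h z n h1 ((Ideal.unit_mul_mem_iff_mem _ h2).1 hζ))

theorem map_eq_top {J : Ideal (MvPolynomial σ k)} (h : ¬ J ≤ p.M) : J.map p.φ = ⊤ := by
  obtain ⟨r, h1, h2⟩ := Set.not_subset.1 h
  exact Ideal.eq_top_of_isUnit_mem _ (Ideal.mem_map_of_mem _ h1) (p.isUnit_φ.2 h2)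

theorem map_I : I.map p.φ = ⊥ := (Ideal.map_eq_bot_iff_le_ker _).2 fun _ hz => p.φ_I hz

theorem mem_map_prime (P : Pt I) (hP : P.1 ≤ p.M) {z : MvPolynomial σ k} {e : ℕ}
    (hz : z.IsHomogeneous e) : p.φ z ∈ P.1.map p.φ ↔ z ∈ P.1 := by
  refine ⟨fun h => ?_, Ideal.mem_map_of_mem _⟩
  obtain ⟨r, n, -, h1, h2⟩ := p.exists_hom_mul_mem P.2.2.1 P.2.2.2.1 hz h
  exact (P.2.1.mem_or_mem h2).resolve_left fun h3 => h1 (hP h3)

theorem map_prime (P : Pt I) (hP : P.1 ≤ p.M) : (P.1.map p.φ).IsPrime := by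
  refine ⟨fun h => P.2.1.ne_top ?_, fun {a b} hab => ?_⟩
  · rw [Ideal.eq_top_iff_one, ← p.mem_map_prime P hP (isHomogeneous_one σ k), h]
    trivial
  · obtain ⟨z, n, u, h1, h2, rfl⟩ := p.surj a
    obtain ⟨z', n', u', h1', h2', rfl⟩ := p.surj b
    rw [mul_mul_mul_comm, Ideal.unit_mul_mem_iff_mem _ (h2.mul h2'), ← map_mul,
      p.mem_map_prime P hP (h1.mul h1')] at hab
    exact (P.2.1.mem_or_mem hab).imp (fun h => Ideal.mul_mem_left _ _ (Ideal.mem_map_of_mem _ h))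
      fun h => Ideal.mul_mem_left _ _ (Ideal.mem_map_of_mem _ h)

theorem le_of_map_le {J : Ideal (MvPolynomial σ k)} (hJ : Homog J) (P : Pt I) (hP : P.1 ≤ p.M)
    (h : J.map p.φ ≤ P.1.map p.φ) : J ≤ P.1 :=
  hJ.le_of fun _ hf _ hn => (p.mem_map_prime P hP hn).1 (h (Ideal.mem_map_of_mem _ hf))

/-- The point of the projective scheme that belongs to a prime of the local ring. -/
noncomputable def pull (hI : Homog I) (Q : Ideal p.O) (hQ : Q.IsPrime) : Pt I :=
  ⟨core (Q.comap p.φ), core_prime (Ideal.comap_isPrime _ _), homog_core _,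
    hI.le_core fun z hz => by rw [Ideal.mem_comap, p.φ_I hz]; exact zero_mem _,
    p.i, fun h => hQ.ne_top (by
      have := core_le _ h
      rwa [Ideal.mem_comap, φ_X, ← Ideal.eq_top_iff_one] at this)⟩

theorem pull_le (hI : Homog I) (Q : Ideal p.O) (hQ : Q.IsPrime) : (p.pull hI Q hQ).1 ≤ p.M :=
  fun _ hz => p.φ_mem_max.1 (le_maximalIdeal hQ.ne_top (core_le _ hz))

theorem map_pull (hI : Homog I) (Q : Ideal p.O) (hQ : Q.IsPrime) :
    (p.pull hI Q hQ).1.map p.φ = Q :=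
  le_antisymm (Ideal.map_le_iff_le_comap.2 (core_le _))
    (p.le_of_hom fun _ _ hz h => Ideal.mem_map_of_mem _ ((mem_core hz).2 h))

end LP

theorem exists_LP {i : σ} (hi : i ∈ T) {J : Ideal (MvPolynomial σ k)} (hI : I ≤ J)
    (h : J ⊔ Ideal.span {X i - 1} ≠ ⊤) : ∃ p : LP I T, p.i = i ∧ J ≤ p.M := by
  obtain ⟨M, hM, hle⟩ := Ideal.exists_le_maximal _ h
  have h1 : I ⊔ Ideal.span {X i - 1} ≤ M := (sup_le_sup_right hI _).trans hle
  refine ⟨⟨i, hi, M.map (Ideal.Quotient.mk _), hM.map_of_surjective_of_ker_le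
    Ideal.Quotient.mk_surjective (by rwa [Ideal.mk_ker])⟩, rfl, fun z hz => ?_⟩
  exact Ideal.mem_map_of_mem _ (hle (Ideal.mem_sup_left hz))

theorem Pt.sup_ne_top (P : Pt I) {i : σ} (h : X i ∉ P.1) : P.1 ⊔ Ideal.span {X i - 1} ≠ ⊤ := by
  intro h1
  obtain ⟨N, hN⟩ := P.2.2.1.dehom i (isHomogeneous_one σ k) (by rw [h1]; trivial)
  rw [mul_one] at hN
  exact h (P.2.1.mem_of_pow_mem N hN)

/-- The charts with index in `T` cover the scheme and all local rings are good. -/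
class Surf (I : Ideal (MvPolynomial σ k)) (T : outParam (Set σ)) : Prop where
  hom : Homog I
  cov : ∀ P : Ideal (MvPolynomial σ k), P.IsPrime → I ≤ P → (∀ i ∈ T, X i ∈ P) → ∀ j, X j ∈ P
  good : ∀ p : LP I T, Good p.O

variable [Surf I T]

instance (p : LP I T) : IsDomain p.O := (Surf.good p).dom

instance (p : LP I T) : UniqueFactorizationMonoid p.O := (Surf.good p).ufd

theorem Pt.exists_i (P : Pt I) : ∃ i ∈ T, X i ∉ P.1 := by
  by_contra h
  push Not at h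
  obtain ⟨j, hj⟩ := P.2.2.2.2
  exact hj (Surf.cov P.1 P.2.1 P.2.2.2.1 h j)

theorem Pt.exists_LP (P : Pt I) : ∃ p : LP I T, P.1 ≤ p.M := by
  obtain ⟨i, hi, h⟩ := Pt.exists_i P
  obtain ⟨p, -, hp⟩ := G2.exists_LP hi P.2.2.2.1 (Pt.sup_ne_top P h)
  exact ⟨p, hp⟩

theorem LP.isMin_iff (p : LP I T) (P : Pt I) (hP : P.1 ≤ p.M) : IsMin P ↔ P.1.map p.φ = ⊥ := by
  constructor
  · intro h
    have h1 : p.pull Surf.hom ⊥ Ideal.isPrime_bot ≤ P :=
      p.le_of_map_le (homog_core _) P hP ((p.map_pull Surf.hom _ Ideal.isPrime_bot).le.trans bot_le)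
    exact le_bot_iff.1 ((Ideal.map_mono (h h1)).trans (p.map_pull _ _ _).le)
  · intro h P' hP'
    exact p.le_of_map_le P.2.2.1 P' (le_trans hP' hP) (by rw [h]; exact bot_le)

omit [Surf I T] in
theorem LP.map_lt (p : LP I T) {P P' : Pt I} (hP : P'.1 ≤ p.M) (h : P < P') :
    P.1.map p.φ < P'.1.map p.φ :=
  lt_of_le_not_ge (Ideal.map_mono h.le) fun h1 =>
    h.not_ge (p.le_of_map_le P'.2.2.1 P (le_trans h.le hP) h1)

theorem LP.height_iff (p : LP I T) (P : Pt I) (hP : P.1 ≤ p.M) :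
    Order.height P = 1 ↔ P.1.map p.φ ≠ ⊥ ∧ P.1.map p.φ ≠ maximalIdeal p.O := by
  have h0 : Order.height P = 1 ↔ ¬ IsMin P ∧ ∀ y < P, IsMin y := by
    rw [← Order.height_pos, le_antisymm_iff, and_comm, Order.one_le_iff_pos]
    refine and_congr_right fun _ => ?_
    have := Order.height_le_coe_iff (x := P) (n := 1)
    simpa using this
  rw [h0, p.isMin_iff P hP]
  refine and_congr_right fun h1 => ⟨fun h2 h3 => ?_, fun h2 y hy => ?_⟩
  · obtain ⟨π, hπ⟩ := (Surf.good p).exists_prime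
    have h4 := (Ideal.span_singleton_prime hπ.ne_zero).2 hπ
    have h5 : p.pull Surf.hom _ h4 ≤ P := p.le_of_map_le (homog_core _) P hP
      ((p.map_pull Surf.hom _ h4).le.trans (h3 ▸ le_maximalIdeal h4.ne_top))
    have h6 := h2 _ (lt_of_le_of_ne h5 fun h => (Surf.good p).span_ne π (by
      rw [← h3, ← h, p.map_pull]))
    rw [p.isMin_iff _ (p.pull_le _ _ _), p.map_pull, Ideal.span_singleton_eq_bot] at h6
    exact hπ.ne_zero h6
  · rw [p.isMin_iff y (le_trans hy.le hP)]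
    by_contra h3
    exact h2 ((Surf.good p).eq_max (p.map_prime y (le_trans hy.le hP)) (p.map_prime P hP) h3
      (p.map_lt hP hy))

theorem LP.curve_gen (p : LP I T) (C : Curve I) (h : C.1.1 ≤ p.M) :
    ∃ π, Prime π ∧ C.1.1.map p.φ = Ideal.span {π} :=
  have h1 := (p.height_iff C.1 h).1 C.2
  (Surf.good p).gen (p.map_prime C.1 h) h1.1 h1.2

omit [Surf I T] in
theorem Curve.eq_of_le {C D : Curve I} (h : C.1.1 ≤ D.1.1) : C = D := by
  by_contra hne
  have h1 : C.1 < D.1 := lt_of_le_of_ne h fun h2 => hne (Subtype.ext h2)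
  have := Order.height_add_one_le h1
  rw [C.2, D.2] at this
  exact absurd this (by decide)

theorem LP.map_eq_max (p : LP I T) (C : Curve I) {P : Pt I} (hP : P.1 ≤ p.M) (h : C.1 < P) :
    P.1.map p.φ = maximalIdeal p.O :=
  (Surf.good p).eq_max (p.map_prime C.1 (le_trans h.le hP)) (p.map_prime P hP)
    ((p.height_iff C.1 (le_trans h.le hP)).1 C.2).1 (p.map_lt hP h)

omit [Surf I T] in
theorem LP.eq_core (p : LP I T) {P : Pt I} (hP : P.1 ≤ p.M)
    (h : P.1.map p.φ = maximalIdeal p.O) : P.1 = core p.M :=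
  le_antisymm (P.2.2.1.le_core hP) (p.le_of_map_le (homog_core _) P hP (by
    rw [h, ← p.map_M]; exact Ideal.map_mono (core_le _)))

variable [Finite σ]

theorem pow_mem_of_loc {J J' : Ideal (MvPolynomial σ k)} (hJ : Homog J) (hJ' : Homog J')
    (hI : I ≤ J) (h : ∀ p : LP I T, J'.map p.φ ≤ J.map p.φ) (j : σ) :
    ∃ N, ∀ z ∈ J', X j ^ N * z ∈ J := by
  classical
  obtain ⟨s, hs1, hs2⟩ := hJ'.exists_gens
  have h1 : ∀ i ∈ T, X i ∈ (J.colon J').radical := by
    intro i hi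
    have h2 : J.colon J' ⊔ Ideal.span {X i - 1} = ⊤ := by
      by_contra h3
      obtain ⟨p, -, hp⟩ := exists_LP hi (I := I) (hI.trans Ideal.le_colon) h3
      have h4 : ∀ g ∈ s, ∃ r, r ∉ p.M ∧ r * g ∈ J := fun g hg => by
        obtain ⟨h5, n, h6⟩ := hs1 g hg
        obtain ⟨r, -, -, h7, h8⟩ := p.exists_hom_mul_mem hJ hI h6
          (h p (Ideal.mem_map_of_mem _ h5))
        exact ⟨r, h7, h8⟩
      choose! r hr1 hr2 using h4
      have h5 : ∏ g ∈ s, r g ∈ J.colon J' := by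
        rw [← hs2, Ideal.colon_span, Submodule.mem_colon]
        intro g hg
        rw [smul_eq_mul, ← Finset.prod_erase_mul s r hg, mul_assoc]
        exact J.mul_mem_left _ (hr2 g hg)
      obtain ⟨g, hg, h6⟩ := (Ideal.IsPrime.prod_mem_iff (hp := p.M_max.isPrime)).1 (hp h5)
      exact hr1 g hg h6
    obtain ⟨N, hN⟩ := (hJ.colon hJ').dehom i (isHomogeneous_one σ k) (by rw [h2]; trivial)
    exact ⟨N, by rwa [mul_one] at hN⟩
  have h2 : X j ∈ (J.colon J').radical := by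
    rw [Ideal.radical_eq_sInf, Submodule.mem_sInf]
    rintro P ⟨h3, h4⟩
    exact Surf.cov P h4 ((hI.trans Ideal.le_colon).trans h3)
      (fun i hi => (h4.radical_le_iff.2 h3) (h1 i hi)) j
  obtain ⟨N, hN⟩ := h2
  exact ⟨N, fun z hz => Submodule.mem_colon.1 hN z hz⟩

theorem ev_le {J J' : Ideal (MvPolynomial σ k)} (hJ : Homog J) (hJ' : Homog J')
    (hI : I ≤ J) (h : ∀ p : LP I T, J'.map p.φ ≤ J.map p.φ) :
    ∀ᶠ n in atTop, ∀ z ∈ J', z.IsHomogeneous n → z ∈ J :=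
  ev_le_of_pow hJ' (pow_mem_of_loc hJ hJ' hI h)

theorem hf_ev_eq {J J' : Ideal (MvPolynomial σ k)} (hJ : Homog J) (hJ' : Homog J')
    (hI : I ≤ J) (hI' : I ≤ J') (h : ∀ p : LP I T, J.map p.φ = J'.map p.φ) :
    ∀ᶠ n in atTop, hf J n = hf J' n := by
  filter_upwards [ev_le hJ hJ' hI fun p => (h p).ge, ev_le hJ' hJ hI' fun p => (h p).le]
    with n h1 h2
  exact hf_congr fun f hf => ⟨fun h => h2 f h hf, fun h => h1 f h hf⟩

theorem hf_ev_mul {J1 J2 K1 K2 : Ideal (MvPolynomial σ k)} (h1 : Homog J1) (h2 : Homog J2)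
    (h3 : Homog K1) (h4 : Homog K2) (hJ : J2 ≤ J1) (hK : K2 ≤ K1) (hIJ : I ≤ J2) (hIK : I ≤ K2)
    {g : MvPolynomial σ k} {e : ℕ} (hg : g.IsHomogeneous e) (ha : ∀ z ∈ J1, g * z ∈ K1)
    (hb : ∀ z ∈ J2, g * z ∈ K2)
    (hs : ∀ p : LP I T, K1.map p.φ ≤ K2.map p.φ ⊔ Ideal.span {p.φ g} * J1.map p.φ)
    (hi : ∀ p : LP I T, ∀ ζ ∈ J1.map p.φ, p.φ g * ζ ∈ K2.map p.φ → ζ ∈ J2.map p.φ) :
    ∀ᶠ n in atTop, hf K2 (n + e) - hf K1 (n + e) = hf J2 n - hf J1 n := by
  have e1 := ev_le (h4.sup ((homog_one hg).mul h1)) h3 (hIK.trans le_sup_left) fun p => by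
    rw [Ideal.map_sup, Ideal.map_mul, Ideal.map_span, Set.image_singleton]
    exact hs p
  have e2 := ev_le h2 (h1.inf (h4.colon (homog_one hg))) hIJ fun p => by
    rw [Ideal.map_le_iff_le_comap]
    intro z hz
    refine hi p _ (Ideal.mem_map_of_mem _ hz.1) ?_
    rw [← map_mul, mul_comm]
    exact Ideal.mem_map_of_mem _ (Submodule.mem_colon.1 hz.2 g (Ideal.mem_span_singleton_self g))
  filter_upwards [(tendsto_add_atTop_nat e).eventually e1, e2] with n e1 e2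
  refine hf_mul hJ hK hg n ha (fun w hw hwn => ?_) fun z hz hzn => ⟨fun h => e2 z ⟨hz, ?_⟩ hzn, hb z⟩
  · obtain ⟨a, ha, b, hb, hab⟩ := Submodule.mem_sup.1 (e1 w hw hwn)
    obtain ⟨z, hz, rfl⟩ := Ideal.mem_span_singleton_mul.1 hb
    refine ⟨_, h1 z hz n, homogeneousComponent_isHomogeneous n z, ?_⟩
    rw [← homogeneousComponent_eq_self hwn, ← hab, map_add, hc_mul hg, add_sub_cancel_right]
    exact h4 a ha _
  · change z ∈ K2.colon _
    rw [Ideal.mem_colon_span_singleton, mul_comm]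
    exact h

end Pool.Agent.Lib.MP_557161_ag.G2
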