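import Mathlib
import Pool.Agent.Lib.MP_557161_ag.G2.Loc

/-!
Invertible ideals, modules with finite support and the degree of a curve.
-/

namespace Pool.Agent.Lib.MP_557161_ag.G2

open MvPolynomial Filter IsLocalRing

variable {k : Type} [Field k] {σ : Type} {I : Ideal (MvPolynomial σ k)} {T : Set σ}

/-- Homogeneous ideals that define an effective Cartier divisor. -/
structure Inv (I : Ideal (MvPolynomial σ k)) (T : Set σ) (J : Ideal (MvPolynomial σ k)) :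
    Prop where
  hom : Homog J
  le : I ≤ J
  loc : ∀ p : LP I T, ∃ ψ, ψ ≠ 0 ∧ J.map p.φ = Ideal.span {ψ}

theorem exists_gen_of_span {O : Type} [CommRing O] [IsLocalRing O] [IsDomain O] {s : Set O} {ψ : O}
    (h0 : ψ ≠ 0) (h : Ideal.span s = Ideal.span {ψ}) : ∃ y ∈ s, Ideal.span {y} = Ideal.span {ψ} := by
  by_contra H
  push Not at H
  have h1 : Ideal.span s ≤ Ideal.span {ψ} * maximalIdeal O := by
    rw [Ideal.span_le]
    intro y hy
    obtain ⟨a, rfl⟩ := Ideal.mem_span_singleton.1 (h ▸ Ideal.subset_span hy)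
    refine Ideal.mul_mem_mul (Ideal.mem_span_singleton_self ψ) fun ha => H _ hy ?_
    exact Ideal.span_singleton_mul_right_unit ha ψ
  obtain ⟨a, ha, h2⟩ := Ideal.mem_span_singleton_mul.1 (h1 (h ▸ Ideal.mem_span_singleton_self ψ))
  have h3 : a = 1 := mul_left_cancel₀ h0 (by rw [h2, mul_one])
  exact ha (h3 ▸ isUnit_one)

theorem ev_const {f : ℕ → ℤ} {e : ℕ} (h1 : ∀ᶠ n in atTop, f (n + e) = f n)
    (h2 : ∀ᶠ n in atTop, f (n + (e + 1)) = f n) : ∃ c, ∀ᶠ n in atTop, f n = c := by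
  obtain ⟨N, hN⟩ := eventually_atTop.1 (h1.and h2)
  refine ⟨f (N + e), eventually_atTop.2 ⟨N + e, fun n hn => ?_⟩⟩
  induction n, hn using Nat.le_induction with
  | base => rfl
  | succ n hn ih =>
    obtain ⟨m, rfl⟩ : ∃ m, n = m + e := ⟨n - e, by omega⟩
    rw [← ih, add_assoc, (hN m (by omega)).2, (hN m (by omega)).1]

theorem ev_shift {f : ℕ → ℤ} {c : ℤ} (e : ℕ) (h : ∀ᶠ n in atTop, f (n + e) = c) :
    ∀ᶠ n in atTop, f n = c := by
  obtain ⟨N, hN⟩ := eventually_atTop.1 h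
  refine eventually_atTop.2 ⟨N + e, fun n hn => ?_⟩
  obtain ⟨m, rfl⟩ : ∃ m, n = m + e := ⟨n - e, by omega⟩
  exact hN m (by omega)

theorem lim_eq {f : ℕ → ℤ} {c : ℤ} (h : ∀ᶠ n in atTop, f n = c) : limUnder atTop f = c :=
  (tendsto_const_nhds.congr' (h.mono fun _ h => h.symm)).limUnder_eq

variable [Surf I T]

omit [Surf I T] in
theorem inv_top : Inv I T ⊤ :=
  ⟨homog_top, le_top, fun _ => ⟨1, one_ne_zero, by rw [Ideal.map_top, Ideal.span_singleton_one]⟩⟩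

theorem inv_curve (C : Curve I) : Inv I T C.1.1 := by
  refine ⟨C.1.2.2.1, C.1.2.2.2.1, fun p => ?_⟩
  by_cases h : C.1.1 ≤ p.M
  · obtain ⟨π, h1, h2⟩ := p.curve_gen C h
    exact ⟨π, h1.ne_zero, h2⟩
  · exact ⟨1, one_ne_zero, by rw [p.map_eq_top h, Ideal.span_singleton_one]⟩

omit [Surf I T] in
theorem LP.map_sup_I (p : LP I T) (J : Ideal (MvPolynomial σ k)) :
    (J ⊔ I).map p.φ = J.map p.φ := by
  rw [Ideal.map_sup, p.map_I, sup_bot_eq]

omit [Surf I T] in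
theorem LP.map_one (p : LP I T) (g : MvPolynomial σ k) :
    (Ideal.span {g}).map p.φ = Ideal.span {p.φ g} := by
  rw [Ideal.map_span, Set.image_singleton]

theorem Inv.mul {J J' : Ideal (MvPolynomial σ k)} (h : Inv I T J) (h' : Inv I T J') :
    Inv I T (J * J' ⊔ I) := by
  refine ⟨(h.hom.mul h'.hom).sup Surf.hom, le_sup_right, fun p => ?_⟩
  obtain ⟨ψ, h1, h2⟩ := h.loc p
  obtain ⟨ψ', h1', h2'⟩ := h'.loc p
  exact ⟨ψ * ψ', mul_ne_zero h1 h1', by
    rw [p.map_sup_I, Ideal.map_mul, h2, h2', Ideal.span_singleton_mul_span_singleton]⟩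

theorem inv_form {g : MvPolynomial σ k} {e : ℕ} (hg : g.IsHomogeneous e)
    (h : ∀ p : LP I T, p.φ g ≠ 0) : Inv I T (Ideal.span {g} ⊔ I) :=
  ⟨(homog_one hg).sup Surf.hom, le_sup_right, fun p => ⟨_, h p, by rw [p.map_sup_I, p.map_one]⟩⟩

theorem eq_core_of_lt (D : Curve I) {P : Pt I} (h : D.1 < P) (p : LP I T) (hP : P.1 ≤ p.M) :
    P.1 = core p.M := p.eq_core hP (p.map_eq_max D hP h)

include T in
theorem eq_of_lt_of_le (D : Curve I) {P P' : Pt I} (h : D.1 < P) (h' : P ≤ P') : P = P' := by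
  obtain ⟨p, hp⟩ := Pt.exists_LP P'
  exact Subtype.ext ((eq_core_of_lt D h p (le_trans h' hp)).trans
    (eq_core_of_lt D (h.trans_le h') p hp).symm)

variable [Finite σ]

theorem Inv.exists_gen {J : Ideal (MvPolynomial σ k)} (h : Inv I T J) (P : Pt I) :
    ∃ y n r m, y ∈ J ∧ MvPolynomial.IsHomogeneous y n ∧ MvPolynomial.IsHomogeneous r m ∧
      r ∉ P.1 ∧ ∀ z ∈ J, r * z ∈ Ideal.span {y} ⊔ I := by
  classical
  obtain ⟨p, hp⟩ := Pt.exists_LP P
  obtain ⟨s, hs1, hs2⟩ := h.hom.exists_gens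
  obtain ⟨ψ, h0, h1⟩ := h.loc p
  rw [← hs2, Ideal.map_span] at h1
  obtain ⟨_, ⟨y, hy, rfl⟩, h2⟩ := exists_gen_of_span h0 h1
  obtain ⟨hyJ, n, hn⟩ := hs1 y hy
  have h4 : ∀ g ∈ s, ∃ r m, MvPolynomial.IsHomogeneous r m ∧ r ∉ p.M ∧
      r * g ∈ Ideal.span {y} ⊔ I := fun g hg => by
    obtain ⟨-, m, h6⟩ := hs1 g hg
    refine p.exists_hom_mul_mem ((homog_one hn).sup Surf.hom) le_sup_right h6 ?_
    rw [p.map_sup_I, p.map_one, h2, ← h1]
    exact Ideal.subset_span ⟨g, hg, rfl⟩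
  choose! r m hr1 hr2 hr3 using h4
  refine ⟨y, n, ∏ g ∈ s, r g, _, hyJ, hn, IsHomogeneous.prod s r m hr1, fun h5 => ?_, ?_⟩
  · obtain ⟨g, hg, h6⟩ := (Ideal.IsPrime.prod_mem_iff (hp := p.M_max.isPrime)).1 (hp h5)
    exact hr2 g hg h6
  · have h5 : ∏ g ∈ s, r g ∈ (Ideal.span {y} ⊔ I).colon J := by
      rw [← hs2, Ideal.colon_span, Submodule.mem_colon]
      intro g hg
      rw [smul_eq_mul, ← Finset.prod_erase_mul s r hg, mul_assoc]
      exact Ideal.mul_mem_left _ _ (hr3 g hg)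
    exact fun z hz => Submodule.mem_colon.1 h5 z hz

include T in
theorem finite_pts (D : Curve I) {r : MvPolynomial σ k} {m : ℕ} (hr : r.IsHomogeneous m)
    (hD : r ∉ D.1.1) : {P : Pt I | D.1 ≤ P ∧ r ∈ P.1}.Finite := by
  refine Set.Finite.of_finite_image (f := Subtype.val) ?_ Subtype.val_injective.injOn
  refine ((D.1.1 ⊔ Ideal.span {r}).finite_minimalPrimes_of_isNoetherianRing _).subset ?_
  rintro _ ⟨P, ⟨h1, h2⟩, rfl⟩
  refine ⟨⟨P.2.1, sup_le h1 ((Ideal.span_singleton_le_iff_mem _).2 h2)⟩, ?_⟩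
  rintro Q ⟨h3, h4⟩ h5
  obtain ⟨i, hi⟩ := P.2.2.2.2
  have h6 := (D.1.2.2.1.sup (homog_one hr)).le_core h4
  let P' : Pt I := ⟨core Q, core_prime h3, homog_core _, D.1.2.2.2.1.trans (le_sup_left.trans h6),
    i, fun h => hi (h5 (core_le _ h))⟩
  have h7 : D.1 < P' := lt_of_le_of_ne (le_sup_left.trans h6) fun h => hD (by
    rw [h]; exact h6 (Ideal.mem_sup_right (Ideal.mem_span_singleton_self r)))
  have h8 := eq_of_lt_of_le D h7 (P' := P) ((core_le Q).trans h5)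
  rw [← h8]
  exact core_le Q

theorem Inv.exists_gen_ev {J : Ideal (MvPolynomial σ k)} (h : Inv I T J) (D : Curve I)
    {r : MvPolynomial σ k} {m : ℕ} (hr : r.IsHomogeneous m) (hD : r ∉ D.1.1) :
    ∀ᶠ e in atTop, ∃ j ∈ J, j.IsHomogeneous e ∧ ∀ p : LP I T, D.1.1 ≤ p.M → r ∈ p.M →
      J.map p.φ = Ideal.span {p.φ j} := by
  classical
  have hfin := finite_pts D hr hD
  set F := hfin.toFinset with hF
  have hmem : ∀ P, P ∈ F ↔ D.1 ≤ P ∧ r ∈ P.1 := fun P => hfin.mem_toFinset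
  have hlt : ∀ P ∈ F, D.1 < P := fun P hP =>
    lt_of_le_of_ne ((hmem P).1 hP).1 fun h => hD (h ▸ ((hmem P).1 hP).2)
  choose y n t m' hy1 hy2 ht1 ht2 ht3 using h.exists_gen
  have h1 : ∀ P P' : Pt I, ∃ z l, MvPolynomial.IsHomogeneous z l ∧
      (P' ∈ F → P' ≠ P → z ∈ P'.1) ∧ z ∉ P.1 := by
    intro P P'
    by_cases h2 : P' ∈ F ∧ P' ≠ P
    · by_contra h3
      push Not at h3
      refine h2.2 (eq_of_lt_of_le D (hlt P' h2.1) ?_)
      exact P'.2.2.1.le_of fun z hz l hl => h3 z l hl fun _ _ => hz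
    · exact ⟨1, 0, isHomogeneous_one σ k, fun h3 h4 => absurd ⟨h3, h4⟩ h2,
        (Ideal.ne_top_iff_one _).1 P.2.1.ne_top⟩
  choose z l hz1 hz2 hz3 using h1
  choose x hx using fun P : Pt I => P.2.2.2.2
  filter_upwards [eventually_ge_atTop (F.sup fun P => ∑ P' ∈ F, l P P' + n P)] with e he
  refine ⟨∑ P ∈ F, X (x P) ^ (e - (∑ P' ∈ F, l P P' + n P)) * ((∏ P' ∈ F, z P P') * y P),
    J.sum_mem fun P _ => J.mul_mem_left _ (J.mul_mem_left _ (hy1 P)),
    IsHomogeneous.sum _ _ _ fun P hP => ?_, fun p hp1 hp2 => ?_⟩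
  · have h2 := (isHomogeneous_X_pow (R := k) (x P) (e - (∑ P' ∈ F, l P P' + n P))).mul
      ((IsHomogeneous.prod F (z P) (l P) fun P' _ => hz1 P P').mul (hy2 P))
    rwa [Nat.sub_add_cancel ((Finset.le_sup (f := fun P => ∑ P' ∈ F, l P P' + n P) hP).trans he)]
      at h2
  · let P : Pt I := ⟨core p.M, core_prime p.M_max.isPrime, homog_core _,
      D.1.2.2.2.1.trans (D.1.2.2.1.le_core hp1), p.i, fun h => p.X_notMem (core_le _ h)⟩
    have hP : P ∈ F := (hmem P).2 ⟨D.1.2.2.1.le_core hp1, (mem_core hr).2 hp2⟩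
    have hu : ∀ {w : MvPolynomial σ k} {d}, w.IsHomogeneous d → w ∉ P.1 → IsUnit (p.φ w) :=
      fun hw h => p.isUnit_φ.2 fun h' => h ((mem_core hw).2 h')
    have h2 : J.map p.φ = Ideal.span {p.φ (y P)} := by
      refine le_antisymm (Ideal.map_le_iff_le_comap.2 fun w hw => ?_)
        ((Ideal.span_singleton_le_iff_mem _).2 (Ideal.mem_map_of_mem _ (hy1 P)))
      have := Ideal.mem_map_of_mem p.φ (ht3 P w hw)
      rwa [p.map_sup_I, p.map_one, map_mul,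
        Ideal.unit_mul_mem_iff_mem _ (hu (ht1 P) (ht2 P))] at this
    have h3 : p.φ (∑ Q ∈ F.erase P, X (x Q) ^ (e - (∑ P' ∈ F, l Q P' + n Q)) *
        ((∏ P' ∈ F, z Q P') * y Q)) ∈ Ideal.span {p.φ (y P)} * maximalIdeal p.O := by
      rw [map_sum]
      refine Ideal.sum_mem _ fun Q hQ => ?_
      rw [map_mul, map_mul, mul_comm (p.φ _) (p.φ (y Q))]
      refine Ideal.mul_mem_left _ _ (Ideal.mul_mem_mul (h2 ▸ Ideal.mem_map_of_mem _ (hy1 Q)) ?_)
      rw [p.φ_mem_max, ← Finset.mul_prod_erase F _ hP]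
      exact Ideal.mul_mem_right _ _ (core_le _ (hz2 Q P hP (Finset.ne_of_mem_erase hQ).symm))
    obtain ⟨a, ha, h4⟩ := Ideal.mem_span_singleton_mul.1 h3
    have h5 : IsUnit (p.φ (X (x P) ^ (e - (∑ P' ∈ F, l P P' + n P)) * ∏ P' ∈ F, z P P')) := by
      rw [map_mul, map_pow, map_prod]
      exact ((hu (isHomogeneous_X k _) (hx P)).pow _).mul
        (IsUnit.prod_iff.2 fun P' _ => hu (hz1 P P') (hz3 P P'))
    rw [h2, ← Finset.add_sum_erase F _ hP, map_add, ← h4, ← mul_assoc, map_mul _ _ (y P),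
      mul_comm _ (p.φ (y P)), ← mul_add, Ideal.span_singleton_mul_right_unit]
    by_contra h6
    have h7 := (maximalIdeal p.O).sub_mem h6 ha
    rw [add_sub_cancel_right] at h7
    exact h7 h5

theorem twist (D : Curve I) {r : MvPolynomial σ k} {m : ℕ} (hr : r.IsHomogeneous m)
    (hD : r ∉ D.1.1) {J1 J2 J : Ideal (MvPolynomial σ k)} (h1 : Homog J1) (h2 : Homog J2)
    (h12 : J2 ≤ J1) (hI : I ≤ J2) (hJ : Inv I T J)
    (hs : ∀ p : LP I T, ¬ (D.1.1 ≤ p.M ∧ r ∈ p.M) → J1.map p.φ ≤ J2.map p.φ) :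
    ∀ᶠ e in atTop, ∀ᶠ n in atTop,
      hf (J * J2 ⊔ I) (n + e) - hf (J * J1 ⊔ I) (n + e) = hf J2 n - hf J1 n := by
  filter_upwards [hJ.exists_gen_ev D hr hD] with e ⟨j, hj1, hj2, hj3⟩
  refine hf_ev_mul h1 h2 ((hJ.hom.mul h1).sup Surf.hom) ((hJ.hom.mul h2).sup Surf.hom) h12
    (sup_le_sup_right (Ideal.mul_mono_right h12) _) hI le_sup_right hj2
    (fun z hz => Ideal.mem_sup_left (Ideal.mul_mem_mul hj1 hz))
    (fun z hz => Ideal.mem_sup_left (Ideal.mul_mem_mul hj1 hz)) (fun p => ?_) fun p ζ hζ h => ?_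
  · rw [p.map_sup_I, p.map_sup_I, Ideal.map_mul, Ideal.map_mul]
    by_cases h : D.1.1 ≤ p.M ∧ r ∈ p.M
    · rw [hj3 p h.1 h.2]
      exact le_sup_right
    · exact (Ideal.mul_mono_right (hs p h)).trans le_sup_left
  · by_cases h' : D.1.1 ≤ p.M ∧ r ∈ p.M
    · rw [p.map_sup_I, Ideal.map_mul, hj3 p h'.1 h'.2] at h
      obtain ⟨η, h3, h4⟩ := Ideal.mem_span_singleton_mul.1 h
      obtain ⟨ψ, h5, h6⟩ := hJ.loc p
      have h7 : p.φ j ≠ 0 := fun h8 => h5 (by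
        rw [hj3 p h'.1 h'.2, h8, eq_comm, Ideal.span_singleton_eq_bot.2 rfl,
          Ideal.span_singleton_eq_bot] at h6
        exact h6)
      exact mul_left_cancel₀ h7 h4 ▸ h3
    · exact hs p h' hζ

theorem exists_const (D : Curve I) {r : MvPolynomial σ k} {m : ℕ} (hr : r.IsHomogeneous m)
    (hD : r ∉ D.1.1) {J1 J2 : Ideal (MvPolynomial σ k)} (h1 : Homog J1) (h2 : Homog J2)
    (h12 : J2 ≤ J1) (hI : I ≤ J2)
    (hs : ∀ p : LP I T, ¬ (D.1.1 ≤ p.M ∧ r ∈ p.M) → J1.map p.φ ≤ J2.map p.φ) :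
    ∃ c, ∀ᶠ n in atTop, hf J2 n - hf J1 n = c := by
  have h := twist D hr hD h1 h2 h12 hI inv_top hs
  rw [Ideal.top_mul, Ideal.top_mul, sup_eq_left.2 hI, sup_eq_left.2 (hI.trans h12)] at h
  obtain ⟨e, he⟩ := eventually_atTop.1 h
  exact ev_const (f := fun n => hf J2 n - hf J1 n) (he e le_rfl) (he (e + 1) e.le_succ)

omit [Surf I T] in
theorem hf_sup_form (D : Pt I) {g : MvPolynomial σ k} {e : ℕ} (hg : g.IsHomogeneous e)
    (hD : g ∉ D.1) (n : ℕ) :
    hf (D.1 ⊔ Ideal.span {g}) (n + e) = hf D.1 (n + e) - hf D.1 n := by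
  have := hf_mul (J1 := ⊤) (J2 := D.1) (K1 := D.1 ⊔ Ideal.span {g}) (K2 := D.1) le_top
    le_sup_left hg n
    (fun z _ => Ideal.mem_sup_right (Ideal.mul_mem_right _ _ (Ideal.mem_span_singleton_self g)))
    (fun w hw hwn => ?_)
    fun z _ _ => ⟨fun h => (D.2.1.mem_or_mem h).resolve_left hD, D.1.mul_mem_left _⟩
  · rw [hf_top] at this
    omega
  · obtain ⟨a, ha, b, hb, hab⟩ := Submodule.mem_sup.1 hw
    obtain ⟨z, rfl⟩ := Ideal.mem_span_singleton.1 hb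
    refine ⟨_, trivial, homogeneousComponent_isHomogeneous n z, ?_⟩
    rw [← homogeneousComponent_eq_self hwn, ← hab, map_add, hc_mul hg, add_sub_cancel_right]
    exact D.2.2.1 a ha _

/-- The degree of a curve. -/
noncomputable def deg (D : Curve I) : ℤ := limUnder atTop fun n => hf D.1.1 (n + 1) - hf D.1.1 n

include T in
theorem deg_one (D : Curve I) : ∀ᶠ n in atTop, hf D.1.1 (n + 1) - hf D.1.1 n = deg D := by
  obtain ⟨i, hi⟩ := D.1.2.2.2.2
  obtain ⟨c, hc⟩ := exists_const D (isHomogeneous_X k i) hi homog_top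
    (D.1.2.2.1.sup (homog_one (isHomogeneous_X k i))) le_top (D.1.2.2.2.1.trans le_sup_left)
    fun p hp => by
      rw [p.map_eq_top (J := D.1.1 ⊔ _) fun h => hp ⟨le_sup_left.trans h,
        h (Ideal.mem_sup_right (Ideal.mem_span_singleton_self _))⟩]
      exact le_top
  have h : ∀ᶠ n in atTop, hf D.1.1 (n + 1) - hf D.1.1 n = c := by
    filter_upwards [(tendsto_add_atTop_nat 1).eventually hc] with n hn
    rw [← hn, hf_top, sub_zero, hf_sup_form D.1 (isHomogeneous_X k i) hi]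
  rw [deg, lim_eq h]
  exact h

include T in
theorem deg_ev (D : Curve I) (e : ℕ) :
    ∀ᶠ n in atTop, hf D.1.1 (n + e) - hf D.1.1 n = e * deg D := by
  induction e with
  | zero => simp
  | succ e ih =>
    filter_upwards [ih, (tendsto_add_atTop_nat e).eventually (deg_one D)] with n h1 h2
    rw [← add_assoc]
    push_cast
    linear_combination h1 + h2

omit [Surf I T] in
theorem hf_pos_of_le {J : Ideal (MvPolynomial σ k)} (P : Pt I) (h : J ≤ P.1) (n : ℕ) :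
    0 < hf J n := by
  obtain ⟨i, hi⟩ := P.2.2.2.2
  exact hf_pos (isHomogeneous_X_pow i n) fun h1 => hi (P.2.1.mem_of_pow_mem n (h h1))

include T in
theorem hf_ev_zero {J : Ideal (MvPolynomial σ k)} (hJ : Homog J) (hI : I ≤ J)
    (h : ∀ P : Pt I, ¬ J ≤ P.1) : ∀ᶠ n in atTop, hf J n = 0 := by
  filter_upwards [hf_ev_eq hJ homog_top hI le_top fun p => by
    rw [Ideal.map_top]
    exact p.map_eq_top fun h1 => h ⟨core p.M, core_prime p.M_max.isPrime, homog_core _,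
      hI.trans (hJ.le_core h1), p.i, fun h => p.X_notMem (core_le _ h)⟩ (hJ.le_core h1)] with n hn
  rw [hn, hf_top]

include T in
theorem deg_pos (D : Curve I) : 0 < deg D := by
  obtain ⟨p, hp⟩ := Pt.exists_LP D.1
  let P := p.pull Surf.hom _ (maximalIdeal.isMaximal p.O).isPrime
  have h1 : D.1.1 ≤ P.1 := p.le_of_map_le D.1.2.2.1 P (p.pull_le _ _ _) (by
    rw [p.map_pull]; exact le_maximalIdeal (p.map_prime D.1 hp).ne_top)
  obtain ⟨g, hg, e, he, hD⟩ : ∃ g ∈ P.1, ∃ e, g.IsHomogeneous e ∧ g ∉ D.1.1 := by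
    by_contra h
    push Not at h
    refine ((p.height_iff D.1 hp).1 D.2).2 ?_
    rw [le_antisymm h1 (P.2.2.1.le_of h), p.map_pull]
  obtain ⟨n, hn⟩ := (deg_ev D e).exists
  have h2 := hf_pos_of_le P (sup_le h1 ((Ideal.span_singleton_le_iff_mem _).2 hg)) (n + e)
  rw [hf_sup_form D.1 he hD, hn] at h2
  exact pos_of_mul_pos_left (by rwa [mul_comm] at h2) (Int.natCast_nonneg e)

include T in
theorem exists_meet (D : Curve I) {g : MvPolynomial σ k} (hg : g.IsHomogeneous 1) :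
    ∃ P : Pt I, D.1 ≤ P ∧ g ∈ P.1 := by
  by_cases hD : g ∈ D.1.1
  · exact ⟨D.1, le_rfl, hD⟩
  by_contra h
  push Not at h
  have h1 := hf_ev_zero (D.1.2.2.1.sup (homog_one hg)) (D.1.2.2.2.1.trans le_sup_left)
    fun P hP => h P (le_sup_left.trans hP) (hP (Ideal.mem_sup_right (Ideal.mem_span_singleton_self _)))
  obtain ⟨n, h2, h3⟩ := (((tendsto_add_atTop_nat 1).eventually h1).and (deg_one D)).exists
  rw [hf_sup_form D.1 hg hD, h3] at h2
  exact (deg_pos D).ne' h2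

end Pool.Agent.Lib.MP_557161_ag.G2
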