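import Mathlib
import Pool.Agent.Lib.MP_557161_ag.G2.Inter

/-!
The intersection number of an effective Cartier divisor with a curve is additive; factorisation of
invertible ideals into curves.
-/

namespace Pool.Agent.Lib.MP_557161_ag.G2

open MvPolynomial Filter IsLocalRing

variable {k : Type} [Field k] {σ : Type} {I : Ideal (MvPolynomial σ k)} {T : Set σ}

/-- The function whose eventual value is the intersection number. -/
noncomputable def chiJ (J : Ideal (MvPolynomial σ k)) (D : Curve I) (n : ℕ) : ℤ :=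
  hf J n + hf D.1.1 n - hf (J * D.1.1 ⊔ I) n

/-- The intersection number of an invertible ideal with a curve. -/
noncomputable def lam (J : Ideal (MvPolynomial σ k)) (D : Curve I) : ℤ := limUnder atTop (chiJ J D)

theorem inter_eq_lam (C D : Curve I) : inter C D = lam C.1.1 D := rfl

theorem inter_comm (C D : Curve I) : inter C D = inter D C := by
  have : chi C D = chi D C := by
    funext n
    rw [chi, chi, mul_comm, add_comm]
  rw [inter, inter, this]

/-- `j` generates `J` at the generic point of `D`. -/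
structure Gen (J : Ideal (MvPolynomial σ k)) (D : Curve I) (j : MvPolynomial σ k) (e : ℕ)
    (r : MvPolynomial σ k) (m : ℕ) : Prop where
  mem : j ∈ J
  hj : j.IsHomogeneous e
  hr : r.IsHomogeneous m
  nD : r ∉ D.1.1
  le : ∀ z ∈ J, r * z ∈ Ideal.span {j} ⊔ I

variable [Surf I T]

section

variable {J J' : Ideal (MvPolynomial σ k)} {D : Curve I} {j r j' r' : MvPolynomial σ k}
  {e m e' m' : ℕ}

theorem Gen.cancel (h : Gen J D j e r m) (hJ : Inv I T J) (p : LP I T) :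
    ∃ ψ a, ψ ≠ 0 ∧ J.map p.φ = Ideal.span {ψ} ∧ p.φ j = ψ * a ∧
      ∀ b, a * b ∈ D.1.1.map p.φ → b ∈ D.1.1.map p.φ := by
  obtain ⟨ψ, h0, h1⟩ := hJ.loc p
  obtain ⟨a, ha⟩ := Ideal.mem_span_singleton.1 (h1 ▸ Ideal.mem_map_of_mem p.φ h.mem)
  refine ⟨ψ, a, h0, h1, ha, fun b hb => ?_⟩
  by_cases hD : D.1.1 ≤ p.M
  · refine ((p.map_prime D.1 hD).mem_or_mem hb).resolve_left fun h2 => h.nD ?_
    rw [← p.mem_map_prime D.1 hD h.hr]
    have h3 : Ideal.span {p.φ r} * J.map p.φ ≤ Ideal.span {p.φ j} := by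
      rw [← p.map_one, ← p.map_one, ← p.map_sup_I (Ideal.span {j}), ← Ideal.map_mul]
      refine Ideal.map_mono fun w hw => ?_
      obtain ⟨z, hz, rfl⟩ := Ideal.mem_span_singleton_mul.1 hw
      exact h.le z hz
    rw [h1, Ideal.span_singleton_mul_span_singleton, Ideal.span_singleton_le_span_singleton, ha,
      mul_comm _ ψ, mul_dvd_mul_iff_left h0] at h3
    exact Ideal.mem_of_dvd _ h3 h2
  · rw [p.map_eq_top hD]
    trivial

omit [Surf I T] in
theorem Gen.supp (h : Gen J D j e r m) (p : LP I T) (hp : ¬ (D.1.1 ≤ p.M ∧ r ∈ p.M)) :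
    J.map p.φ ≤ (Ideal.span {j} ⊔ (J * D.1.1 ⊔ I)).map p.φ := by
  by_cases hD : D.1.1 ≤ p.M
  · rw [Ideal.map_le_iff_le_comap]
    intro z hz
    have h1 := Ideal.mem_map_of_mem p.φ (h.le z hz)
    rw [map_mul, Ideal.unit_mul_mem_iff_mem _ (p.isUnit_φ.2 fun h2 => hp ⟨hD, h2⟩)] at h1
    exact Ideal.map_mono (sup_le_sup_left le_sup_right _) h1
  · rw [Ideal.map_sup, p.map_sup_I, Ideal.map_mul, p.map_eq_top hD, Ideal.mul_top]
    exact le_sup_right

omit [Surf I T] in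
theorem Gen.le_J (h : Gen J D j e r m) (hI : I ≤ J) : Ideal.span {j} ⊔ (J * D.1.1 ⊔ I) ≤ J :=
  sup_le ((Ideal.span_singleton_le_iff_mem _).2 h.mem) (sup_le Ideal.mul_le_left hI)

include T in
theorem Gen.hom (h : Gen J D j e r m) (hJ : Homog J) :
    Homog (Ideal.span {j} ⊔ (J * D.1.1 ⊔ I)) :=
  (homog_one h.hj).sup ((hJ.mul D.1.2.2.1).sup Surf.hom)

omit [Surf I T] in
theorem Gen.mul (h : Gen J D j e r m) (h' : Gen J' D j' e' r' m') :
    Gen (J * J' ⊔ I) D (j * j') (e + e') (r * r') (m + m') := by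
  refine ⟨Ideal.mem_sup_left (Ideal.mul_mem_mul h.mem h'.mem), h.hj.mul h'.hj, h.hr.mul h'.hr,
    fun h1 => (D.1.2.1.mem_or_mem h1).elim h.nD h'.nD, fun z hz => ?_⟩
  obtain ⟨a, ha, b, hb, rfl⟩ := Submodule.mem_sup.1 hz
  rw [mul_add]
  refine add_mem ?_ (Ideal.mem_sup_right (I.mul_mem_left _ hb))
  refine Submodule.mul_induction_on ha (fun x hx y hy => ?_) fun x y hx hy => by
    rw [mul_add]; exact add_mem hx hy
  have h1 : (Ideal.span {j} ⊔ I) * (Ideal.span {j'} ⊔ I) ≤ Ideal.span {j * j'} ⊔ I := by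
    rw [Ideal.sup_mul, Ideal.mul_sup, Ideal.span_singleton_mul_span_singleton]
    exact sup_le (sup_le_sup_left Ideal.mul_le_right _) (Ideal.mul_le_left.trans le_sup_right)
  rw [mul_mul_mul_comm]
  exact h1 (Ideal.mul_mem_mul (h.le x hx) (h'.le y hy))

variable [Finite σ]

theorem Gen.chi (h : Gen J D j e r m) (hJ : Inv I T J) {c : ℤ}
    (hc : ∀ᶠ n in atTop, hf (Ideal.span {j} ⊔ (J * D.1.1 ⊔ I)) n - hf J n = c) :
    ∀ᶠ n in atTop, chiJ J D n = e * deg D - c := by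
  have h1 := hf_ev_mul homog_top D.1.2.2.1 (h.hom hJ.hom) ((hJ.hom.mul D.1.2.2.1).sup Surf.hom)
    le_top le_sup_right D.1.2.2.2.1 le_sup_right h.hj
    (fun z _ => Ideal.mem_sup_left (Ideal.mul_mem_right _ _ (Ideal.mem_span_singleton_self j)))
    (fun z hz => Ideal.mem_sup_left (Ideal.mul_mem_mul h.mem hz))
    (fun p => by rw [Ideal.map_sup, p.map_one, Ideal.map_top, Ideal.mul_top, sup_comm])
    fun p ζ _ hζ => by
      obtain ⟨ψ, a, h0, h1, h2, h3⟩ := h.cancel hJ p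
      rw [p.map_sup_I, Ideal.map_mul, h1, h2, mul_assoc] at hζ
      obtain ⟨δ, h4, h5⟩ := Ideal.mem_span_singleton_mul.1 hζ
      exact h3 ζ (mul_left_cancel₀ h0 h5 ▸ h4)
  refine ev_shift e ?_
  filter_upwards [h1, deg_ev D e, (tendsto_add_atTop_nat e).eventually hc] with n h1 h2 h3
  rw [hf_top] at h1
  rw [chiJ]
  linear_combination h2 - h3 - h1

theorem Gen.const (h : Gen J D j e r m) (hJ : Inv I T J) :
    ∃ c, ∀ᶠ n in atTop, hf (Ideal.span {j} ⊔ (J * D.1.1 ⊔ I)) n - hf J n = c :=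
  exists_const D h.hr h.nD hJ.hom (h.hom hJ.hom) (h.le_J hJ.le)
    (le_sup_right.trans le_sup_right) h.supp

theorem Inv.gen (hJ : Inv I T J) (D : Curve I) : ∃ j e r m, Gen J D j e r m := by
  obtain ⟨j, e, r, m, h1, h2, h3, h4, h5⟩ := hJ.exists_gen D.1
  exact ⟨j, e, r, m, h1, h2, h3, h4, h5⟩

theorem Inv.chi (hJ : Inv I T J) (D : Curve I) : ∀ᶠ n in atTop, chiJ J D n = lam J D := by
  obtain ⟨j, e, r, m, h⟩ := hJ.gen D
  obtain ⟨c, hc⟩ := h.const hJ
  have h1 := h.chi hJ hc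
  rw [lam, lim_eq h1]
  exact h1

theorem lam_mul (hJ : Inv I T J) (hJ' : Inv I T J') (D : Curve I) :
    lam (J * J' ⊔ I) D = lam J D + lam J' D := by
  obtain ⟨j, e, r, m, h⟩ := hJ.gen D
  obtain ⟨j', e', r', m', h'⟩ := hJ'.gen D
  obtain ⟨c, hc⟩ := h.const hJ
  obtain ⟨c', hc'⟩ := h'.const hJ'
  obtain ⟨l, hl⟩ := (twist D h.hr h.nD hJ.hom (h.hom hJ.hom) (h.le_J hJ.le)
    (le_sup_right.trans le_sup_right) hJ' h.supp).exists
  have h1 : ∀ᶠ n in atTop, hf (J' * (Ideal.span {j} ⊔ (J * D.1.1 ⊔ I)) ⊔ I) n -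
      hf (J' * J ⊔ I) n = c := ev_shift l (by
    filter_upwards [hl, hc] with n h1 h2
    rw [h1, h2])
  have hJJ : ∀ {a b}, a ∈ J → b ∈ J' → a * b ∈ J * J' ⊔ I := fun ha hb =>
    Ideal.mem_sup_left (Ideal.mul_mem_mul ha hb)
  have h2 := hf_ev_mul hJ'.hom (h'.hom hJ'.hom) ((hJ'.hom.mul (h.hom hJ.hom)).sup (Surf.hom (I := I)))
    ((h.mul h').hom (hJ.mul hJ').hom) (h'.le_J hJ'.le) ?_ (le_sup_right.trans le_sup_right)
    (le_sup_right.trans le_sup_right) h.hj
    (fun z hz => Ideal.mem_sup_left (mul_comm z j ▸ Ideal.mul_mem_mul hz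
      (Ideal.mem_sup_left (Ideal.mem_span_singleton_self j)))) (fun z hz => ?_) (fun p => ?_)
    fun p ζ hζ hz => ?_
  · have h3 : ∀ᶠ n in atTop, hf (Ideal.span {j * j'} ⊔ ((J * J' ⊔ I) * D.1.1 ⊔ I)) n -
        hf (J * J' ⊔ I) n = c + c' := ev_shift e (by
      filter_upwards [h2, hc', (tendsto_add_atTop_nat e).eventually h1] with n h2 h3 h4
      rw [mul_comm J' J] at h4
      linear_combination h2 + h3 + h4)
    rw [lam, lam, lam, lim_eq ((h.mul h').chi (hJ.mul hJ') h3), lim_eq (h.chi hJ hc),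
      lim_eq (h'.chi hJ' hc')]
    push_cast
    ring
  · refine sup_le ((Ideal.span_singleton_le_iff_mem _).2 (Ideal.mem_sup_left
      (mul_comm j' j ▸ Ideal.mul_mem_mul h'.mem
        (Ideal.mem_sup_left (Ideal.mem_span_singleton_self j))))) (sup_le ?_ le_sup_right)
    rw [Ideal.sup_mul]
    refine sup_le_sup ?_ Ideal.mul_le_left
    rw [mul_comm J J', mul_assoc]
    exact Ideal.mul_mono_right (le_sup_left.trans le_sup_right)
  · obtain ⟨a, ha, b, hb, rfl⟩ := Submodule.mem_sup.1 hz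
    obtain ⟨b, hb', d, hd, rfl⟩ := Submodule.mem_sup.1 hb
    obtain ⟨a, rfl⟩ := Ideal.mem_span_singleton.1 ha
    rw [mul_add, mul_add, ← mul_assoc]
    refine Submodule.add_mem_sup (Ideal.mul_mem_right _ _ (Ideal.mem_span_singleton_self _))
      (Submodule.add_mem_sup ?_ (I.mul_mem_left _ hd))
    have h3 : J * (J' * D.1.1) ≤ (J * J' ⊔ I) * D.1.1 := by
      rw [← mul_assoc]; exact Ideal.mul_mono_left le_sup_left
    exact h3 (Ideal.mul_mem_mul h.mem hb')
  · simp only [Ideal.map_sup, Ideal.map_mul, p.map_I, sup_bot_eq, p.map_one, Ideal.mul_sup,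
      Ideal.mul_bot]
    refine sup_le ?_ ?_
    · rw [mul_comm (J'.map p.φ)]
      exact le_sup_right
    · rw [← mul_assoc, mul_comm (J'.map p.φ)]
      exact le_sup_right.trans le_sup_left
  · obtain ⟨ψ, a, h0, h3, h4, h5⟩ := h.cancel hJ p
    obtain ⟨ψ', a', h0', h3', h4', -⟩ := h'.cancel hJ' p
    simp only [Ideal.map_sup, Ideal.map_mul, p.map_I, sup_bot_eq, p.map_one, h3, h3', map_mul, h4,
      h4', Ideal.span_singleton_mul_span_singleton] at hζ hz ⊢
    obtain ⟨ζ, rfl⟩ := Ideal.mem_span_singleton.1 hζ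
    obtain ⟨x, hx, y, hy, hxy⟩ := Submodule.mem_sup.1 hz
    obtain ⟨x, rfl⟩ := Ideal.mem_span_singleton.1 hx
    obtain ⟨δ, hδ, rfl⟩ := Ideal.mem_span_singleton_mul.1 hy
    have h6 : a * (ζ - a' * x) = δ := mul_left_cancel₀ (mul_ne_zero h0 h0') (by
      linear_combination -hxy)
    have h7 : ψ' * ζ = ψ' * a' * x + ψ' * (ζ - a' * x) := by ring
    rw [h7]
    exact Submodule.add_mem_sup (Ideal.mul_mem_right _ _ (Ideal.mem_span_singleton_self _))
      (Ideal.mul_mem_mul (Ideal.mem_span_singleton_self _) (h5 _ (h6 ▸ hδ)))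

theorem lam_congr (hJ : Inv I T J) (hJ' : Inv I T J') (h : ∀ p : LP I T, J.map p.φ = J'.map p.φ)
    (D : Curve I) : lam J D = lam J' D := by
  obtain ⟨n, ⟨h1, h2⟩, h3, h4⟩ := (((hJ.chi D).and (hJ'.chi D)).and
    ((hf_ev_eq hJ.hom hJ'.hom hJ.le hJ'.le h).and (hf_ev_eq
      ((hJ.hom.mul D.1.2.2.1).sup Surf.hom) ((hJ'.hom.mul D.1.2.2.1).sup Surf.hom) le_sup_right
        le_sup_right fun p => by
          rw [p.map_sup_I, p.map_sup_I, Ideal.map_mul, Ideal.map_mul, h p]))).exists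
  rw [← h1, ← h2, chiJ, chiJ, h3, h4]

theorem lam_form {g : MvPolynomial σ k} (hg : g.IsHomogeneous e) (h : ∀ p : LP I T, p.φ g ≠ 0)
    (D : Curve I) : lam (Ideal.span {g} ⊔ I) D = e * deg D := by
  have h1 : Gen (Ideal.span {g} ⊔ I) D g e 1 0 := ⟨Ideal.mem_sup_left
    (Ideal.mem_span_singleton_self g), hg, isHomogeneous_one σ k,
    (Ideal.ne_top_iff_one _).1 D.1.2.1.ne_top, fun z hz => by rwa [one_mul]⟩
  have h2 : Ideal.span {g} ⊔ ((Ideal.span {g} ⊔ I) * D.1.1 ⊔ I) = Ideal.span {g} ⊔ I :=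
    le_antisymm (h1.le_J le_sup_right) (sup_le_sup_left le_sup_right _)
  rw [lam, lim_eq (h1.chi (inv_form hg h) (c := 0) (by rw [h2]; simp)), sub_zero]

include T in
theorem lam_top (D : Curve I) : lam ⊤ D = 0 := by
  have := lam_form (T := T) (isHomogeneous_one σ k) (fun p => by simp) D
  rwa [Ideal.span_singleton_one, top_sup_eq, Nat.cast_zero, zero_mul] at this

end

variable [Finite σ]

include T in
theorem chi_ev (C D : Curve I) : ∀ᶠ n in atTop, chi C D n = inter C D := (inv_curve C).chi D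

include T in
theorem inter_ev {C D : Curve I} (h : C ≠ D) :
    ∀ᶠ n in atTop, hf (C.1.1 ⊔ D.1.1) n = inter C D := by
  have h1 := hf_ev_eq ((C.1.2.2.1.mul D.1.2.2.1).sup Surf.hom) (C.1.2.2.1.inf D.1.2.2.1)
    le_sup_right (le_inf C.1.2.2.2.1 D.1.2.2.2.1) fun p => by
      refine le_antisymm (Ideal.map_mono (sup_le Ideal.mul_le_inf
        (le_inf C.1.2.2.2.1 D.1.2.2.2.1))) ((Ideal.map_inf_le _).trans ?_)
      rw [p.map_sup_I, Ideal.map_mul]
      by_cases hC : C.1.1 ≤ p.M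
      · by_cases hD : D.1.1 ≤ p.M
        · obtain ⟨π, h1, h2⟩ := p.curve_gen C hC
          obtain ⟨π', h1', h2'⟩ := p.curve_gen D hD
          rw [h2, h2', Ideal.span_singleton_mul_span_singleton]
          rintro ζ ⟨h3, h4⟩
          obtain ⟨a, rfl⟩ := Ideal.mem_span_singleton.1 h3
          rcases h1'.dvd_or_dvd (Ideal.mem_span_singleton.1 h4) with h5 | h5
          · refine absurd (Curve.eq_of_le (p.le_of_map_le C.1.2.2.1 D.1 hD ?_)) h
            rwa [h2, h2', Ideal.span_singleton_le_span_singleton]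
          · exact Ideal.mem_span_singleton.2 (mul_dvd_mul_left π h5)
        · rw [p.map_eq_top hD, Ideal.mul_top]
          exact inf_le_left
      · rw [p.map_eq_top hC, Ideal.top_mul]
        exact inf_le_right
  filter_upwards [h1, chi_ev C D] with n h1 h2
  have := hf_sup_inf C.1.2.2.1 D.1.2.2.1 n
  rw [← h2, chi, h1]
  omega

include T in
theorem inter_nonneg {C D : Curve I} (h : C ≠ D) : 0 ≤ inter C D := by
  obtain ⟨n, hn⟩ := (inter_ev h).exists
  exact hn ▸ hf_nonneg n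

include T in
theorem inter_pos {C D : Curve I} (h : C ≠ D) (P : Pt I) (h1 : C.1 ≤ P) (h2 : D.1 ≤ P) :
    0 < inter C D := by
  obtain ⟨n, hn⟩ := (inter_ev h).exists
  exact hn ▸ hf_pos_of_le P (sup_le h1 h2) n

include T in
theorem inter_eq_zero {C D : Curve I} (h : ∀ P : Pt I, C.1 ≤ P → ¬ D.1 ≤ P) : inter C D = 0 := by
  have h0 : C ≠ D := fun h1 => h C.1 le_rfl (h1 ▸ le_rfl)
  obtain ⟨n, h1, h2⟩ := ((inter_ev h0).and (hf_ev_zero (C.1.2.2.1.sup D.1.2.2.1)
    (C.1.2.2.2.1.trans le_sup_left) fun P hP =>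
      h P (le_sup_left.trans hP) (le_sup_right.trans hP))).exists
  rw [← h1, h2]

end Pool.Agent.Lib.MP_557161_ag.G2
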