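import Mathlib
import Pool.Agent.Lib.MP_557161_ag.G2.Lam

/-!
The divisor of a form.
-/

namespace Pool.Agent.Lib.MP_557161_ag.G2

open MvPolynomial Filter IsLocalRing

variable {k : Type} [Field k] {σ : Type} {I : Ideal (MvPolynomial σ k)} {T : Set σ}

/-- The ideal of an effective divisor. -/
noncomputable def dv (m : Multiset (Curve I)) : Ideal (MvPolynomial σ k) :=
  (m.map fun C => C.1.1).prod ⊔ I

/-- `m` is the divisor of `g`. -/
def IsDiv (T : Set σ) (g : MvPolynomial σ k) (m : Multiset (Curve I)) : Prop :=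
  ∀ p : LP I T, (dv m).map p.φ = Ideal.span {p.φ g}

/-- `g` vanishes to order at least `j` along `C`. -/
def Ord (C : Curve I) (g : MvPolynomial σ k) (j : ℕ) : Prop :=
  ∃ r, r ∉ C.1.1 ∧ r * g ∈ C.1.1 ^ j ⊔ I

theorem dv_zero : dv (0 : Multiset (Curve I)) = ⊤ := by simp [dv]

theorem map_dv_cons (p : LP I T) (C : Curve I) (m : Multiset (Curve I)) :
    (dv (C ::ₘ m)).map p.φ = C.1.1.map p.φ * (dv m).map p.φ := by
  rw [dv, dv, p.map_sup_I, p.map_sup_I, Multiset.map_cons, Multiset.prod_cons, Ideal.map_mul]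

variable [Surf I T]

theorem inv_dv (m : Multiset (Curve I)) : Inv I T (dv m) := by
  induction m using Multiset.induction_on with
  | empty => rw [dv_zero]; exact inv_top
  | cons C m ih =>
    have h : dv (C ::ₘ m) = C.1.1 * dv m ⊔ I := by
      rw [dv, dv, Multiset.map_cons, Multiset.prod_cons, Ideal.mul_sup, sup_assoc,
        sup_eq_right.2 (Ideal.mul_le_right (I := C.1.1) (J := I))]
    rw [h]
    exact (inv_curve C).mul ih

theorem ord_iff (p : LP I T) {C : Curve I} (hC : C.1.1 ≤ p.M) {π : p.O} (hπ : Prime π)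
    (h : C.1.1.map p.φ = Ideal.span {π}) {g : MvPolynomial σ k} {e : ℕ} (hg : g.IsHomogeneous e)
    (j : ℕ) : Ord C g j ↔ π ^ j ∣ p.φ g := by
  have h1 : Homog (C.1.1 ^ j ⊔ I) := (C.1.2.2.1.pow j).sup Surf.hom
  have h2 : (C.1.1 ^ j ⊔ I).map p.φ = Ideal.span {π ^ j} := by
    rw [p.map_sup_I, Ideal.map_pow, h, Ideal.span_singleton_pow]
  constructor
  · rintro ⟨r, h3, h4⟩
    obtain ⟨r, n, h5, h6, h7⟩ := h1.exists_notMem hg h3 h4
    have h8 := Ideal.mem_map_of_mem p.φ h7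
    rw [h2, Ideal.mem_span_singleton, map_mul] at h8
    refine hπ.pow_dvd_of_dvd_mul_left j (fun h9 => h6 ?_) h8
    rwa [← p.mem_map_prime C.1 hC h5, h, Ideal.mem_span_singleton]
  · intro h3
    obtain ⟨r, n, -, h5, h6⟩ := p.exists_hom_mul_mem h1 le_sup_right hg
      (by rwa [h2, Ideal.mem_span_singleton])
    exact ⟨r, fun h7 => h5 (hC h7), h6⟩

theorem emult_dv [DecidableEq (Curve I)] (p : LP I T) {C : Curve I} (hC : C.1.1 ≤ p.M) {π : p.O}
    (hπ : Prime π) (h : C.1.1.map p.φ = Ideal.span {π}) (m : Multiset (Curve I)) :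
    ∀ ψ, (dv m).map p.φ = Ideal.span {ψ} → emultiplicity π ψ = m.count C := by
  induction m using Multiset.induction_on with
  | empty =>
    intro ψ hψ
    rw [dv_zero, Ideal.map_top, eq_comm, Ideal.span_singleton_eq_top] at hψ
    rw [Multiset.count_zero, Nat.cast_zero, emultiplicity_eq_zero]
    exact fun h1 => hπ.not_isUnit (isUnit_of_dvd_unit h1 hψ)
  | cons D m ih =>
    intro ψ hψ
    obtain ⟨a, -, ha⟩ := (inv_curve (T := T) D).loc p
    obtain ⟨b, -, hb⟩ := (inv_dv (T := T) m).loc p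
    rw [map_dv_cons, ha, hb, Ideal.span_singleton_mul_span_singleton,
      Ideal.span_singleton_eq_span_singleton] at hψ
    rw [← emultiplicity_eq_of_associated_right hψ, emultiplicity_mul hπ, ih b hb,
      Multiset.count_cons, add_comm, Nat.cast_add]
    congr 1
    split_ifs with h1
    · subst h1
      rw [h, Ideal.span_singleton_eq_span_singleton] at ha
      rw [← emultiplicity_eq_of_associated_right ha, Nat.cast_one]
      exact (FiniteMultiplicity.of_prime_left hπ hπ.ne_zero).emultiplicity_self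
    · rw [Nat.cast_zero, emultiplicity_eq_zero]
      refine fun h2 => h1 (Curve.eq_of_le (p.le_of_map_le D.1.2.2.1 C.1 hC ?_)).symm
      rwa [ha, h, Ideal.span_singleton_le_span_singleton]

theorem IsDiv.dvd_iff [DecidableEq (Curve I)] {g : MvPolynomial σ k} {m : Multiset (Curve I)}
    (hm : IsDiv T g m) (p : LP I T) {C : Curve I} (hC : C.1.1 ≤ p.M) {π : p.O}
    (hπ : Prime π) (h : C.1.1.map p.φ = Ideal.span {π}) (j : ℕ) :
    π ^ j ∣ p.φ g ↔ j ≤ m.count C := by
  rw [pow_dvd_iff_le_emultiplicity, emult_dv p hC hπ h m _ (hm p), Nat.cast_le]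

theorem IsDiv.ord_iff [DecidableEq (Curve I)] {g : MvPolynomial σ k} {e : ℕ}
    (hg : g.IsHomogeneous e) {m : Multiset (Curve I)} (hm : IsDiv T g m) (C : Curve I) (j : ℕ) :
    Ord C g j ↔ j ≤ m.count C := by
  obtain ⟨p, hp⟩ := Pt.exists_LP C.1
  obtain ⟨π, h1, h2⟩ := p.curve_gen C hp
  rw [G2.ord_iff p hp h1 h2 hg, hm.dvd_iff p hp h1 h2]

theorem IsDiv.mem_iff {g : MvPolynomial σ k} {e : ℕ}
    (hg : g.IsHomogeneous e) {m : Multiset (Curve I)} (hm : IsDiv T g m) (C : Curve I) :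
    C ∈ m ↔ g ∈ C.1.1 := by
  classical
  rw [← Multiset.one_le_count_iff_mem, ← hm.ord_iff hg, Ord, pow_one, sup_eq_left.2 C.1.2.2.2.1]
  exact ⟨fun ⟨r, h1, h2⟩ => (C.1.2.1.mem_or_mem h2).resolve_left h1, fun h =>
    ⟨1, (Ideal.ne_top_iff_one _).1 C.1.2.1.ne_top, by rwa [one_mul]⟩⟩

variable [Finite σ]

include T in
theorem lam_dv (m : Multiset (Curve I)) (D : Curve I) :
    lam (dv m) D = (m.map fun C => inter C D).sum := by
  induction m using Multiset.induction_on with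
  | empty => rw [dv_zero, lam_top]; simp
  | cons C m ih =>
    rw [lam_congr (inv_dv _) ((inv_curve C).mul (inv_dv m)) fun p => by
      rw [map_dv_cons, p.map_sup_I, Ideal.map_mul], lam_mul (inv_curve C) (inv_dv m), ih,
      Multiset.map_cons, Multiset.sum_cons, inter_eq_lam]

theorem Inv.colon {J : Ideal (MvPolynomial σ k)} (hJ : Inv I T J) (C : Curve I) (p : LP I T)
    {π ψ : p.O} (h0 : π ≠ 0) (h1 : C.1.1.map p.φ = Ideal.span {π})
    (h2 : J.map p.φ = Ideal.span {π * ψ}) : (J.colon C.1.1).map p.φ = Ideal.span {ψ} := by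
  classical
  refine le_antisymm (Ideal.map_le_iff_le_comap.2 fun z hz => ?_) (p.le_of_hom fun z n hz h => ?_)
  · have h3 : Ideal.span {p.φ z} * C.1.1.map p.φ ≤ J.map p.φ := by
      rw [← p.map_one, ← Ideal.map_mul]
      refine Ideal.map_mono fun w hw => ?_
      obtain ⟨c, hc, rfl⟩ := Ideal.mem_span_singleton_mul.1 hw
      exact Submodule.mem_colon.1 hz c hc
    rwa [h1, h2, Ideal.span_singleton_mul_span_singleton, Ideal.span_singleton_le_span_singleton,
      mul_comm _ π, mul_dvd_mul_iff_left h0, ← Ideal.mem_span_singleton] at h3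
  · obtain ⟨s, hs1, hs2⟩ := C.1.2.2.1.exists_gens
    have h4 : ∀ g ∈ s, ∃ r, r ∉ p.M ∧ r * (z * g) ∈ J := fun g hg => by
      obtain ⟨h5, m, h6⟩ := hs1 g hg
      obtain ⟨r, -, -, h7, h8⟩ := p.exists_hom_mul_mem hJ.hom hJ.le (hz.mul h6) (by
        rw [h2, map_mul, mul_comm π, ← Ideal.span_singleton_mul_span_singleton]
        exact Ideal.mul_mem_mul h (h1 ▸ Ideal.mem_map_of_mem _ h5))
      exact ⟨r, h7, h8⟩
    choose! r hr1 hr2 using h4
    have h5 : (∏ g ∈ s, r g) * z ∈ J.colon C.1.1 := by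
      rw [← hs2, Ideal.colon_span, Submodule.mem_colon]
      intro g hg
      rw [smul_eq_mul, ← Finset.prod_erase_mul s r hg, mul_assoc, mul_assoc]
      exact J.mul_mem_left _ (hr2 g hg)
    have h6 := Ideal.mem_map_of_mem p.φ h5
    rwa [map_mul, Ideal.unit_mul_mem_iff_mem _ (p.isUnit_φ.2 fun h7 => by
      obtain ⟨g, hg, h8⟩ := (Ideal.IsPrime.prod_mem_iff (hp := p.M_max.isPrime)).1 h7
      exact hr1 g hg h8)] at h6

theorem Inv.exists_dv {J : Ideal (MvPolynomial σ k)} (hJ : Inv I T J) :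
    ∃ m : Multiset (Curve I), ∀ p : LP I T, (dv m).map p.φ = J.map p.φ := by
  induction J using (wellFounded_gt (α := Ideal (MvPolynomial σ k))).induction with
  | _ J ih =>
  by_cases h : ∀ p : LP I T, J.map p.φ = ⊤
  · exact ⟨0, fun p => by rw [dv_zero, Ideal.map_top, h p]⟩
  push Not at h
  obtain ⟨p, hp⟩ := h
  obtain ⟨ψ, h0, h1⟩ := hJ.loc p
  obtain ⟨π, hπ, ψ', rfl⟩ := (Surf.good p).exists_prime_dvd h0 fun h2 =>
    hp (by rwa [h1, Ideal.span_singleton_eq_top])
  have h2 := (Ideal.span_singleton_prime hπ.ne_zero).2 hπ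
  let C : Curve I := ⟨p.pull Surf.hom _ h2, (p.height_iff _ (p.pull_le _ _ _)).2 (by
    rw [p.map_pull]
    exact ⟨fun h => hπ.ne_zero (Ideal.span_singleton_eq_bot.1 h), (Surf.good p).span_ne π⟩)⟩
  have h3 : C.1.1.map p.φ = Ideal.span {π} := p.map_pull Surf.hom _ h2
  have h4 : J ≤ C.1.1 := p.le_of_map_le hJ.hom C.1 (p.pull_le Surf.hom _ h2) (by
    rw [h1, h3, Ideal.span_singleton_le_span_singleton]; exact dvd_mul_right _ _)
  have h5 : ∀ p' : LP I T, ∃ a b, a ≠ 0 ∧ b ≠ 0 ∧ C.1.1.map p'.φ = Ideal.span {a} ∧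
      J.map p'.φ = Ideal.span {a * b} := fun p' => by
    obtain ⟨a, ha0, ha⟩ := (inv_curve (T := T) C).loc p'
    obtain ⟨c, hc0, hc⟩ := hJ.loc p'
    have h6 := Ideal.map_mono (f := p'.φ) h4
    rw [ha, hc, Ideal.span_singleton_le_span_singleton] at h6
    obtain ⟨b, rfl⟩ := h6
    exact ⟨a, b, ha0, right_ne_zero_of_mul hc0, ha, hc⟩
  obtain ⟨m, hm⟩ := ih (J.colon C.1.1) (lt_of_le_of_ne Ideal.le_colon fun h6 => by
      have h7 := hJ.colon C p hπ.ne_zero h3 h1
      rw [← h6, h1, Ideal.span_singleton_eq_span_singleton] at h7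
      have h8 := h7.dvd
      nth_rewrite 2 [← one_mul ψ'] at h8
      rw [mul_dvd_mul_iff_right (right_ne_zero_of_mul h0)] at h8
      exact hπ.not_isUnit (isUnit_of_dvd_one h8))
    ⟨hJ.hom.colon C.1.2.2.1, hJ.le.trans Ideal.le_colon, fun p' => by
      obtain ⟨a, b, h6, h7, h8, h9⟩ := h5 p'
      exact ⟨b, h7, hJ.colon C p' h6 h8 h9⟩⟩
  refine ⟨C ::ₘ m, fun p' => ?_⟩
  obtain ⟨a, b, h6, h7, h8, h9⟩ := h5 p'
  rw [map_dv_cons, hm, hJ.colon C p' h6 h8 h9, h8, h9, Ideal.span_singleton_mul_span_singleton]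

theorem exists_isDiv {g : MvPolynomial σ k} {e : ℕ} (hg : g.IsHomogeneous e)
    (h : ∀ p : LP I T, p.φ g ≠ 0) :
    ∃ m : Multiset (Curve I), IsDiv T g m ∧ ∀ D, (m.map fun C => inter C D).sum = e * deg D := by
  obtain ⟨m, hm⟩ := (inv_form hg h).exists_dv
  refine ⟨m, fun p => by rw [hm, p.map_sup_I, p.map_one], fun D => ?_⟩
  rw [← lam_dv, lam_congr (inv_dv m) (inv_form hg h) hm, lam_form hg h]

omit [Finite σ] in
theorem φ_ne_zero {g : MvPolynomial σ k} {e : ℕ} (hg : g.IsHomogeneous e)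
    (h : ∀ P : Pt I, IsMin P → g ∉ P.1) (p : LP I T) : p.φ g ≠ 0 := fun h1 =>
  h (p.pull Surf.hom ⊥ Ideal.isPrime_bot)
    ((p.isMin_iff _ (p.pull_le _ _ _)).2 (p.map_pull _ _ _)) ((mem_core hg).2 h1)

omit [Finite σ] in
include T in
theorem height_max (P : Pt I) (h : IsMax P) : Order.height P = 2 := by
  obtain ⟨p, hp⟩ := Pt.exists_LP P
  have hm := (maximalIdeal.isMaximal p.O).isPrime
  have h1 : P.1.map p.φ = maximalIdeal p.O := by
    have h2 : P ≤ p.pull Surf.hom _ hm := p.le_of_map_le P.2.2.1 _ (p.pull_le _ _ _) (by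
      rw [p.map_pull]; exact le_maximalIdeal (p.map_prime P hp).ne_top)
    rw [le_antisymm h2 (h h2), p.map_pull]
  refine le_antisymm ((Order.height_le_coe_iff (n := 2)).2 fun y hy => ?_) ?_
  · have h2 : y.1 ≤ p.M := le_trans hy.le hp
    by_cases h3 : y.1.map p.φ = ⊥
    · rw [Order.height_eq_zero.2 ((p.isMin_iff y h2).2 h3)]
      decide
    · rw [(p.height_iff y h2).2 ⟨h3, h1 ▸ (p.map_lt hp hy).ne⟩]
      decide
  · obtain ⟨π, hπ⟩ := (Surf.good p).exists_prime
    have h4 := (Ideal.span_singleton_prime hπ.ne_zero).2 hπ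
    have h5 : p.pull Surf.hom _ h4 ≤ P := p.le_of_map_le (homog_core _) P hp
      ((p.map_pull Surf.hom _ h4).le.trans (h1 ▸ le_maximalIdeal h4.ne_top))
    have h6 := Order.height_add_one_le (lt_of_le_of_ne h5 fun h => (Surf.good p).span_ne π (by
      rw [← h1, ← h, p.map_pull]))
    rwa [(p.height_iff _ (p.pull_le _ _ _)).2 (by
      rw [p.map_pull]
      exact ⟨fun h => hπ.ne_zero (Ideal.span_singleton_eq_bot.1 h), (Surf.good p).span_ne π⟩)] at h6

end Pool.Agent.Lib.MP_557161_ag.G2
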