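import Mathlib
import Pool.Agent.Lib.MP_557161_ag.G2.Fact

/-!
Graded automorphisms act on points and curves and preserve intersection numbers.
-/

namespace Pool.Agent.Lib.MP_557161_ag.G2

open MvPolynomial Filter

variable {k : Type} [Field k] {σ : Type}

/-- Graded automorphisms of the polynomial ring that preserve `I`. -/
def Aut (I : Ideal (MvPolynomial σ k)) : Subgroup (MvPolynomial σ k ≃ₐ[k] MvPolynomial σ k) where
  carrier := {γ | (∀ g n, (γ g).IsHomogeneous n ↔ g.IsHomogeneous n) ∧ ∀ f, γ f ∈ I ↔ f ∈ I}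
  mul_mem' := fun {a b} ha hb => ⟨fun g n => (ha.1 _ n).trans (hb.1 g n),
    fun f => (ha.2 _).trans (hb.2 f)⟩
  one_mem' := ⟨fun _ _ => Iff.rfl, fun _ => Iff.rfl⟩
  inv_mem' := fun {a} ha => ⟨fun g n => by
      rw [← ha.1, ← AlgEquiv.mul_apply, mul_inv_cancel, AlgEquiv.one_apply],
    fun f => by rw [← ha.2, ← AlgEquiv.mul_apply, mul_inv_cancel, AlgEquiv.one_apply]⟩

variable {I : Ideal (MvPolynomial σ k)}

theorem aut_hom (γ : Aut I) {g : MvPolynomial σ k} {n : ℕ} (hg : g.IsHomogeneous n) :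
    (γ.1 g).IsHomogeneous n := (γ.2.1 g n).2 hg

theorem aut_hc (γ : Aut I) (f : MvPolynomial σ k) (n : ℕ) :
    γ.1 (homogeneousComponent n f) = homogeneousComponent n (γ.1 f) := by
  classical
  conv_rhs => rw [← sum_homogeneousComponent f, map_sum, map_sum]
  rw [Finset.sum_eq_single n]
  · rw [homogeneousComponent_eq_self (aut_hom γ (homogeneousComponent_isHomogeneous n f))]
  · intro m _ hm
    rw [homogeneousComponent_of_mem (aut_hom γ (homogeneousComponent_isHomogeneous m f)),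
      if_neg hm.symm]
  · intro hn
    rw [homogeneousComponent_eq_zero n f (by simpa using hn), map_zero, map_zero]

theorem aut_inv (γ : Aut I) (f : MvPolynomial σ k) : (γ⁻¹).1 (γ.1 f) = f :=
  γ.1.symm_apply_apply f

theorem aut_inv' (γ : Aut I) (f : MvPolynomial σ k) : γ.1 ((γ⁻¹).1 f) = f :=
  γ.1.apply_symm_apply f

/-- The image of an ideal. -/
noncomputable def im (γ : Aut I) (J : Ideal (MvPolynomial σ k)) : Ideal (MvPolynomial σ k) :=
  J.comap (γ⁻¹).1

theorem mem_im (γ : Aut I) {J : Ideal (MvPolynomial σ k)} {f : MvPolynomial σ k} :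
    f ∈ im γ J ↔ (γ⁻¹).1 f ∈ J := Iff.rfl

theorem mem_im' (γ : Aut I) {J : Ideal (MvPolynomial σ k)} {f : MvPolynomial σ k} :
    γ.1 f ∈ im γ J ↔ f ∈ J := by rw [mem_im, aut_inv]

theorem im_eq (γ : Aut I) (J : Ideal (MvPolynomial σ k)) : im γ J = J.map γ.1 := by
  refine le_antisymm (fun f hf => ?_) (Ideal.map_le_iff_le_comap.2 fun f hf => (mem_im' γ).2 hf)
  rw [← aut_inv' γ f]
  exact Ideal.mem_map_of_mem _ hf

theorem im_I (γ : Aut I) : im γ I = I := Ideal.ext fun f => (γ⁻¹).2.2 f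

theorem Homog.im (γ : Aut I) {J : Ideal (MvPolynomial σ k)} (h : Homog J) : Homog (im γ J) :=
  fun f hf n => by
    rw [mem_im, aut_hc]
    exact h _ hf n

theorem X_mem_of_aut {J : Ideal (MvPolynomial σ k)} (γ : Aut I)
    (h : ∀ i, γ.1 (X i) ∈ J) (j : σ) : X j ∈ J := by
  have h1 : ∀ f, γ.1 f - C (constantCoeff f) ∈ J := fun f => by
    induction f using MvPolynomial.induction_on with
    | C c => rw [constantCoeff_C, ← algebraMap_eq, AlgEquiv.commutes, sub_self]; exact zero_mem _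
    | add f g hf hg =>
      rw [map_add, map_add, map_add, add_sub_add_comm]
      exact add_mem hf hg
    | mul_X f i _ =>
      rw [map_mul, map_mul, constantCoeff_X, mul_zero, map_zero, sub_zero]
      exact J.mul_mem_left _ (h i)
  have h2 := h1 ((γ⁻¹).1 (X j))
  rwa [aut_inv', constantCoeff_eq, (aut_hom γ⁻¹ (isHomogeneous_X k j)).coeff_eq_zero (by simp),
    map_zero, sub_zero] at h2

noncomputable instance : MulAction (Aut I) (Pt I) where
  smul γ P := ⟨im γ P.1, Ideal.comap_isPrime _ _ (H := P.2.1), P.2.2.1.im γ,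
    fun f hf => P.2.2.2.1 (((γ⁻¹).2.2 f).2 hf), by
      by_contra h
      push Not at h
      obtain ⟨j, hj⟩ := P.2.2.2.2
      exact hj (X_mem_of_aut γ⁻¹ h j)⟩
  one_smul P := rfl
  mul_smul _ _ P := rfl

theorem smul_val (γ : Aut I) (P : Pt I) : (γ • P).1 = im γ P.1 := rfl

theorem smul_le_iff (γ : Aut I) {P P' : Pt I} : γ • P ≤ γ • P' ↔ P ≤ P' :=
  ⟨fun h _ hf => (mem_im' γ).1 (h ((mem_im' γ).2 hf)), fun h _ hf => h hf⟩

theorem height_smul (γ : Aut I) (P : Pt I) : Order.height (γ • P) = Order.height P :=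
  Order.height_orderIso ⟨MulAction.toPerm γ, smul_le_iff γ⟩ P

noncomputable instance : MulAction (Aut I) (Curve I) where
  smul γ C := ⟨γ • C.1, (height_smul γ C.1).trans C.2⟩
  one_smul _ := rfl
  mul_smul _ _ _ := rfl

theorem smul_val' (γ : Aut I) (C : Curve I) : (γ • C).1 = γ • C.1 := rfl

theorem hf_im [Finite σ] (γ : Aut I) (J : Ideal (MvPolynomial σ k)) (n : ℕ) :
    hf (im γ J) n = hf J n := by
  have h : part (im γ J) n = (part J n).map γ.1.toLinearEquiv.toLinearMap := by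
    ext f
    rw [Submodule.mem_map_equiv, mem_part, mem_part]
    exact and_congr_left fun _ => ((γ⁻¹).2.1 f n).symm
  rw [hf_eq, hf_eq, h, LinearEquiv.finrank_map_eq]

theorem inter_smul [Finite σ] (γ : Aut I) (C D : Curve I) : inter (γ • C) (γ • D) = inter C D := by
  have : chi (γ • C) (γ • D) = chi C D := by
    funext n
    have h : (γ • C).1.1 * (γ • D).1.1 ⊔ I = im γ (C.1.1 * D.1.1 ⊔ I) := by
      rw [im_eq, Ideal.map_sup, Ideal.map_mul, ← im_eq, ← im_eq, ← im_eq, im_I]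
      rfl
    rw [chi, chi, h, hf_im, smul_val', smul_val', smul_val, smul_val, hf_im, hf_im]
  rw [inter, inter, this]

theorem Ord.smul (γ : Aut I) {C : Curve I} {g : MvPolynomial σ k} {j : ℕ} (h : Ord C g j) :
    Ord (γ • C) (γ.1 g) j := by
  obtain ⟨r, h1, h2⟩ := h
  refine ⟨γ.1 r, fun h3 => h1 ((mem_im' γ).1 h3), ?_⟩
  have h3 := (mem_im' γ).2 h2
  rwa [im_eq, Ideal.map_sup, Ideal.map_pow, ← im_eq, ← im_eq, im_I, map_mul] at h3

theorem IsDiv.count_smul {T : Set σ} [Surf I T] [DecidableEq (Curve I)] {g : MvPolynomial σ k}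
    {e : ℕ} (hg : g.IsHomogeneous e) {m : Multiset (Curve I)} (hm : IsDiv T g m) (γ : Aut I)
    (hγ : γ.1 g = g) (C : Curve I) : m.count (γ • C) = m.count C := by
  refine le_antisymm ?_ ?_
  · have h := ((hm.ord_iff hg (γ • C) _).2 le_rfl).smul γ⁻¹
    rw [inv_smul_smul, ← hγ, aut_inv] at h
    exact (hm.ord_iff hg C _).1 h
  · have h := ((hm.ord_iff hg C _).2 le_rfl).smul γ
    rw [hγ] at h
    exact (hm.ord_iff hg _ _).1 h

/-- An automorphism given by mutually inverse linear substitutions. -/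
noncomputable def mkAut (s t : σ → MvPolynomial σ k) (hs : ∀ j, (s j).IsHomogeneous 1)
    (ht : ∀ j, (t j).IsHomogeneous 1) (h1 : ∀ j, aeval s (t j) = X j) (h2 : ∀ j, aeval t (s j) = X j)
    (h3 : ∀ f ∈ I, aeval s f ∈ I) (h4 : ∀ f ∈ I, aeval t f ∈ I) : Aut I :=
  ⟨AlgEquiv.ofAlgHom (aeval s) (aeval t) (MvPolynomial.algHom_ext fun j => by simpa using h1 j)
    (MvPolynomial.algHom_ext fun j => by simpa using h2 j), by
    have h5 : ∀ f, aeval t (aeval s f) = f := fun f => DFunLike.congr_fun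
      (show (aeval t).comp (aeval s) = AlgHom.id k _ from
        MvPolynomial.algHom_ext fun j => by simpa using h2 j) f
    refine ⟨fun g n => ⟨fun h => ?_, fun h => ?_⟩, fun f => ⟨fun h => h5 f ▸ h4 _ h, h3 f⟩⟩
    · have : (aeval t (aeval s g)).IsHomogeneous (1 * n) := h.aeval t ht
      rwa [one_mul, h5] at this
    · simpa using h.aeval s hs⟩

theorem mkAut_X (s t : σ → MvPolynomial σ k) (hs ht h1 h2 h3 h4) (j : σ) :
    (mkAut (I := I) s t hs ht h1 h2 h3 h4).1 (X j) = s j := aeval_X s j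

theorem aut_ext {γ γ' : Aut I} (h : ∀ j, γ.1 (X j) = γ'.1 (X j)) : γ = γ' :=
  Subtype.ext (AlgEquiv.ext fun f => DFunLike.congr_fun
    (show γ.1.toAlgHom = γ'.1.toAlgHom from MvPolynomial.algHom_ext h) f)

end Pool.Agent.Lib.MP_557161_ag.G2
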