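import Mathlib
import Pool.Agent.Lib.MP_557161_ag.G2.Eqs
import Pool.Agent.Lib.MP_557161_ag.G2.LocAlg

/-!
The affine charts of the surface are towers of Artin-Schreier covers of the plane.
-/

namespace Pool.Agent.Lib.MP_557161_ag.G2

open IsLocalRing

/-- Raising to the power `q` is additive on all `k`-algebras. -/
class FQ (k : Type) [Field k] (q : ℕ) : Prop where
  fr : ∀ (R : Type) [CommRing R] [Algebra k R], Fr q R

/-- `y` is a non zero divisor modulo `x`. -/
def Reg {R : Type} [CommRing R] (x y : R) : Prop := ∀ a, x ∣ y * a → x ∣ a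

theorem Reg.free {R R' : Type} [CommRing R] [CommRing R'] [Algebra R R'] [Module.Free R R']
    [Module.Finite R R'] {x y : R} (h : Reg x y) :
    Reg (algebraMap R R' x) (algebraMap R R' y) := by
  rintro a ⟨c, hc⟩
  let b := Module.Free.chooseBasis R R'
  have h1 : ∀ i, x ∣ b.repr a i := fun i => h _ ⟨b.repr c i, by
    rw [← Algebra.smul_def, ← Algebra.smul_def] at hc
    simpa using congrArg (fun z => b.repr z i) hc⟩
  rw [← b.sum_repr a]
  refine Finset.dvd_sum fun i _ => ?_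
  rw [Algebra.smul_def]
  exact (map_dvd _ (h1 i)).mul_right _

theorem Reg.loc {R O : Type} [CommRing R] [CommRing O] [Algebra R O] (M : Submonoid R)
    [IsLocalization M O] {x y : R} (h : Reg x y) : Reg (algebraMap R O x) (algebraMap R O y) := by
  have h1 : ∀ z, algebraMap R O x ∣ algebraMap R O z ↔ ∃ m ∈ M, x ∣ m * z := fun z => by
    rw [← Ideal.mem_span_singleton, ← Set.image_singleton, ← Ideal.map_span,
      IsLocalization.algebraMap_mem_map_algebraMap_iff M]
    simp only [Ideal.mem_span_singleton]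
  intro a ha
  obtain ⟨⟨b, s⟩, hb⟩ := IsLocalization.surj M a
  rw [← (IsLocalization.map_units O s).dvd_mul_right, hb, h1]
  have h2 := ha.mul_right (algebraMap R O s)
  rw [mul_assoc, hb, ← map_mul, h1] at h2
  obtain ⟨m, hm, h3⟩ := h2
  exact ⟨m, hm, h _ (by rwa [mul_left_comm])⟩

variable {k : Type} [Field k] {q : ℕ}

open Polynomial in
theorem exists_ext (hq : 2 ≤ q) (R : Type) [CommRing R] [Algebra k R] (c : R) :
    ∃ (R' : Type) (_ : CommRing R') (_ : Algebra k R') (ι : R →ₐ[k] R') (ρ : R'),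
      ρ ^ q = ρ + ι c ∧ (∀ x y, Reg x y → Reg (ι x) (ι y)) ∧ ι.toRingHom.IsIntegral ∧
      ∀ (B : Type) [CommRing B] [Algebra k B] (f : R →ₐ[k] B) (b : B), b ^ q = b + f c →
        ∃ g : R' →ₐ[k] B, (∀ x, g (ι x) = f x) ∧ g ρ = b := by
  have hm : (X ^ q - (X + C c) : R[X]).Monic := by
    nontriviality R
    refine monic_X_pow_sub ((degree_X_add_C c).trans_lt ?_)
    exact_mod_cast hq
  have := hm.free_adjoinRoot
  have := hm.finite_adjoinRoot
  refine ⟨AdjoinRoot (X ^ q - (X + C c)), inferInstance, inferInstance, AdjoinRoot.ofAlgHom k _,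
    AdjoinRoot.root _, ?_, fun x y h => h.free, ?_, fun B _ _ f b hb => ?_⟩
  · have := AdjoinRoot.eval₂_root (X ^ q - (X + C c) : R[X])
    rw [eval₂_sub, eval₂_add, eval₂_X_pow, eval₂_X, eval₂_C, sub_eq_zero] at this
    exact this
  · exact Algebra.IsIntegral.isIntegral (R := R)
  · refine ⟨AdjoinRoot.liftAlgHom _ f b ?_, fun x => AdjoinRoot.liftAlgHom_of _ _ _ _ _,
      AdjoinRoot.liftAlgHom_root _ _ _ _⟩
    rw [eval₂_sub, eval₂_add, eval₂_X_pow, eval₂_X, eval₂_C, sub_eq_zero]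
    exact hb

open MvPolynomial

/-- `B` represents the points of the surface with coordinate number `i` equal to one. -/
structure IsChart (k : Type) [Field k] (q : ℕ) {B : Type} [CommRing B] [Algebra k B]
    (v : Fin 7 → B) (i : Fin 7) : Prop where
  ev : EV q v
  one : v i = 1
  gen : ∀ A : Subalgebra k B, (∀ j, v j ∈ A) → A = ⊤
  lift : ∀ (B' : Type) [CommRing B'] [Algebra k B'] (v' : Fin 7 → B'), EV q v' → v' i = 1 →
    ∃ f : B →ₐ[k] B', ∀ j, f (v j) = v' j

theorem ev_iff {B : Type} [CommRing B] (f : MvPolynomial (Fin 7) k →+* B) :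
    EV q (fun j => f (X j)) ↔ ideal k q ≤ RingHom.ker f := by
  rw [← eqs_eq_zero, ideal, Ideal.span_le, Set.range_subset_iff, funext_iff]
  simp only [SetLike.mem_coe, RingHom.mem_ker, map_eqs, Pi.zero_apply]

theorem isChart (i : Fin 7) :
    IsChart k q (fun j => (Ideal.Quotient.mk _ (X j) : Chart (ideal k q) i)) i := by
  refine ⟨(ev_iff _).2 (by rw [Ideal.mk_ker]; exact le_sup_left), ?_, fun A hA => ?_,
    fun B' _ _ v' h1 h2 => ?_⟩
  · exact Ideal.Quotient.eq.2 (Ideal.mem_sup_right (Ideal.mem_span_singleton_self _))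
  · rw [eq_top_iff]
    rintro z -
    obtain ⟨z, rfl⟩ := Ideal.Quotient.mk_surjective z
    induction z using MvPolynomial.induction_on with
    | C c => exact A.algebraMap_mem c
    | add f g hf hg => rw [map_add]; exact add_mem hf hg
    | mul_X f j hf => rw [map_mul]; exact mul_mem hf (hA j)
  · have h3 : ideal k q ⊔ Ideal.span {X i - 1} ≤ RingHom.ker (aeval v' : _ →ₐ[k] B').toRingHom := by
      refine sup_le ((ev_iff _).1 (by simpa using h1)) ?_
      rw [Ideal.span_singleton_le_iff_mem, RingHom.mem_ker]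
      simp [h2]
    exact ⟨Ideal.Quotient.liftₐ _ (aeval v') h3, fun j => by simp⟩

/-- The cyclic symmetry. -/
def cycV {B : Type} (v : Fin 7 → B) : Fin 7 → B := ![v 0, v 2, v 3, v 1, v 5, v 6, v 4]

/-- The symmetry that exchanges `u` and `w`. -/
def tauV {B : Type} [CommRing B] (v : Fin 7 → B) : Fin 7 → B :=
  ![-v 0, v 6, v 5, v 4, v 3, v 2, v 1]

section

variable {B : Type} [CommRing B] [Algebra k B] {v : Fin 7 → B}

theorem IsChart.cyc {i i' : Fin 7} (h : IsChart k q v i')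
    (hi : ∀ (B' : Type) (v' : Fin 7 → B'), cycV v' i = v' i') : IsChart k q (cycV v) i := by
  refine ⟨h.ev.cyc, (hi _ v).trans h.one, fun A hA => h.gen A fun j => ?_, fun B' _ _ v' h1 h2 => ?_⟩
  · fin_cases j
    exacts [hA 0, hA 3, hA 1, hA 2, hA 6, hA 4, hA 5]
  · have h3 : cycV (cycV (cycV v')) = v' := by
      funext j; fin_cases j <;> rfl
    obtain ⟨f, hf⟩ := h.lift B' (cycV (cycV v')) h1.cyc.cyc
      ((hi _ (cycV (cycV v'))).symm.trans (by rw [h3, h2]))
    refine ⟨f, fun j => ?_⟩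
    fin_cases j
    exacts [hf 0, hf 2, hf 3, hf 1, hf 5, hf 6, hf 4]

theorem IsChart.tau [FQ k q] {i i' : Fin 7} (h : IsChart k q v i')
    (hi : ∀ (B' : Type) [CommRing B'] (v' : Fin 7 → B'), tauV v' i = v' i') :
    IsChart k q (tauV v) i := by
  refine ⟨h.ev.tau (FQ.fr (k := k) B), (hi _ v).trans h.one, fun A hA => h.gen A fun j => ?_,
    fun B' _ _ v' h1 h2 => ?_⟩
  · fin_cases j
    exacts [neg_mem_iff.1 (hA 0), hA 6, hA 5, hA 4, hA 3, hA 2, hA 1]
  · have h3 : tauV (tauV v') = v' := by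
      funext j; fin_cases j <;> simp [tauV]
    obtain ⟨f, hf⟩ := h.lift B' (tauV v') (h1.tau (FQ.fr (k := k) B'))
      ((hi _ (tauV v')).symm.trans (by rw [h3, h2]))
    refine ⟨f, fun j => ?_⟩
    fin_cases j
    exacts [(map_neg f _).trans ((congrArg Neg.neg (hf 0)).trans (neg_neg _)), hf 6, hf 5, hf 4,
      hf 3, hf 2, hf 1]

theorem IsChart.ext {i : Fin 7} (h : IsChart k q v i) {B' : Type} [CommRing B'] [Algebra k B']
    {f g : B →ₐ[k] B'} (H : ∀ j, f (v j) = g (v j)) : f = g :=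
  AlgHom.ext fun x => by
    have : x ∈ AlgHom.equalizer f g := by rw [h.gen (AlgHom.equalizer f g) H]; trivial
    exact this

theorem E.chart {a u1 u2 u3 w2 w3 : B} (h : E q a u1 u2 u3 1 w2 w3) :
    a ^ q = a + -(u2 * u3 ^ q - u3 * u2 ^ q) ∧ w2 ^ q = w2 + (a * u3 ^ q - u3 * a ^ q) ∧
      w3 ^ q = w3 + -(a * u2 ^ q - u2 * a ^ q) ∧ u1 = -(a ^ 2 + u2 * w2 + u3 * w3) := by
  have h1 := h.h1
  have h2 := h.g3
  have h3 := h.g2
  have h4 := h.q0
  rw [one_pow] at h1 h2 h3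
  exact ⟨by linear_combination -h1, by linear_combination -h2, by linear_combination h3,
    by linear_combination h4⟩

theorem IsChart.eqs (h : IsChart k q v 4) : E q (v 0) (v 1) (v 2) (v 3) 1 (v 5) (v 6) :=
  h.one ▸ h.ev

/-- The projection of the chart to the plane. -/
noncomputable def pr (k : Type) [Field k] [Algebra k B] (v : Fin 7 → B) :
    MvPolynomial (Fin 2) k →ₐ[k] B := aeval ![v 2, v 3]

variable [FQ k q]

theorem IsChart.plane (h : IsChart k q v 4) :
    (∀ x y, Reg x y → Reg (pr k v x) (pr k v y)) ∧ (pr k v).toRingHom.IsIntegral := by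
  have hq := (FQ.fr (k := k) (q := q) k).two
  obtain ⟨e1, e2, e3, e4⟩ := h.eqs.chart
  obtain ⟨A1, _, _, ι1, a, ha, r1, i1, l1⟩ := exists_ext (k := k) hq (MvPolynomial (Fin 2) k)
    (-(X 0 * X 1 ^ q - X 1 * X 0 ^ q))
  obtain ⟨A2, _, _, ι2, w2, hw2, r2, i2, l2⟩ := exists_ext (k := k) hq A1
    (a * ι1 (X 1) ^ q - ι1 (X 1) * a ^ q)
  obtain ⟨A3, _, _, ι3, w3, hw3, r3, i3, l3⟩ := exists_ext (k := k) hq A2
    (-(ι2 a * ι2 (ι1 (X 0)) ^ q - ι2 (ι1 (X 0)) * ι2 a ^ q))
  obtain ⟨g1, g1a, g1b⟩ := l1 B (pr k v) (v 0) (by simpa [pr] using e1)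
  obtain ⟨g2, g2a, g2b⟩ := l2 B g1 (v 5) (by simpa [g1a, g1b, pr] using e2)
  obtain ⟨g3, g3a, g3b⟩ := l3 B g2 (v 6) (by simpa [g1a, g1b, g2a, g2b, pr] using e3)
  have hE := E.of_chart (FQ.fr (k := k) A3) (a := ι3 (ι2 a)) (u2 := ι3 (ι2 (ι1 (X 0))))
    (u3 := ι3 (ι2 (ι1 (X 1)))) (w2 := ι3 w2) (w3 := w3)
    (by simpa [sub_eq_add_neg] using congrArg (fun z => ι3 (ι2 z)) ha)
    (by simpa using congrArg ι3 hw2) (by simpa [sub_eq_add_neg] using hw3)
  obtain ⟨f, hf⟩ := h.lift A3 ![_, _, _, _, _, _, _] hE rfl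
  have hgf : g3.comp f = AlgHom.id k B := h.ext fun j => by
    rw [AlgHom.comp_apply, hf]
    fin_cases j <;> simp [g1a, g1b, g2a, g2b, g3a, g3b, pr, e4, h.one]
  have hgf' : ∀ b, g3 (f b) = b := fun b => DFunLike.congr_fun hgf b
  have hp : ∀ x, f (pr k v x) = ι3 (ι2 (ι1 x)) := fun x =>
    DFunLike.congr_fun (show f.comp (pr k v) = ι3.comp (ι2.comp ι1) from
      MvPolynomial.algHom_ext fun j => by fin_cases j <;> simp [pr, hf]) x
  refine ⟨fun x y hxy b hb => ?_, ?_⟩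
  · have h1 := r3 _ _ (r2 _ _ (r1 _ _ hxy)) (f b) (by
      rw [← hp, ← hp, ← map_mul]; exact map_dvd f hb)
    have h2 := map_dvd g3 h1
    rwa [← hp, hgf', hgf'] at h2
  · have h1 : (pr k v).toRingHom = g3.toRingHom.comp (ι3.toRingHom.comp
        (ι2.toRingHom.comp ι1.toRingHom)) := RingHom.ext fun x => by
      simp [g1a, g2a, g3a]
    rw [h1]
    exact ((i1.trans _ _ i2).trans _ _ i3).trans _ _
      (RingHom.isIntegral_of_surjective _ fun b => ⟨f b, hgf' b⟩)

theorem reg_plane {Q : ℕ} (hQ : 2 ≤ Q) {i j : Fin 2} (hij : i ≠ j) :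
    Reg (X i ^ Q - X i : MvPolynomial (Fin 2) k) (X j ^ Q - X j) := by
  have h0 : ∀ i, (X i ^ Q - X i : MvPolynomial (Fin 2) k) ≠ 0 := fun i h => by
    have := congrArg (coeff (Finsupp.single i Q)) h
    rw [coeff_sub, coeff_X_pow, if_pos rfl, coeff_X, if_neg, coeff_zero] at this
    · simp at this
    · intro h1
      have := Finsupp.single_injective i h1
      omega
  have h1 : ∀ {i j : Fin 2}, i ≠ j → ∀ d : MvPolynomial (Fin 2) k, d ∣ X i ^ Q - X i →
      degreeOf j d = 0 := by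
    rintro i j hij d ⟨c, hc⟩
    have h2 := h0 i
    rw [hc] at h2
    have h3 := degreeOf_mul_eq (n := j) (left_ne_zero_of_mul h2) (right_ne_zero_of_mul h2)
    have h4 := degreeOf_sub_le j (X i ^ Q : MvPolynomial (Fin 2) k) (X i)
    have h5 := degreeOf_pow_le j (X i : MvPolynomial (Fin 2) k) Q
    rw [degreeOf_X, if_neg hij.symm] at h4 h5
    rw [← hc] at h3
    omega
  have h2 : IsRelPrime (X i ^ Q - X i : MvPolynomial (Fin 2) k) (X j ^ Q - X j) := by
    intro d hi hj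
    have h3 : d.vars = ∅ := Finset.eq_empty_of_forall_notMem fun l hl => by
      refine mem_vars_iff_degreeOf_ne_zero.1 hl ?_
      by_cases h : i = l
      · exact h1 (h ▸ hij.symm) d hj
      · exact h1 h d hi
    rw [vars_eq_empty_iff_eq_C] at h3
    rw [h3]
    refine (IsUnit.mk0 _ fun h4 => h0 i ?_).map C
    rwa [h3, h4, C_0, zero_dvd_iff] at hi
  exact fun a ha => h2.dvd_of_dvd_mul_left ha

theorem IsChart.good [Finite k] (h : IsChart k q v 4) (m : Ideal B) [hm : m.IsMaximal] (O : Type)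
    [CommRing O] [Algebra B O] [IsLocalization.AtPrime O m] [IsLocalRing O] [IsNoetherianRing O] :
    Good O := by
  classical
  have := Fintype.ofFinite k
  let _ : Algebra k O := ((algebraMap B O).comp (algebraMap k B)).toAlgebra
  have : IsScalarTower k B O := IsScalarTower.of_algebraMap_eq' rfl
  have hft : Algebra.FiniteType k B := ⟨⟨Finset.univ.image v, h.gen _ fun j =>
    Algebra.subset_adjoin (by simp)⟩⟩
  let _ := Ideal.Quotient.field m
  have := finite_of_finite_type_of_isJacobsonRing k (B ⧸ m)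
  have := Module.finite_of_finite k (M := B ⧸ m)
  have := Fintype.ofFinite (B ⧸ m)
  set d := Module.finrank k (B ⧸ m) with hd
  set Q := Fintype.card k ^ d with hQ
  have hQ1 : Q = Fintype.card (B ⧸ m) := Module.card_eq_pow_finrank.symm
  have hQ2 : 2 ≤ Q := hQ1 ▸ Fintype.one_lt_card
  let Φ : O →ₐ[k] O := FiniteField.frobeniusAlgHom k O ^ d
  have hΦ : ∀ z, Φ z = z ^ Q := fun z => by
    simp only [Φ, AlgHom.coe_pow, FiniteField.coe_frobeniusAlgHom, pow_iterate, hQ]
  let ι : B →ₐ[k] O := IsScalarTower.toAlgHom k B O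
  have hmax : ∀ b, ι b ^ Q - ι b ∈ maximalIdeal O := fun b => by
    rw [← map_pow, ← map_sub]
    refine (IsLocalization.AtPrime.to_map_mem_maximal_iff O m _).2 ?_
    rw [← Ideal.Quotient.eq, map_pow, hQ1, FiniteField.pow_card]
  set x := ι (v 2) ^ Q - ι (v 2) with hx
  set y := ι (v 3) ^ Q - ι (v 3) with hy
  let π := Ideal.Quotient.mkₐ k (Ideal.span {x, y})
  let A := AlgHom.equalizer (π.comp (Φ.comp ι)) (π.comp ι)
  have hA : ∀ b, b ∈ A ↔ ι b ^ Q - ι b ∈ Ideal.span {x, y} := fun b => by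
    rw [← hΦ, ← Ideal.Quotient.eq]
    rfl
  have hq := FQ.fr (k := k) (q := q) O
  have step : ∀ b c, b ^ q = b + c → c ∈ A → b ∈ A := fun b c hb hc => by
    rw [hA] at hc ⊢
    have h1 : (ι b ^ Q - ι b) * (1 - (ι b ^ Q - ι b) ^ (q - 1)) = -(ι c ^ Q - ι c) := by
      rw [mul_sub, mul_one, ← pow_succ', Nat.sub_add_cancel (by have := hq.two; omega), hq.sub,
        pow_right_comm, ← map_pow ι b q, hb, map_add, ← hΦ (ι b + ι c), map_add, hΦ, hΦ]
      ring
    have h2 : IsUnit (1 - (ι b ^ Q - ι b) ^ (q - 1)) := isUnit_one_sub_self_of_mem_nonunits _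
      (Ideal.pow_mem_of_mem (maximalIdeal O) (hmax b) _ (by have := hq.two; omega))
    rw [← Ideal.mul_unit_mem_iff_mem _ h2, h1]
    exact neg_mem hc
  obtain ⟨e1, e2, e3, e4⟩ := h.eqs.chart
  have a2 : v 2 ∈ A := (hA _).2 (Ideal.subset_span (by simp [hx]))
  have a3 : v 3 ∈ A := (hA _).2 (Ideal.subset_span (by simp [hy]))
  have a0 : v 0 ∈ A := step _ _ e1 (neg_mem (sub_mem (mul_mem a2 (pow_mem a3 _))
    (mul_mem a3 (pow_mem a2 _))))
  have a5 : v 5 ∈ A := step _ _ e2 (sub_mem (mul_mem a0 (pow_mem a3 _)) (mul_mem a3 (pow_mem a0 _)))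
  have a6 : v 6 ∈ A := step _ _ e3 (neg_mem (sub_mem (mul_mem a0 (pow_mem a2 _))
    (mul_mem a2 (pow_mem a0 _))))
  have hA' : A = ⊤ := h.gen A fun j => by
    fin_cases j
    · exact a0
    · exact e4 ▸ neg_mem (add_mem (add_mem (pow_mem a0 _) (mul_mem a2 a5)) (mul_mem a3 a6))
    · exact a2
    · exact a3
    · exact h.one ▸ one_mem A
    · exact a5
    · exact a6
  have hm' : maximalIdeal O = Ideal.span {x, y} := by
    refine le_antisymm ?_ (Ideal.span_le.2 ?_)
    · rw [← IsLocalization.AtPrime.map_eq_maximalIdeal m O, Ideal.map_le_iff_le_comap]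
      intro b hb
      have h1 := (hA b).1 (hA' ▸ trivial)
      have h2 : IsUnit (1 - ι b ^ (Q - 1)) := isUnit_one_sub_self_of_mem_nonunits _
        (Ideal.pow_mem_of_mem (maximalIdeal O)
          ((IsLocalization.AtPrime.to_map_mem_maximal_iff O m _).2 hb) _ (by omega))
      change ι b ∈ Ideal.span {x, y}
      rw [← Ideal.mul_unit_mem_iff_mem _ h2, mul_sub, mul_one, ← pow_succ',
        Nat.sub_add_cancel (by omega), ← neg_sub]
      exact neg_mem h1
    · rintro z (rfl | rfl)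
      exacts [hmax _, hmax _]
  have hr : ∀ s t, Reg s t → Reg (ι (pr k v s)) (ι (pr k v t)) := fun s t hst =>
    (h.plane.1 s t hst).loc m.primeCompl
  have hx' : x = ι (pr k v (X 0 ^ Q - X 0)) := by simp [hx, pr]
  have hy' : y = ι (pr k v (X 1 ^ Q - X 1)) := by simp [hy, pr]
  refine good_of_regular hm' (fun a ha => ?_) (hx' ▸ hy' ▸ hr _ _ (reg_plane hQ2 (by decide)))
    (hx' ▸ hy' ▸ hr _ _ (reg_plane hQ2 (by decide)))
  have h1 := hr 0 (X 0 ^ Q - X 0) (fun b hb => by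
    rw [zero_dvd_iff, mul_eq_zero] at hb
    refine zero_dvd_iff.2 (hb.resolve_left fun h2 => ?_)
    have h3 := reg_plane (k := k) hQ2 (i := 1) (j := 0) (by decide) 1 (by rw [h2]; simp)
    have h4 := (isUnit_of_dvd_one h3).map (eval fun _ => (0 : k))
    simp [show Q ≠ 0 by omega] at h4) a (by rw [← hx', ha]; exact dvd_zero _)
  simpa using h1

theorem lift_as {R : Type} [CommRing R] (hq : Fr q R) (I : Ideal R) (hI : I ^ 2 = ⊥) (z : R ⧸ I)
    (c : R) (h : z ^ q = z + Ideal.Quotient.mk I c) :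
    ∃ a, Ideal.Quotient.mk I a = z ∧ a ^ q = a + c := by
  obtain ⟨b, rfl⟩ := Ideal.Quotient.mk_surjective z
  rw [← map_pow, ← map_add, Ideal.Quotient.eq] at h
  refine ⟨b + (b ^ q - (b + c)), by rw [map_add, Ideal.Quotient.eq_zero_iff_mem.2 h, add_zero], ?_⟩
  have h1 : (b ^ q - (b + c)) ^ q = 0 := by
    refine pow_eq_zero_of_le hq.two ?_
    rw [← Ideal.mem_bot, ← hI]
    exact Ideal.pow_mem_pow h 2
  rw [hq.add, h1]
  ring

theorem IsChart.formallySmooth (h : IsChart k q v 4) : Algebra.FormallySmooth k B := by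
  refine Algebra.FormallySmooth.of_comp_surjective fun R _ _ I hI f => ?_
  have hq := FQ.fr (k := k) (q := q) R
  have e0 := h.eqs.map f.toRingHom
  rw [map_one] at e0
  obtain ⟨e1, e2, e3, e4⟩ := e0.chart
  obtain ⟨u2, h2⟩ := Ideal.Quotient.mk_surjective (f (v 2))
  obtain ⟨u3, h3⟩ := Ideal.Quotient.mk_surjective (f (v 3))
  obtain ⟨a, h0, ha⟩ := lift_as hq I hI (f (v 0)) (-(u2 * u3 ^ q - u3 * u2 ^ q))
    (by simpa [h2, h3] using e1)
  obtain ⟨w2, h5, hw2⟩ := lift_as hq I hI (f (v 5)) (a * u3 ^ q - u3 * a ^ q)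
    (by simpa [h0, h3] using e2)
  obtain ⟨w3, h6, hw3⟩ := lift_as hq I hI (f (v 6)) (-(a * u2 ^ q - u2 * a ^ q))
    (by simpa [h0, h2] using e3)
  have hE := E.of_chart hq (a := a) (u2 := u2) (u3 := u3) (w2 := w2) (w3 := w3)
    (by rw [ha]; ring) hw2 (by rw [hw3]; ring)
  obtain ⟨g, hg⟩ := h.lift R ![_, _, _, _, _, _, _] hE rfl
  refine ⟨g, h.ext fun j => ?_⟩
  rw [AlgHom.comp_apply, hg]
  have e5 : f (v 1) = -(f (v 0) ^ 2 + f (v 2) * f (v 5) + f (v 3) * f (v 6)) := e4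
  fin_cases j <;> simp [h0, h2, h3, h5, h6, e5, h.one]

end

end Pool.Agent.Lib.MP_557161_ag.G2
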