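import Mathlib
import Pool.Agent.Lib.MP_557161_ag.G2.Aut

/-!
Families of points that are determined up to automorphisms by finitely many parameters.
-/

namespace Pool.Agent.Lib.MP_557161_ag.G2

open MvPolynomial Filter IsLocalRing TensorProduct

variable {k : Type} [Field k] {σ : Type} {I : Ideal (MvPolynomial σ k)} {T : Set σ}

theorem exists_field {S : Type} [CommRing S] [Algebra k S] (Q : Ideal S) (hQ : Q.IsPrime) :
    ∃ (K : Type) (_ : Field K) (_ : Algebra k K) (ψ : S →ₐ[k] K), ∀ f, ψ f = 0 ↔ f ∈ Q :=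
  ⟨FractionRing (S ⧸ Q), inferInstance, inferInstance,
    (IsScalarTower.toAlgHom k (S ⧸ Q) _).comp (Ideal.Quotient.mkₐ k Q), fun f => by
      rw [AlgHom.comp_apply, IsScalarTower.toAlgHom_apply, IsFractionRing.to_map_eq_zero_iff,
        Ideal.Quotient.mkₐ_eq_mk, Ideal.Quotient.eq_zero_iff_mem]⟩

theorem exists_common {R S : Type} [CommRing R] [Algebra k R] [CommRing S] [Algebra k S]
    (τ : R →ₐ[k] S) {Q Q' : Ideal S} (hQ : Q.IsPrime) (hQ' : Q'.IsPrime)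
    (h : Q.comap τ = Q'.comap τ) :
    ∃ (K : Type) (_ : Field K) (_ : Algebra k K) (ψ ψ' : S →ₐ[k] K), (∀ f, ψ f = 0 ↔ f ∈ Q) ∧
      (∀ f, ψ' f = 0 ↔ f ∈ Q') ∧ ∀ r, ψ (τ r) = ψ' (τ r) := by
  obtain ⟨K, _, _, ψ, hψ⟩ := exists_field (k := k) Q hQ
  obtain ⟨K', _, _, ψ', hψ'⟩ := exists_field (k := k) Q' hQ'
  let ρ : R ⧸ Q.comap τ →+* K := Ideal.Quotient.lift _ (ψ.comp τ).toRingHom fun r hr =>
    (hψ _).2 hr
  let ρ' : R ⧸ Q.comap τ →+* K' := Ideal.Quotient.lift _ (ψ'.comp τ).toRingHom fun r hr =>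
    (hψ' _).2 (show r ∈ Q'.comap τ from h ▸ hr)
  let _ := ρ.toAlgebra
  let _ := ρ'.toAlgebra
  have := Algebra.TensorProduct.nontrivial_of_algebraMap_injective_of_isDomain
    (R ⧸ Q.comap τ) K K' ((injective_iff_map_eq_zero _).2 fun r hr => by
      obtain ⟨r, rfl⟩ := Ideal.Quotient.mk_surjective r
      exact Ideal.Quotient.eq_zero_iff_mem.2 ((hψ _).1 hr))
    ((injective_iff_map_eq_zero _).2 fun r hr => by
      obtain ⟨r, rfl⟩ := Ideal.Quotient.mk_surjective r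
      exact Ideal.Quotient.eq_zero_iff_mem.2 (h ▸ (show r ∈ Q'.comap τ from (hψ' _).1 hr)))
  obtain ⟨M, hM⟩ := Ideal.exists_maximal (K ⊗[R ⧸ Q.comap τ] K')
  let _ := Ideal.Quotient.field M
  let ι : K →+* (K ⊗[R ⧸ Q.comap τ] K') ⧸ M :=
    (Ideal.Quotient.mk M).comp Algebra.TensorProduct.includeLeftRingHom
  let ι' : K' →+* (K ⊗[R ⧸ Q.comap τ] K') ⧸ M :=
    (Ideal.Quotient.mk M).comp Algebra.TensorProduct.includeRight.toRingHom
  have hι : ∀ r, ι (ψ (τ r)) = ι' (ψ' (τ r)) := fun r =>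
    congrArg (Ideal.Quotient.mk M) (DFunLike.congr_fun
      (Algebra.TensorProduct.includeLeftRingHom_comp_algebraMap (R := R ⧸ Q.comap τ) (A := K)
        (B := K')) (Ideal.Quotient.mk _ r))
  let _ : Algebra k ((K ⊗[R ⧸ Q.comap τ] K') ⧸ M) := (ι.comp (algebraMap k K)).toAlgebra
  refine ⟨(K ⊗[R ⧸ Q.comap τ] K') ⧸ M, inferInstance, inferInstance,
    ⟨ι.comp ψ.toRingHom, fun c => congrArg ι (ψ.commutes c)⟩,
    ⟨ι'.comp ψ'.toRingHom, fun c => ?_⟩, fun f => (map_eq_zero ι).trans (hψ f),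
    fun f => (map_eq_zero ι').trans (hψ' f), hι⟩
  have h1 := hι (algebraMap k R c)
  rw [τ.commutes, ψ.commutes] at h1
  exact h1.symm

/-- The prime ideal of a point in an affine chart. -/
noncomputable def aff (P : Pt I) (i : σ) : Ideal (MvPolynomial σ k) := P.1 ⊔ Ideal.span {X i - 1}

section

variable {P P' : Pt I} {i : σ}

theorem le_aff : P.1 ≤ aff P i := le_sup_left

theorem one_aff : X i - 1 ∈ aff P i := Ideal.mem_sup_right (Ideal.mem_span_singleton_self _)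

theorem mem_aff (hi : X i ∉ P.1) {g : MvPolynomial σ k} {n : ℕ} (hg : g.IsHomogeneous n) :
    g ∈ aff P i ↔ g ∈ P.1 := by
  refine ⟨fun h => ?_, fun h => le_aff h⟩
  obtain ⟨N, hN⟩ := P.2.2.1.dehom i hg h
  exact (P.2.1.mem_or_mem hN).resolve_left fun h1 => hi (P.2.1.mem_of_pow_mem N h1)

theorem aff_congr {f g : MvPolynomial σ k} (h : g - f ∈ Ideal.span {(X i - 1 : MvPolynomial σ k)}) :
    g ∈ aff P i ↔ f ∈ aff P i := by
  rw [← Submodule.add_mem_iff_right (aff P i) (Ideal.mem_sup_right h) (y := f), sub_add_cancel]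

theorem aff_prime (hi : X i ∉ P.1) : (aff P i).IsPrime := by
  refine ⟨Pt.sup_ne_top P hi, fun {a b} hab => ?_⟩
  obtain ⟨g, n, h1, h2⟩ := exists_hom i a
  obtain ⟨g', n', h1', h2'⟩ := exists_hom i b
  rw [← aff_congr h2, ← aff_congr h2', mem_aff hi h1, mem_aff hi h1']
  refine P.2.1.mem_or_mem ((mem_aff hi (h1.mul h1')).1 ((aff_congr ?_).2 hab))
  rw [show g * g' - a * b = (g - a) * g' + a * (g' - b) by ring]
  exact add_mem (Ideal.mul_mem_right _ _ h2) (Ideal.mul_mem_left _ _ h2')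

theorem aff_mono (h : P ≤ P') : aff P i ≤ aff P' i := sup_le_sup_right h _

theorem Pt.ext' (h : ∀ g n, MvPolynomial.IsHomogeneous g n → (g ∈ P.1 ↔ g ∈ P'.1)) : P = P' :=
  Subtype.ext (le_antisymm (P.2.2.1.le_of fun g hg n hn => (h g n hn).1 hg)
    (P'.2.2.1.le_of fun g hg n hn => (h g n hn).2 hg))

theorem Pt.exists_field (hi : X i ∉ P.1) :
    ∃ (K : Type) (_ : Field K) (_ : Algebra k K) (ψ : MvPolynomial σ k →ₐ[k] K),
      ψ (X i) = 1 ∧ (∀ f, ψ f = 0 ↔ f ∈ aff P i) ∧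
      ∀ g n, MvPolynomial.IsHomogeneous g n → (ψ g = 0 ↔ g ∈ P.1) := by
  obtain ⟨K, _, _, ψ, hψ⟩ := G2.exists_field (k := k) _ (aff_prime hi)
  refine ⟨K, _, _, ψ, ?_, hψ, fun g n hg => (hψ g).trans (mem_aff hi hg)⟩
  have := (hψ _).2 one_aff
  rwa [map_sub, map_one, sub_eq_zero] at this

/-- `ψ` is a vector that represents `P`. -/
def Rep (P : Pt I) (i : σ) {K : Type} [Field K] [Algebra k K] (ψ : MvPolynomial σ k →ₐ[k] K) :
    Prop := ψ (X i) = 1 ∧ ∀ g n, MvPolynomial.IsHomogeneous g n → (ψ g = 0 ↔ g ∈ P.1)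

theorem Pt.exists_rep (hi : X i ∉ P.1) :
    ∃ (K : Type) (_ : Field K) (_ : Algebra k K) (ψ : MvPolynomial σ k →ₐ[k] K), Rep P i ψ := by
  obtain ⟨K, _, _, ψ, h1, -, h2⟩ := Pt.exists_field hi
  exact ⟨K, _, _, ψ, h1, h2⟩

variable {K : Type} [Field K] [Algebra k K] {ψ : MvPolynomial σ k →ₐ[k] K}

theorem Rep.notMem (h : Rep P i ψ) : X i ∉ P.1 := fun h1 =>
  one_ne_zero (h.1.symm.trans ((h.2 _ _ (isHomogeneous_X k i)).2 h1))

theorem Rep.X_iff (h : Rep P i ψ) (j : σ) : ψ (X j) = 0 ↔ X j ∈ P.1 :=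
  h.2 _ _ (isHomogeneous_X k j)

theorem Rep.aff_iff (h : Rep P i ψ) (f : MvPolynomial σ k) : ψ f = 0 ↔ f ∈ aff P i := by
  obtain ⟨g, n, h1, h2⟩ := exists_hom i f
  rw [← aff_congr h2, mem_aff h.notMem h1, ← h.2 g n h1]
  obtain ⟨c, hc⟩ := Ideal.mem_span_singleton'.1 h2
  rw [eq_add_of_sub_eq hc.symm, map_add, map_mul, map_sub, h.1, map_one, sub_self, mul_zero,
    zero_add]

theorem Rep.ker (h : Rep P i ψ) : I ≤ RingHom.ker ψ := fun f hf =>
  (h.aff_iff f).2 (le_aff (P.2.2.2.1 hf))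

theorem Rep.smul {γ : Aut I} {j : σ} (h : Rep (γ • P) i ψ) (hj : ψ (γ.1 (X j)) = 1) :
    Rep P j (ψ.comp γ.1.toAlgHom) :=
  ⟨hj, fun _ n hg => (h.2 _ n (aut_hom γ hg)).trans (mem_im' γ)⟩

/-- The point that belongs to a vector. -/
noncomputable def ofVec (hI : Homog I) (h : I ≤ RingHom.ker ψ) (hi : ψ (X i) = 1) : Pt I :=
  ⟨core (RingHom.ker ψ), core_prime (RingHom.ker_isPrime _), homog_core _, hI.le_core h, i,
    fun h1 => one_ne_zero (hi.symm.trans (core_le _ h1))⟩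

theorem rep_ofVec (hI : Homog I) (h : I ≤ RingHom.ker ψ) (hi : ψ (X i) = 1) :
    Rep (ofVec hI h hi) i ψ := ⟨hi, fun _ _ hg => (mem_core (P := RingHom.ker ψ) hg).symm⟩

end

variable [Surf I T]

include T in
theorem height_le (P : Pt I) : Order.height P ≤ 2 := by
  obtain ⟨p, hp⟩ := Pt.exists_LP P
  refine (Order.height_le_coe_iff (n := 2)).2 fun y hy => ?_
  have h2 : y.1 ≤ p.M := le_trans hy.le hp
  by_cases h3 : y.1.map p.φ = ⊥
  · rw [Order.height_eq_zero.2 ((p.isMin_iff y h2).2 h3)]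
    decide
  · rw [(p.height_iff y h2).2 ⟨h3, ((p.map_lt hp hy).trans_le
      (le_maximalIdeal (p.map_prime P hp).ne_top)).ne⟩]
    decide

theorem LP.exists_curve (p : LP I T) {π : p.O} (hπ : Prime π) :
    ∃ C : Curve I, C.1.1 ≤ p.M ∧ C.1.1.map p.φ = Ideal.span {π} := by
  have h2 := (Ideal.span_singleton_prime hπ.ne_zero).2 hπ
  exact ⟨⟨p.pull Surf.hom _ h2, (p.height_iff _ (p.pull_le _ _ _)).2 (by
    rw [p.map_pull]
    exact ⟨fun h => hπ.ne_zero (Ideal.span_singleton_eq_bot.1 h), (Surf.good p).span_ne π⟩)⟩,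
    p.pull_le Surf.hom _ h2, p.map_pull Surf.hom _ h2⟩

/-- The closed point that belongs to a local ring. -/
noncomputable def LP.top (p : LP I T) : Pt I :=
  p.pull Surf.hom _ (maximalIdeal.isMaximal p.O).isPrime

theorem LP.mem_top (p : LP I T) {g : MvPolynomial σ k} {n : ℕ} (hg : g.IsHomogeneous n) :
    g ∈ p.top.1 ↔ g ∈ p.M := (mem_core hg).trans p.φ_mem_max

theorem LP.le_top' (p : LP I T) {P : Pt I} (h : P.1 ≤ p.M) : P ≤ p.top :=
  P.2.2.1.le_of fun _ hg _ hn => (p.mem_top hn).2 (h hg)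

theorem LP.lt_top (p : LP I T) {C : Curve I} (h : C.1.1 ≤ p.M) : C.1 < p.top :=
  lt_of_le_of_ne (p.le_top' h) fun h1 => ((p.height_iff C.1 h).1 C.2).2 (by
    rw [h1]; exact p.map_pull _ _ _)

theorem exists_curve_le (P : Pt I) {g : MvPolynomial σ k} {n : ℕ} (hg : g.IsHomogeneous n)
    (h0 : ∀ p : LP I T, p.φ g ≠ 0) (h : g ∈ P.1) : ∃ C : Curve I, C.1 ≤ P ∧ g ∈ C.1.1 := by
  obtain ⟨p, hp⟩ := Pt.exists_LP P
  obtain ⟨s, hs, hs'⟩ := UniqueFactorizationMonoid.exists_prime_factors _ (h0 p)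
  have h1 := Ideal.mem_map_of_mem p.φ h
  rw [← Ideal.mem_iff_of_associated hs'] at h1
  obtain ⟨π, h2, h3⟩ := ((p.map_prime P hp).multiset_prod_mem_iff_exists_mem s).1 h1
  obtain ⟨C, h4, h5⟩ := p.exists_curve (hs π h2)
  refine ⟨C, p.le_of_map_le C.1.2.2.1 P hp ?_, ?_⟩
  · rwa [h5, Ideal.span_singleton_le_iff_mem]
  · rw [← p.mem_map_prime C.1 h4 hg, h5, Ideal.mem_span_singleton]
    exact (Multiset.dvd_prod h2).trans hs'.dvd

variable [Finite σ]

theorem Pt.exists_LP' (P : Pt I) {g : MvPolynomial σ k} {n : ℕ} (hg : g.IsHomogeneous n)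
    (h : g ∉ P.1) : ∃ p : LP I T, P.1 ≤ p.M ∧ g ∉ p.M := by
  obtain ⟨i, hi, h1⟩ := Pt.exists_i P
  have h2 : (aff P i).jacobson = aff P i := IsJacobsonRing.out inferInstance (aff_prime h1).isRadical
  rw [← mem_aff h1 hg, ← h2, Ideal.jacobson, Ideal.mem_sInf] at h
  push Not at h
  obtain ⟨M, ⟨h3, h4⟩, h5⟩ := h
  obtain ⟨p, -, hp⟩ := G2.exists_LP hi (I := I) (J := M) (P.2.2.2.1.trans (le_aff.trans h3)) (by
    rw [sup_eq_left.2 (le_sup_right.trans h3)]; exact h4.ne_top)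
  exact ⟨p, le_aff.trans (h3.trans hp), (h4.eq_of_le p.M_max.ne_top hp) ▸ h5⟩

/-- A locally closed set of points. -/
def InC (i : σ) (s : Set (MvPolynomial σ k)) (δ : MvPolynomial σ k) (P : Pt I) : Prop :=
  X i ∉ P.1 ∧ (∀ f ∈ s, f ∈ aff P i) ∧ δ ∉ P.1

/-- The parameters `τ` determine the points of the locally closed set up to `H`. -/
structure Cls (H : Set (Aut I)) (i : σ) (s : Set (MvPolynomial σ k)) (δ : MvPolynomial σ k) {n : ℕ}
    (τ : Fin n → MvPolynomial σ k) : Prop where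
  hom : ∃ e, δ.IsHomogeneous e
  det : ∀ (K : Type) [Field K] [Algebra k K] (ψ ψ' : MvPolynomial σ k →ₐ[k] K),
    I ≤ RingHom.ker ψ → I ≤ RingHom.ker ψ' → ψ (X i) = 1 → ψ' (X i) = 1 → (∀ f ∈ s, ψ f = 0) →
    (∀ f ∈ s, ψ' f = 0) → ψ δ ≠ 0 → (∀ l, ψ (τ l) = ψ' (τ l)) →
    ∃ γ ∈ H, ∀ j, ψ' (γ.1 (X j)) = ψ (X j)

variable {H : Set (Aut I)} {i : σ} {s : Set (MvPolynomial σ k)} {δ : MvPolynomial σ k} {n : ℕ}
  {τ : Fin n → MvPolynomial σ k} {P P' : Pt I}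

omit [Surf I T] [Finite σ] in
theorem Cls.mono (c : Cls H i s δ τ) {H' : Set (Aut I)} (h : H ⊆ H') : Cls H' i s δ τ :=
  ⟨c.hom, fun K _ _ ψ ψ' h1 h2 h3 h4 h5 h6 h7 h8 =>
    (c.det K ψ ψ' h1 h2 h3 h4 h5 h6 h7 h8).imp fun _ h9 => ⟨h h9.1, h9.2⟩⟩

omit [Surf I T] [Finite σ] in
theorem InC.between {P'' : Pt I} (h : InC i s δ P) (h'' : InC i s δ P'') (h1 : P ≤ P')
    (h2 : P' ≤ P'') : InC i s δ P' :=
  ⟨fun h3 => h''.1 (h2 h3), fun f hf => aff_mono h1 (h.2.1 f hf), fun h3 => h''.2.2 (h2 h3)⟩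

/-- The image of a point in the parameter space. -/
noncomputable def InC.con (h : InC i s δ P) (τ : Fin n → MvPolynomial σ k) :
    PrimeSpectrum (MvPolynomial (Fin n) k) :=
  ⟨(aff P i).comap (aeval τ : _ →ₐ[k] _), Ideal.comap_isPrime _ _ (H := aff_prime h.1)⟩

omit [Surf I T] [Finite σ] in
theorem Cls.conj (c : Cls H i s δ τ) (h : InC i s δ P) (h' : InC i s δ P')
    (he : h.con τ = h'.con τ) : ∃ γ ∈ H, γ • P = P' := by
  obtain ⟨K, _, _, ψ, ψ', h1, h2, h3⟩ := exists_common (aeval τ : _ →ₐ[k] _) (aff_prime h.1)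
    (aff_prime h'.1) (congrArg PrimeSpectrum.asIdeal he)
  obtain ⟨e, he⟩ := c.hom
  obtain ⟨γ, h4, h5⟩ := c.det K ψ ψ' (fun f hf => (h1 f).2 (le_aff (P.2.2.2.1 hf)))
    (fun f hf => (h2 f).2 (le_aff (P'.2.2.2.1 hf)))
    (by simpa [sub_eq_zero] using (h1 _).2 one_aff) (by simpa [sub_eq_zero] using (h2 _).2 one_aff)
    (fun f hf => (h1 f).2 (h.2.1 f hf)) (fun f hf => (h2 f).2 (h'.2.1 f hf))
    (fun h6 => h.2.2 ((mem_aff h.1 he).1 ((h1 _).1 h6))) fun l => by simpa using h3 (X l)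
  have h6 : ∀ f, ψ' (γ.1 f) = ψ f := fun f => DFunLike.congr_fun
    (show ψ'.comp γ.1.toAlgHom = ψ from MvPolynomial.algHom_ext h5) f
  refine ⟨γ, h4, Pt.ext' fun g m hg => ?_⟩
  rw [smul_val, mem_im, ← mem_aff h.1 (aut_hom γ⁻¹ hg), ← h1, ← h6, aut_inv', h2, mem_aff h'.1 hg]

omit [Finite σ] in
include T in
theorem Cls.lt (c : Cls H i s δ τ) (h : InC i s δ P) (h' : InC i s δ P') (hlt : P < P') :
    Order.height (h.con τ) + 1 ≤ Order.height (h'.con τ) := by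
  refine Order.height_add_one_le (lt_of_le_of_ne (Ideal.comap_mono (aff_mono hlt.le)) fun he => ?_)
  obtain ⟨γ, -, rfl⟩ := c.conj h h' he
  have h1 := Order.height_add_one_le hlt
  rw [height_smul, ENat.add_one_le_iff (ne_top_of_le_ne_top (by decide) (height_le P))] at h1
  exact h1.false

theorem height_spec (a : PrimeSpectrum (MvPolynomial (Fin n) k)) : Order.height a ≤ n := by
  have h := Order.height_le_krullDim a
  rw [← ringKrullDim, MvPolynomial.ringKrullDim_of_isNoetherianRing, ringKrullDim_eq_zero_of_field,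
    zero_add, Nat.card_eq_fintype_card, Fintype.card_fin] at h
  exact WithBot.coe_le_coe.1 h

theorem spec_eq_bot {R : Type} [CommRing R] [IsDomain R] {a : PrimeSpectrum R}
    (h : Order.height a = 0) : a.asIdeal = ⊥ :=
  le_bot_iff.1 (Order.height_eq_zero.1 h (show (⟨⊥, Ideal.isPrime_bot⟩ : PrimeSpectrum R) ≤ a from
    (bot_le : ⊥ ≤ a.asIdeal)))

theorem Cls.up (c : Cls H i s δ τ) (h : InC i s δ P) :
    ∃ p : LP I T, P.1 ≤ p.M ∧ InC i s δ p.top := by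
  obtain ⟨e, he⟩ := c.hom
  obtain ⟨p, h1, h2⟩ := Pt.exists_LP' P ((isHomogeneous_X k i).mul he)
    fun h3 => (P.2.1.mem_or_mem h3).elim h.1 h.2.2
  exact ⟨p, h1, fun h3 => h2 (Ideal.mul_mem_right _ _ ((p.mem_top (isHomogeneous_X k i)).1 h3)),
    fun f hf => aff_mono (p.le_top' h1) (h.2.1 f hf),
    fun h3 => h2 (Ideal.mul_mem_left _ _ ((p.mem_top he).1 h3))⟩

include T in
theorem Cls.curve (c : Cls H i s δ τ) {C : Curve I} (h : InC i s δ C.1) :
    Order.height (h.con τ) + 1 ≤ n := by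
  obtain ⟨p, h1, h2⟩ := c.up h
  exact (c.lt h h2 (p.lt_top h1)).trans (height_spec _)

include T in
theorem Cls.min (c : Cls H i s δ τ) (h : InC i s δ P) (hP : IsMin P) :
    Order.height (h.con τ) + 1 + 1 ≤ n := by
  obtain ⟨p, h1, h2⟩ := c.up h
  obtain ⟨π, hπ⟩ := (Surf.good p).exists_prime
  obtain ⟨C, h3, h4⟩ := p.exists_curve hπ
  have h5 : P ≤ C.1 := p.le_of_map_le P.2.2.1 C.1 h3 (by
    rw [(p.isMin_iff P h1).1 hP]; exact bot_le)
  have h6 := h.between h2 h5 (p.le_top' h3)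
  refine le_trans ?_ (c.curve h6)
  gcongr
  refine c.lt h h6 (lt_of_le_of_ne h5 fun h7 => ?_)
  have h8 := Order.height_eq_zero.2 hP
  rw [h7, C.2] at h8
  exact one_ne_zero h8

include T in
theorem Cls.not_min (c : Cls H i s δ τ) (hn : n ≤ 1) (h : InC i s δ P) : ¬ IsMin P := fun hP => by
  have h1 := (c.min h hP).trans (Nat.cast_le.2 hn)
  rw [add_assoc] at h1
  exact absurd (le_add_self.trans h1) (by decide)

omit [Surf I T] [Finite σ] in
theorem Cls.conj_zero {τ : Fin 0 → MvPolynomial σ k} (c : Cls H i s δ τ)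
    (h : InC i s δ P) (h' : InC i s δ P') : ∃ γ ∈ H, γ • P = P' :=
  c.conj h h' (PrimeSpectrum.ext ((spec_eq_bot (nonpos_iff_eq_zero.1 (height_spec _))).trans
    (spec_eq_bot (nonpos_iff_eq_zero.1 (height_spec _))).symm))

include T in
theorem Cls.not_curve {τ : Fin 0 → MvPolynomial σ k} (c : Cls H i s δ τ) (C : Curve I) :
    ¬ InC i s δ C.1 := fun h => absurd (le_add_self.trans (c.curve h)) (by decide)

include T in
theorem Cls.conj_one {τ : Fin 1 → MvPolynomial σ k} (c : Cls H i s δ τ) {C D : Curve I}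
    (h : InC i s δ C.1) (h' : InC i s δ D.1) : ∃ γ ∈ H, γ • C = D := by
  have h0 : ∀ a : ℕ∞, a + 1 ≤ (1 : ℕ) → a = 0 := fun a ha => by
    by_contra h1
    have h2 : (1 : ℕ∞) + 1 ≤ (1 : ℕ) := le_trans (by
      gcongr; exact Order.one_le_iff_ne_zero.2 h1) ha
    exact absurd h2 (by decide)
  obtain ⟨γ, h1, h2⟩ := c.conj h h' (PrimeSpectrum.ext
    ((spec_eq_bot (h0 _ (c.curve h))).trans (spec_eq_bot (h0 _ (c.curve h'))).symm))
  exact ⟨γ, h1, Subtype.ext h2⟩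

include T in
theorem Cls.conj_two {τ : Fin 2 → MvPolynomial σ k} (c : Cls H i ∅ δ τ) {C : Curve I}
    (h : InC i ∅ δ C.1) : ∃ F e, MvPolynomial.IsHomogeneous F e ∧ F ∈ C.1.1 ∧
      (∀ P : Pt I, IsMin P → InC i ∅ δ P → F ∉ P.1) ∧
      ∀ D : Curve I, InC i ∅ δ D.1 → F ∈ D.1.1 → ∃ γ ∈ H, γ • C = D := by
  obtain ⟨p, hp⟩ := Pt.exists_LP C.1
  let η := p.pull Surf.hom ⊥ Ideal.isPrime_bot
  have h1 : η ≤ C.1 := p.le_of_map_le (homog_core _) C.1 hp
    ((p.map_pull Surf.hom _ Ideal.isPrime_bot).le.trans bot_le)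
  have h2 : InC i ∅ δ η := ⟨fun h3 => h.1 (h1 h3), by simp, fun h3 => h.2.2 (h1 h3)⟩
  have h3 := c.lt h2 h (lt_of_le_of_ne h1 fun h4 => ((p.height_iff C.1 hp).1 C.2).1 (by
    rw [← h4]; exact p.map_pull _ _ _))
  have h4 : (h.con τ).asIdeal ≠ ⊥ := fun h5 => by
    have h6 : Order.height (h.con τ) = 0 :=
      Order.height_eq_zero.2 fun b _ => show (h.con τ).asIdeal ≤ _ from h5 ▸ bot_le
    rw [h6] at h3
    exact absurd (le_add_self.trans h3) (by decide)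
  obtain ⟨f, hf, hfp⟩ := (h.con τ).isPrime.exists_mem_prime_of_ne_bot h4
  obtain ⟨F, e, h5, h6⟩ := exists_hom i (aeval τ f)
  have h7 : ∀ {P : Pt I} (hP : InC i ∅ δ P), F ∈ P.1 ↔ f ∈ (hP.con τ).asIdeal := fun hP =>
    (mem_aff hP.1 h5).symm.trans (aff_congr h6)
  let a : PrimeSpectrum (MvPolynomial (Fin 2) k) :=
    ⟨Ideal.span {f}, (Ideal.span_singleton_prime hfp.ne_zero).2 hfp⟩
  have h8 : ∀ {D : Curve I} (hD : InC i ∅ δ D.1), f ∈ (hD.con τ).asIdeal → a = hD.con τ := by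
    intro D hD h9
    by_contra h10
    have h11 := Order.height_add_one_le (lt_of_le_of_ne
      (show a ≤ hD.con τ from (Ideal.span_singleton_le_iff_mem _).2 h9) h10)
    have h12 : Order.height a ≠ 0 := fun h13 =>
      hfp.ne_zero (Ideal.span_singleton_eq_bot.1 (spec_eq_bot h13))
    have h13 : (1 : ℕ∞) + 1 + 1 ≤ (2 : ℕ) := le_trans (by
      gcongr
      exact le_trans (by gcongr; exact Order.one_le_iff_ne_zero.2 h12) h11) (c.curve hD)
    exact absurd h13 (by decide)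
  refine ⟨F, e, h5, (h7 h).2 hf, fun P hP hP' h9 => ?_, fun D hD h9 => ?_⟩
  · have h10 := c.min hP' hP
    have h11 : Order.height (hP'.con τ) = 0 := by
      by_contra h12
      have h13 : (1 : ℕ∞) + 1 + 1 ≤ (2 : ℕ) := le_trans (by
        gcongr; exact Order.one_le_iff_ne_zero.2 h12) h10
      exact absurd h13 (by decide)
    rw [h7 hP', spec_eq_bot h11] at h9
    exact hfp.ne_zero h9
  · obtain ⟨γ, h10, h11⟩ := c.conj h hD ((h8 h hf).symm.trans (h8 hD ((h7 hD).1 h9)))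
    exact ⟨γ, h10, Subtype.ext h11⟩

end Pool.Agent.Lib.MP_557161_ag.G2
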