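import Mathlib
import Pool.Agent.Lib.MP_557161_ag.G2.Eqs

/-!
Character sums for the point count of the open chart.
-/

namespace Pool.Agent.Lib.MP_557161_ag.G2

namespace CountAux

open Finset

variable {K : Type} [Field K] [Fintype K] [DecidableEq K] {q : ℕ} {ψ : AddChar K ℂ}

/-- The indicator function of zero. -/
noncomputable def dl (z : K) : ℂ := if z = 0 then 1 else 0

/-- A primitive additive character that is invariant under `z ↦ z ^ q`. -/
structure Ch (q : ℕ) (ψ : AddChar K ℂ) : Prop where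
  fr : Fr q K
  prim : ψ.IsPrimitive
  inv : ∀ z, ψ (z ^ q) = ψ z

omit [DecidableEq K] in
theorem exists_ch (p e : ℕ) [Fact p.Prime] (he : 0 < e) [CharP K p] :
    ∃ ψ : AddChar K ℂ, Ch (p ^ e) ψ := by
  let _ : Algebra (ZMod p) K := ZMod.algebra _ _
  have : NeZero p := ⟨(Fact.out : p.Prime).ne_zero⟩
  let ψ : AddChar K ℂ :=
    (ZMod.stdAddChar (N := p)).compAddMonoidHom (Algebra.trace (ZMod p) K).toAddMonoidHom
  have hψ : ∀ z, ψ z = ZMod.stdAddChar (Algebra.trace (ZMod p) K z) := fun z => rfl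
  have h1 : ∀ z, ψ (z ^ p) = ψ z := by
    intro z
    have h := Algebra.trace_eq_of_algEquiv
      (FiniteField.frobeniusAlgEquivOfAlgebraic (ZMod p) K) z
    rw [FiniteField.coe_frobeniusAlgEquivOfAlgebraic, ZMod.card] at h
    rw [hψ, hψ]
    exact congrArg _ h
  refine ⟨ψ, Fr.of_algebra (k := K) p e he K, AddChar.IsPrimitive.of_ne_one ?_, fun z => ?_⟩
  · have htr := (traceForm_nondegenerate (ZMod p) K).1 1
    simp_rw [Algebra.traceForm_apply, one_mul] at htr
    rw [AddChar.ne_one_iff]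
    by_contra hf
    push Not at hf
    refine one_ne_zero (htr fun b => ?_)
    have h2 := hf b
    rwa [hψ, ← (ZMod.stdAddChar (N := p)).map_zero_eq_one,
      ZMod.injective_stdAddChar.eq_iff] at h2
  · clear he
    induction e with
    | zero => simp
    | succ n ih => rw [pow_succ, pow_mul, h1, ih]

theorem Ch.sum_lin (h : Ch q ψ) (b : K) : ∑ x, ψ (x * b) = Fintype.card K * dl b := by
  rw [AddChar.sum_mulShift b h.prim, dl]
  split_ifs <;> simp

omit [DecidableEq K] in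
theorem fr_bij (h : Fr q K) : Function.Bijective fun a : K => a ^ q := by
  rw [← Finite.injective_iff_bijective]
  intro a b hab
  have h1 := h.sub a b
  rw [show a ^ q = b ^ q from hab, sub_self] at h1
  exact sub_eq_zero.1 (pow_eq_zero_iff h.ne |>.1 h1)

theorem Ch.key (h : Ch q ψ) (α β : K) :
    ∑ a, ψ (α * a ^ q + β * a) = Fintype.card K * dl (α + β ^ q) := by
  rw [← h.sum_lin, ← (fr_bij h.fr).sum_comp fun x => ψ (x * (α + β ^ q))]
  refine sum_congr rfl fun a _ => ?_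
  rw [AddChar.map_add_eq_mul, ← h.inv (β * a), ← AddChar.map_add_eq_mul, mul_pow]
  congr 1
  ring

omit [DecidableEq K] in
theorem card_ne : (Fintype.card K : ℂ) ≠ 0 := by exact_mod_cast Fintype.card_ne_zero

theorem Ch.nf (h : Ch q ψ) (f : K) :
    ∑ w, dl (f - (w ^ q - w)) = ∑ μ, dl (μ ^ q - μ) * ψ (μ * f) := by
  apply mul_left_cancel₀ (card_ne (K := K))
  rw [mul_sum, mul_sum]
  simp only [← h.sum_lin]
  rw [sum_comm]
  refine sum_congr rfl fun μ _ => ?_
  rw [← mul_assoc, show μ ^ q - μ = -μ + μ ^ q by ring, ← h.key, sum_mul]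
  refine sum_congr rfl fun w _ => ?_
  rw [← AddChar.map_add_eq_mul]
  congr 1
  ring

/-- The inner sum. -/
noncomputable def FF (q : ℕ) (ψ : AddChar K ℂ) (b z : K) : ℂ :=
  ∑ a, dl (a ^ q - a + b) * ψ (br q a z)

theorem Ch.inner (h : Ch q ψ) (x z : K) :
    ∑ y, FF q ψ (br q y x) z = Fintype.card K *
      ∑ l, dl (-(l * x) + (l * x ^ q) ^ q) * dl ((l - z) + (z ^ q - l) ^ q) := by
  apply mul_left_cancel₀ (card_ne (K := K))
  have h1 : ∀ y, (Fintype.card K : ℂ) * FF q ψ (br q y x) z =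
      ∑ l, ∑ a, ψ (-(l * x) * y ^ q + (l * x ^ q) * y) *
        ψ ((l - z) * a ^ q + (z ^ q - l) * a) := by
    intro y
    rw [FF, mul_sum, sum_comm]
    refine sum_congr rfl fun a _ => ?_
    rw [← mul_assoc, ← h.sum_lin, sum_mul]
    refine sum_congr rfl fun l _ => ?_
    rw [← AddChar.map_add_eq_mul, ← AddChar.map_add_eq_mul]
    congr 1
    unfold br
    ring
  rw [mul_sum, mul_sum, mul_sum]
  simp only [h1]
  rw [sum_comm]
  refine sum_congr rfl fun l _ => ?_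
  simp only [← mul_sum]
  rw [← sum_mul, h.key, h.key]
  ring

theorem sum_dl_eq (c : K) : ∑ l, dl (l - c) = 1 := by
  simp [dl, sub_eq_zero]

theorem inner_zero (h : Fr q K) (hF : ∑ l : K, dl (l ^ q - l) = q) (x : K) :
    ∑ l, dl (-(l * x) + (l * x ^ q) ^ q) * dl ((l - 0) + (0 ^ q - l) ^ q) =
      1 + (q - 1) * dl (x ^ q ^ 2 - x) := by
  have e2 : x ^ q ^ 2 = (x ^ q) ^ q := by rw [← pow_mul, sq]
  simp only [h.zero, zero_sub, sub_zero, h.neg, mul_pow, ← e2]
  by_cases hx : x ^ q ^ 2 = x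
  · have h1 : ∀ l : K, dl (-(l * x) + l ^ q * x ^ q ^ 2) * dl (l + -l ^ q) = dl (l ^ q - l) := by
      intro l
      by_cases hl : l ^ q = l
      · simp [dl, hl, hx]
      · have : l + -l ^ q ≠ 0 := fun h0 => hl (by linear_combination -h0)
        simp [dl, this, sub_eq_zero, hl]
    simp only [h1]
    rw [hF, hx]
    simp [dl]
  · have h1 : ∀ l : K, dl (-(l * x) + l ^ q * x ^ q ^ 2) * dl (l + -l ^ q) = dl (l - 0) := by
      intro l
      by_cases hl : l = 0
      · simp [dl, hl, h.zero]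
      · by_cases hl' : l ^ q = l
        · have : -(l * x) + l ^ q * x ^ q ^ 2 ≠ 0 := by
            intro h0
            rw [hl'] at h0
            exact hx (mul_left_cancel₀ hl (by linear_combination h0))
          simp [dl, this, hl]
        · have : l + -l ^ q ≠ 0 := fun h0 => hl' (by linear_combination -h0)
          simp [dl, this, hl]
    simp only [h1]
    rw [sum_dl_eq]
    simp [dl, sub_eq_zero, hx]

theorem inner_one (h : Fr q K) (hF : ∑ l : K, dl (l ^ q - l) = q) (x : K) :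
    ∑ l, dl (-(l * x) + (l * x ^ q) ^ q) * dl ((l - x) + (x ^ q - l) ^ q) =
      q * dl (x ^ q ^ 2 - x) + dl (x ^ q ^ 3 - x) - dl (x ^ q - x) := by
  have e2 : x ^ q ^ 2 = (x ^ q) ^ q := by rw [← pow_mul, sq]
  have e3 : x ^ q ^ 3 = (x ^ q ^ 2) ^ q := by rw [← pow_mul, ← pow_succ]
  simp only [h.sub, mul_pow, ← e2]
  by_cases hx : x ^ q ^ 2 = x
  · have h1 : ∀ l : K, dl (-(l * x) + l ^ q * x ^ q ^ 2) * dl (l - x + (x ^ q ^ 2 - l ^ q)) =
        dl (l ^ q - l) := by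
      intro l
      by_cases hl : l ^ q = l
      · simp [dl, hl, hx]
      · have : l - x + (x ^ q ^ 2 - l ^ q) ≠ 0 := fun h0 => hl (by linear_combination hx - h0)
        simp [dl, this, sub_eq_zero, hl]
    simp only [h1]
    rw [hF, e3, hx]
    simp [dl]
  · have hx1 : x ^ q ≠ x := fun h0 => hx (by rw [e2, h0, h0])
    have h1 : ∀ l : K, dl (-(l * x) + l ^ q * x ^ q ^ 2) * dl (l - x + (x ^ q ^ 2 - l ^ q)) =
        dl (l - -x ^ q ^ 2) * dl (x ^ q ^ 3 - x) := by
      intro l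
      by_cases hl : l = -x ^ q ^ 2
      · have hq : l ^ q = -x ^ q ^ 3 := by rw [hl, h.neg, e3]
        by_cases h3 : x ^ q ^ 3 = x
        · have a1 : -(l * x) + l ^ q * x ^ q ^ 2 = 0 := by rw [hq, h3, hl]; ring
          have a2 : l - x + (x ^ q ^ 2 - l ^ q) = 0 := by rw [hq, h3, hl]; ring
          rw [a1, a2, h3, hl]
          simp [dl]
        · have a2 : l - x + (x ^ q ^ 2 - l ^ q) ≠ 0 := by
            intro h0
            rw [hq, hl] at h0
            exact h3 (by linear_combination h0)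
          simp [dl, a2, sub_eq_zero, h3]
      · have hl' : l - -x ^ q ^ 2 ≠ 0 := sub_ne_zero.2 hl
        by_cases a2 : l - x + (x ^ q ^ 2 - l ^ q) = 0
        · have a1 : -(l * x) + l ^ q * x ^ q ^ 2 ≠ 0 := by
            intro h0
            refine mul_ne_zero hl' (sub_ne_zero.2 hx) ?_
            linear_combination h0 + x ^ q ^ 2 * a2
          simp only [dl, a1, hl', if_false, zero_mul]
        · simp only [dl, a2, hl', if_false, zero_mul, mul_zero]
    simp only [h1]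
    rw [← sum_mul, sum_dl_eq]
    simp [dl, sub_eq_zero, hx, hx1]

/-- The sum with two parameters. -/
noncomputable def HH (q : ℕ) (ψ : AddChar K ℂ) (μ ν : K) : ℂ :=
  ∑ u : K × K, FF q ψ (br q u.1 u.2) (μ * u.2 - ν * u.1)

theorem HH_eq (h : Fr q K) {μ ν : K} (hμ : μ ^ q = μ) (hν : ν ^ q = ν) (h0 : ¬(μ = 0 ∧ ν = 0)) :
    HH q ψ μ ν = HH q ψ 1 0 := by
  obtain ⟨c, d, hc, hd, hcd⟩ : ∃ c d : K, c ^ q = c ∧ d ^ q = d ∧ μ * c + ν * d = 1 := by
    by_cases h1 : μ = 0
    · have h2 : ν ≠ 0 := fun h2 => h0 ⟨h1, h2⟩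
      exact ⟨0, ν⁻¹, h.zero, by rw [inv_pow, hν], by simp [h2]⟩
    · exact ⟨μ⁻¹, 0, by rw [inv_pow, hμ], h.zero, by simp [h1]⟩
  have hb : Function.Bijective fun u : K × K => ((c * u.1 + d * u.2, μ * u.2 - ν * u.1) : K × K) := by
    rw [← Finite.injective_iff_bijective]
    intro u v huv
    have h1 : c * u.1 + d * u.2 = c * v.1 + d * v.2 := congrArg Prod.fst huv
    have h2 : μ * u.2 - ν * u.1 = μ * v.2 - ν * v.1 := congrArg Prod.snd huv
    refine Prod.ext ?_ ?_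
    · linear_combination μ * h1 - d * h2 - (u.1 - v.1) * hcd
    · linear_combination ν * h1 + c * h2 - (u.2 - v.2) * hcd
  unfold HH
  rw [← hb.sum_comp fun u : K × K => FF q ψ (br q u.1 u.2) (1 * u.2 - 0 * u.1)]
  refine sum_congr rfl fun u _ => ?_
  congr 1
  · simp only [br, h.add, h.sub, mul_pow, hc, hd, hμ, hν]
    linear_combination -(u.1 * u.2 ^ q - u.2 * u.1 ^ q) * hcd
  · ring

theorem Ch.HH_zero (h : Ch q ψ) (hF : ∑ l : K, dl (l ^ q - l) = q)
    (hF2 : ∑ l : K, dl (l ^ q ^ 2 - l) = q ^ 2) :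
    HH q ψ 0 0 = Fintype.card K * (Fintype.card K + (q - 1) * q ^ 2) := by
  unfold HH
  rw [Fintype.sum_prod_type_right]
  simp only [zero_mul, sub_self, h.inner, inner_zero h.fr hF]
  rw [← mul_sum, sum_add_distrib, ← mul_sum, hF2]
  simp

theorem Ch.HH_one (h : Ch q ψ) (hF : ∑ l : K, dl (l ^ q - l) = q)
    (hF2 : ∑ l : K, dl (l ^ q ^ 2 - l) = q ^ 2) (hF3 : ∑ l : K, dl (l ^ q ^ 3 - l) = q ^ 3) :
    HH q ψ 1 0 = Fintype.card K * (q * q ^ 2 + q ^ 3 - q) := by
  unfold HH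
  rw [Fintype.sum_prod_type_right]
  simp only [zero_mul, sub_zero, one_mul, h.inner, inner_one h.fr hF]
  rw [← mul_sum, sum_sub_distrib, sum_add_distrib, ← mul_sum, hF, hF2, hF3]

omit [Field K] [DecidableEq K] in
theorem sum_pair (f g : K → ℂ) : ∑ w : K × K, f w.1 * g w.2 = (∑ x, f x) * ∑ y, g y := by
  rw [sum_mul_sum, Fintype.sum_prod_type]

theorem Ch.chart (h : Ch q ψ) (hF : ∑ l : K, dl (l ^ q - l) = q)
    (hF2 : ∑ l : K, dl (l ^ q ^ 2 - l) = q ^ 2) (hF3 : ∑ l : K, dl (l ^ q ^ 3 - l) = q ^ 3) :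
    ∑ u : K × K, ∑ a : K, ∑ w : K × K, dl (a ^ q - a + br q u.1 u.2) *
      (dl (br q a u.2 - (w.1 ^ q - w.1)) * dl (-br q a u.1 - (w.2 ^ q - w.2))) =
    Fintype.card K * (Fintype.card K + q - q ^ 2 - 2 * q ^ 3 + 2 * q ^ 5) := by
  have h1 : ∀ (u : K × K) (a : K), ∑ w : K × K, dl (a ^ q - a + br q u.1 u.2) *
      (dl (br q a u.2 - (w.1 ^ q - w.1)) * dl (-br q a u.1 - (w.2 ^ q - w.2))) =
      ∑ m : K × K, dl (m.1 ^ q - m.1) * dl (m.2 ^ q - m.2) *
        (dl (a ^ q - a + br q u.1 u.2) * ψ (br q a (m.1 * u.2 - m.2 * u.1))) := by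
    intro u a
    rw [← mul_sum, sum_pair (fun w => dl (br q a u.2 - (w ^ q - w)))
      (fun w => dl (-br q a u.1 - (w ^ q - w))), h.nf, h.nf, ← sum_pair, mul_sum]
    refine sum_congr rfl fun m _ => ?_
    by_cases h1 : m.1 ^ q = m.1
    · by_cases h2 : m.2 ^ q = m.2
      · have : br q a (m.1 * u.2 - m.2 * u.1) = m.1 * br q a u.2 + m.2 * -br q a u.1 := by
          simp only [br, h.fr.sub, mul_pow, h1, h2]
          ring
        rw [this, AddChar.map_add_eq_mul]
        ring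
      · simp [dl, sub_eq_zero, h2]
    · simp [dl, sub_eq_zero, h1]
  have h2 : ∀ m : K × K, dl (m.1 ^ q - m.1) * dl (m.2 ^ q - m.2) * HH q ψ m.1 m.2 =
      dl (m.1 ^ q - m.1) * dl (m.2 ^ q - m.2) * HH q ψ 1 0 +
        dl (m.1 - 0) * dl (m.2 - 0) * (HH q ψ 0 0 - HH q ψ 1 0) := by
    intro m
    by_cases h0 : m.1 = 0 ∧ m.2 = 0
    · rw [h0.1, h0.2, h.fr.zero]
      simp [dl]
    · have h3 : dl (m.1 - 0) * dl (m.2 - 0) = 0 := by
        by_cases h1 : m.1 = 0
        · have h2 : m.2 ≠ 0 := fun h2 => h0 ⟨h1, h2⟩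
          simp [dl, h2]
        · simp [dl, h1]
      rw [h3, zero_mul, add_zero]
      by_cases h1 : m.1 ^ q = m.1
      · by_cases h2 : m.2 ^ q = m.2
        · rw [HH_eq h.fr h1 h2 h0]
        · simp [dl, sub_eq_zero, h2]
      · simp [dl, sub_eq_zero, h1]
  have h3 : ∑ u : K × K, ∑ a : K, ∑ m : K × K, dl (m.1 ^ q - m.1) * dl (m.2 ^ q - m.2) *
        (dl (a ^ q - a + br q u.1 u.2) * ψ (br q a (m.1 * u.2 - m.2 * u.1))) =
      ∑ m : K × K, dl (m.1 ^ q - m.1) * dl (m.2 ^ q - m.2) * HH q ψ m.1 m.2 := by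
    simp only [HH, FF, mul_sum]
    rw [sum_comm (s := univ (α := K × K)) (t := univ (α := K × K))]
    exact sum_congr rfl fun u _ => sum_comm
  simp only [h1]
  rw [h3]
  simp only [h2]
  rw [sum_add_distrib, ← sum_mul, ← sum_mul,
    sum_pair (fun w : K => dl (w ^ q - w)) (fun w => dl (w ^ q - w)),
    sum_pair (fun w : K => dl (w - 0)) (fun w => dl (w - 0)),
    hF, sum_dl_eq, h.HH_zero hF hF2, h.HH_one hF hF2 hF3]
  ring

end CountAux

end Pool.Agent.Lib.MP_557161_ag.G2
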