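import Mathlib
import Pool.Agent.Lib.MP_557161_ag.G2.Count1

/-!
The number of points of the surface over a finite field.
-/

namespace Pool.Agent.Lib.MP_557161_ag.G2

namespace CountAux

open Finset

theorem card_split {α : Type} [Finite α] (P c : α → Prop) :
    Nat.card {x // P x} = Nat.card {x // P x ∧ ¬c x} + Nat.card {x // P x ∧ c x} := by
  classical
  have := Fintype.ofFinite α
  simp only [Nat.card_eq_fintype_card, Fintype.card_subtype]
  rw [← Finset.filter_filter, ← Finset.filter_filter, add_comm,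
    Finset.card_filter_add_card_filter_not]

variable {K : Type} [Field K] {q : ℕ}

/-- The number of projective points whose representative satisfies `P`. -/
noncomputable def cnt (P : (Fin 7 → K) → Prop) : ℕ :=
  Nat.card {x : Projectivization K (Fin 7 → K) // P x.rep}

/-- Invariance under scaling. -/
def Inv (P : (Fin 7 → K) → Prop) : Prop := ∀ (c : K) (v : Fin 7 → K), P v → P (c • v)

theorem Inv.and {P : (Fin 7 → K) → Prop} (h : Inv P) (i : Fin 7) :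
    Inv fun v => P v ∧ v i = 0 :=
  fun c v hv => ⟨h c v hv.1, by rw [Pi.smul_apply, hv.2, smul_zero]⟩

theorem inv_EV : Inv (EV q : (Fin 7 → K) → Prop) := fun c _ hv => E.scale c hv

theorem step [Finite K] {P : (Fin 7 → K) → Prop} (h : Inv P) (i : Fin 7) :
    cnt P = Nat.card {v // P v ∧ v i = 1} + cnt fun v => P v ∧ v i = 0 := by
  unfold cnt
  rw [card_split (fun x : Projectivization K (Fin 7 → K) => P x.rep) fun x => x.rep i = 0]
  congr 1
  symm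
  have hne : ∀ v : {v // P v ∧ v i = 1}, v.1 ≠ 0 := fun v h0 => by
    have h1 := v.2.2
    rw [h0] at h1
    exact zero_ne_one h1
  refine Nat.card_eq_of_bijective (fun v => ⟨Projectivization.mk K v.1 (hne v), ?_⟩) ⟨?_, ?_⟩
  · obtain ⟨a, ha⟩ := Projectivization.exists_smul_eq_mk_rep K v.1 (hne v)
    rw [← ha]
    refine ⟨h a v.1 v.2.1, ?_⟩
    rw [Units.smul_def, Pi.smul_apply, v.2.2, smul_eq_mul, mul_one]
    exact a.ne_zero
  · intro v w hvw
    obtain ⟨a, ha⟩ := (Projectivization.mk_eq_mk_iff' K _ _ _ _).1 (congrArg Subtype.val hvw)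
    have h1 := congrFun ha i
    rw [Pi.smul_apply, v.2.2, w.2.2, smul_eq_mul, mul_one] at h1
    rw [h1, one_smul] at ha
    exact Subtype.ext ha.symm
  · intro x
    refine ⟨⟨(x.1.rep i)⁻¹ • x.1.rep, h _ _ x.2.1, ?_⟩, Subtype.ext ?_⟩
    · rw [Pi.smul_apply, smul_eq_mul, inv_mul_cancel₀ x.2.2]
    · conv_rhs => rw [← Projectivization.mk_rep x.1]
      exact (Projectivization.mk_eq_mk_iff' K _ _ _ _).2 ⟨_, rfl⟩

theorem cnt_zero {P : (Fin 7 → K) → Prop} (h : ∀ v, P v → v = 0) : cnt P = 0 := by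
  have : IsEmpty {x : Projectivization K (Fin 7 → K) // P x.rep} :=
    ⟨fun x => x.1.rep_nonzero (h _ x.2)⟩
  exact Nat.card_of_isEmpty

/-- The fixed field. -/
abbrev Fx (K : Type) [Field K] (q : ℕ) : Type := {x : K // x ^ q = x}

omit [Field K] in
theorem vec_ext {v w : Fin 7 → K} (h0 : v 0 = w 0) (h1 : v 1 = w 1) (h2 : v 2 = w 2)
    (h3 : v 3 = w 3) (h4 : v 4 = w 4) (h5 : v 5 = w 5) (h6 : v 6 = w 6) : v = w := by
  funext i
  fin_cases i
  exacts [h0, h1, h2, h3, h4, h5, h6]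

theorem E_three (h : Fr q K) {a b c w : K} (ha : a ^ q = a) (hb : b ^ q = b) (hc : c ^ q = c) :
    E q a (c + a * w) b 1 0 w (-(a * a) - b * w) := by
  refine ⟨?_, ?_, ?_, ?_, ?_, ?_, ?_, ?_, ?_⟩ <;>
    (try simp only [h.add, h.sub, h.neg, h.zero, mul_pow, one_pow, ha, hb, hc]) <;> ring

theorem card_three (h : Fr q K) :
    Nat.card {v : Fin 7 → K // (EV q v ∧ v 4 = 0) ∧ v 3 = 1} =
      Nat.card (Fx K q × Fx K q × Fx K q × K) := by
  symm
  refine Nat.card_eq_of_bijective (fun t => ⟨![t.1.1, t.2.2.1.1 + t.1.1 * t.2.2.2, t.2.1.1, 1, 0,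
    t.2.2.2, -(t.1.1 * t.1.1) - t.2.1.1 * t.2.2.2], ⟨E_three h t.1.2 t.2.1.2 t.2.2.1.2, rfl⟩, rfl⟩)
    ⟨?_, ?_⟩
  · rintro ⟨a, b, c, w⟩ ⟨a', b', c', w'⟩ hh
    have h0 : a.1 = a'.1 := congrFun (congrArg Subtype.val hh) 0
    have h1 : c.1 + a.1 * w = c'.1 + a'.1 * w' := congrFun (congrArg Subtype.val hh) 1
    have h2 : b.1 = b'.1 := congrFun (congrArg Subtype.val hh) 2
    have h5 : w = w' := congrFun (congrArg Subtype.val hh) 5
    rw [h0, h5, add_left_inj] at h1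
    rw [Subtype.ext h0, Subtype.ext h1, Subtype.ext h2, h5]
  · rintro ⟨v, ⟨hv, h4⟩, h3⟩
    have q0 := hv.q0
    have g3 := hv.g3
    have h1 := hv.h1
    have h2 := hv.h2
    simp only [h3, h4, h.zero, one_pow] at q0 g3 h1 h2
    have ha : v 0 ^ q = v 0 := by linear_combination -g3
    have hb : v 2 ^ q = v 2 := by linear_combination h1
    have hc : (v 1 - v 0 * v 5) ^ q = v 1 - v 0 * v 5 := by
      rw [h.sub, mul_pow, ha]
      rw [ha] at h2
      linear_combination -h2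
    refine ⟨⟨⟨v 0, ha⟩, ⟨v 2, hb⟩, ⟨_, hc⟩, v 5⟩, Subtype.ext (vec_ext rfl ?_ rfl h3.symm h4.symm rfl ?_)⟩
    · exact sub_add_cancel _ _
    · change -(v 0 * v 0) - v 2 * v 5 = v 6
      linear_combination -q0

theorem E_two (h : Fr q K) {a c w : K} (ha : a ^ q = a) (hc : c ^ q = c) :
    E q a (c - a * w) 1 0 0 (-(a * a)) w := by
  refine ⟨?_, ?_, ?_, ?_, ?_, ?_, ?_, ?_, ?_⟩ <;>
    (try simp only [h.sub, h.neg, h.zero, mul_pow, one_pow, ha, hc]) <;> ring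

theorem card_two (h : Fr q K) :
    Nat.card {v : Fin 7 → K // ((EV q v ∧ v 4 = 0) ∧ v 3 = 0) ∧ v 2 = 1} =
      Nat.card (Fx K q × Fx K q × K) := by
  symm
  refine Nat.card_eq_of_bijective (fun t => ⟨![t.1.1, t.2.1.1 - t.1.1 * t.2.2, 1, 0, 0,
    -(t.1.1 * t.1.1), t.2.2], ⟨⟨E_two h t.1.2 t.2.1.2, rfl⟩, rfl⟩, rfl⟩) ⟨?_, ?_⟩
  · rintro ⟨a, c, w⟩ ⟨a', c', w'⟩ hh
    have h0 : a.1 = a'.1 := congrFun (congrArg Subtype.val hh) 0
    have h1 : c.1 - a.1 * w = c'.1 - a'.1 * w' := congrFun (congrArg Subtype.val hh) 1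
    have h6 : w = w' := congrFun (congrArg Subtype.val hh) 6
    rw [h0, h6, sub_left_inj] at h1
    rw [Subtype.ext h0, Subtype.ext h1, h6]
  · rintro ⟨v, ⟨⟨hv, h4⟩, h3⟩, h2⟩
    have q0 := hv.q0
    have g2 := hv.g2
    have h1 := hv.h3
    simp only [h2, h3, h4, h.zero, one_pow] at q0 g2 h1
    have ha : v 0 ^ q = v 0 := by linear_combination -g2
    have hc : (v 1 + v 0 * v 6) ^ q = v 1 + v 0 * v 6 := by
      rw [h.add, mul_pow, ha]
      rw [ha] at h1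
      linear_combination h1
    refine ⟨⟨⟨v 0, ha⟩, ⟨_, hc⟩, v 6⟩,
      Subtype.ext (vec_ext rfl ?_ h2.symm h3.symm h4.symm ?_ rfl)⟩
    · exact add_sub_cancel_right _ _
    · change -(v 0 * v 0) = v 5
      linear_combination -q0

theorem card_a :
    Nat.card {v : Fin 7 → K // (((EV q v ∧ v 4 = 0) ∧ v 3 = 0) ∧ v 2 = 0) ∧ v 0 = 1} = 0 := by
  have : IsEmpty {v : Fin 7 → K // (((EV q v ∧ v 4 = 0) ∧ v 3 = 0) ∧ v 2 = 0) ∧ v 0 = 1} := by
    refine ⟨?_⟩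
    rintro ⟨v, ⟨⟨⟨hv, h4⟩, h3⟩, h2⟩, h0⟩
    have q0 := hv.q0
    simp [h0, h2, h3, h4] at q0
  exact Nat.card_of_isEmpty

theorem E_line (h : Fr q K) {u w2 w3 : K} (h2 : w2 ^ q = w2) (h3 : w3 ^ q = w3) :
    E q 0 u 0 0 0 w2 w3 := by
  refine ⟨?_, ?_, ?_, ?_, ?_, ?_, ?_, ?_, ?_⟩ <;> (try simp only [h.zero, h2, h3]) <;> ring

theorem card_six (h : Fr q K) :
    Nat.card {v : Fin 7 → K //
      ((((EV q v ∧ v 4 = 0) ∧ v 3 = 0) ∧ v 2 = 0) ∧ v 0 = 0) ∧ v 6 = 1} =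
      Nat.card (Fx K q × K) := by
  symm
  refine Nat.card_eq_of_bijective (fun t => ⟨![0, t.2, 0, 0, 0, t.1.1, 1],
    ⟨⟨⟨⟨E_line h t.1.2 (one_pow q), rfl⟩, rfl⟩, rfl⟩, rfl⟩, rfl⟩) ⟨?_, ?_⟩
  · rintro ⟨a, w⟩ ⟨a', w'⟩ hh
    have h0 : a.1 = a'.1 := congrFun (congrArg Subtype.val hh) 5
    have h1 : w = w' := congrFun (congrArg Subtype.val hh) 1
    rw [Subtype.ext h0, h1]
  · rintro ⟨v, ⟨⟨⟨⟨hv, h4⟩, h3⟩, h2⟩, h0⟩, h6⟩
    have g1 := hv.g1
    simp only [h0, h6, h.zero, one_pow] at g1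
    have ha : v 5 ^ q = v 5 := by linear_combination g1
    exact ⟨⟨⟨v 5, ha⟩, v 1⟩,
      Subtype.ext (vec_ext h0.symm rfl h2.symm h3.symm h4.symm rfl h6.symm)⟩

theorem card_five (h : Fr q K) :
    Nat.card {v : Fin 7 → K //
      (((((EV q v ∧ v 4 = 0) ∧ v 3 = 0) ∧ v 2 = 0) ∧ v 0 = 0) ∧ v 6 = 0) ∧ v 5 = 1} =
      Nat.card K := by
  symm
  refine Nat.card_eq_of_bijective (fun t => ⟨![0, t, 0, 0, 0, 1, 0],
    ⟨⟨⟨⟨⟨E_line h (one_pow q) h.zero, rfl⟩, rfl⟩, rfl⟩, rfl⟩, rfl⟩, rfl⟩) ⟨?_, ?_⟩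
  · intro w w' hh
    exact congrFun (congrArg Subtype.val hh) 1
  · rintro ⟨v, ⟨⟨⟨⟨⟨hv, h4⟩, h3⟩, h2⟩, h0⟩, h6⟩, h5⟩
    exact ⟨v 1, Subtype.ext (vec_ext h0.symm rfl h2.symm h3.symm h4.symm h5.symm h6.symm)⟩

theorem card_one (h : Fr q K) :
    Nat.card {v : Fin 7 → K //
      ((((((EV q v ∧ v 4 = 0) ∧ v 3 = 0) ∧ v 2 = 0) ∧ v 0 = 0) ∧ v 6 = 0) ∧ v 5 = 0) ∧ v 1 = 1} =
      1 := by
  rw [Nat.card_eq_one_iff_exists]
  refine ⟨⟨![0, 1, 0, 0, 0, 0, 0],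
    ⟨⟨⟨⟨⟨⟨E_line h h.zero h.zero, rfl⟩, rfl⟩, rfl⟩, rfl⟩, rfl⟩, rfl⟩, rfl⟩, ?_⟩
  rintro ⟨v, ⟨⟨⟨⟨⟨⟨hv, h4⟩, h3⟩, h2⟩, h0⟩, h6⟩, h5⟩, h1⟩
  exact Subtype.ext (vec_ext h0 h1 h2 h3 h4 h5 h6)

theorem card_four (h : Fr q K) :
    Nat.card {v : Fin 7 → K // EV q v ∧ v 4 = 1} =
      Nat.card {t : (K × K) × K × (K × K) // t.2.1 ^ q - t.2.1 + br q t.1.1 t.1.2 = 0 ∧
        br q t.2.1 t.1.2 - (t.2.2.1 ^ q - t.2.2.1) = 0 ∧
        -br q t.2.1 t.1.1 - (t.2.2.2 ^ q - t.2.2.2) = 0} := by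
  symm
  refine Nat.card_eq_of_bijective (fun t => ⟨![t.1.2.1,
    -(t.1.2.1 ^ 2 + t.1.1.1 * t.1.2.2.1 + t.1.1.2 * t.1.2.2.2), t.1.1.1, t.1.1.2, 1, t.1.2.2.1,
    t.1.2.2.2], E.of_chart h (a := t.1.2.1) ?_ ?_ ?_, rfl⟩) ⟨?_, ?_⟩
  · have := t.2.1
    unfold br at this
    linear_combination this
  · have := t.2.2.1
    unfold br at this
    linear_combination -this
  · have := t.2.2.2
    unfold br at this
    linear_combination -this
  · rintro ⟨⟨⟨u2, u3⟩, a, w2, w3⟩, _⟩ ⟨⟨⟨u2', u3'⟩, a', w2', w3'⟩, _⟩ hh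
    have h0 : a = a' := congrFun (congrArg Subtype.val hh) 0
    have h2 : u2 = u2' := congrFun (congrArg Subtype.val hh) 2
    have h3 : u3 = u3' := congrFun (congrArg Subtype.val hh) 3
    have h5 : w2 = w2' := congrFun (congrArg Subtype.val hh) 5
    have h6 : w3 = w3' := congrFun (congrArg Subtype.val hh) 6
    subst h0 h2 h3 h5 h6
    rfl
  · rintro ⟨v, hv, h4⟩
    have q0 := hv.q0
    have g2 := hv.g2
    have g3 := hv.g3
    have h1 := hv.h1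
    simp only [h4, one_pow] at q0 g2 g3 h1
    refine ⟨⟨((v 2, v 3), v 0, v 5, v 6), ?_, ?_, ?_⟩,
      Subtype.ext (vec_ext rfl ?_ rfl rfl h4.symm rfl rfl)⟩
    · unfold br
      linear_combination -h1
    · unfold br
      linear_combination g3
    · unfold br
      linear_combination -g2
    · change -(v 0 ^ 2 + v 2 * v 5 + v 3 * v 6) = v 1
      linear_combination -q0

theorem card_eq_sum {ι : Type} [Fintype ι] (P : ι → Prop) [DecidablePred P] :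
    (Nat.card {x // P x} : ℂ) = ∑ x, if P x then 1 else 0 := by
  rw [Nat.card_eq_fintype_card, Fintype.card_subtype, sum_boole]

end CountAux

open CountAux

theorem card_fixed (p e : ℕ) [Fact p.Prime] (_he : 0 < e) (K : Type) [Field K] [Finite K]
    [CharP K p] (s : ℕ) (hK : Nat.card K = (p ^ e) ^ (6 * s)) (i : ℕ) (hi : i ∣ 6) :
    Nat.card {x : K // x ^ (p ^ e) ^ i = x} = (p ^ e) ^ i := by
  have hp : p.Prime := Fact.out
  obtain ⟨d, hd⟩ : ∃ d, (p ^ e) ^ i = d + 1 :=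
    Nat.exists_eq_succ_of_ne_zero (pow_ne_zero _ (pow_ne_zero _ hp.ne_zero))
  have hdvd : d ∣ Nat.card Kˣ := by
    rw [Nat.card_units, hK, show d = (p ^ e) ^ i - 1 by omega]
    exact Nat.pow_sub_one_dvd_pow_sub_one _ (hi.mul_right s)
  have h1 := IsCyclic.card_powMonoidHom_ker (G := Kˣ) d
  rw [Nat.gcd_eq_right hdvd] at h1
  rw [hd, card_split (fun x : K => x ^ (d + 1) = x) fun x => x = 0]
  congr 1
  · refine Eq.trans ?_ h1
    symm
    refine Nat.card_eq_of_bijective (fun u => ⟨u.1, ?_, u.1.ne_zero⟩) ⟨?_, ?_⟩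
    · have h2 : u.1 ^ d = 1 := u.2
      rw [pow_succ, ← Units.val_pow_eq_pow_val, h2, Units.val_one, one_mul]
    · intro u v huv
      exact Subtype.ext (Units.ext (congrArg Subtype.val huv))
    · rintro ⟨x, hx, hx0⟩
      refine ⟨⟨Units.mk0 x hx0, ?_⟩, rfl⟩
      change Units.mk0 x hx0 ^ d = 1
      refine Units.ext ?_
      rw [Units.val_pow_eq_pow_val, Units.val_mk0, Units.val_one]
      exact mul_right_cancel₀ hx0 (by rw [← pow_succ, hx, one_mul])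
  · rw [Nat.card_eq_one_iff_exists]
    exact ⟨⟨0, zero_pow d.succ_ne_zero, rfl⟩, fun y => Subtype.ext y.2.2⟩

theorem points_eq (p e : ℕ) [Fact p.Prime] (he : 0 < e) (K : Type) [Field K] [Finite K]
    [CharP K p] (s : ℕ) (hK : Nat.card K = (p ^ e) ^ (6 * s)) :
    points K (p ^ e) + (p ^ e) ^ 3 * Nat.card K =
      1 + (2 * (p ^ e) ^ 5 + 2 * p ^ e + 1) * Nat.card K + Nat.card K ^ 2 := by
  classical
  have := Fintype.ofFinite K
  obtain ⟨ψ, hψ⟩ := exists_ch (K := K) p e he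
  have h := hψ.fr
  have hfix := card_fixed p e he K s hK
  have hF1 : Nat.card (Fx K (p ^ e)) = p ^ e := by simpa using hfix 1 (one_dvd _)
  generalize p ^ e = q at *
  have hsum : ∀ i, i ∣ 6 → ∑ l : K, dl (l ^ q ^ i - l) = (q : ℂ) ^ i := by
    intro i hi
    have h1 := card_eq_sum fun x : K => x ^ q ^ i = x
    rw [hfix i hi, Nat.cast_pow] at h1
    rw [h1]
    simp only [dl, sub_eq_zero]
  have hc := hψ.chart (by simpa using hsum 1 (one_dvd _)) (hsum 2 (by norm_num))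
    (hsum 3 (by norm_num))
  have h4 : (Nat.card {v : Fin 7 → K // EV q v ∧ v 4 = 1} : ℂ) =
      Fintype.card K * (Fintype.card K + q - q ^ 2 - 2 * q ^ 3 + 2 * q ^ 5) := by
    rw [card_four h, card_eq_sum, ← hc, Fintype.sum_prod_type]
    refine Finset.sum_congr rfl fun u _ => ?_
    rw [Fintype.sum_prod_type]
    refine Finset.sum_congr rfl fun a _ => Finset.sum_congr rfl fun w _ => ?_
    simp only [dl, ite_and]
    split_ifs <;> simp
  have hp : points K q = cnt (EV q : (Fin 7 → K) → Prop) := by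
    unfold points cnt
    simp only [eqs_eq_zero]
  have i0 := inv_EV (K := K) (q := q)
  rw [hp, step i0 4, step (i0.and 4) 3, step ((i0.and 4).and 3) 2,
    step (((i0.and 4).and 3).and 2) 0, step ((((i0.and 4).and 3).and 2).and 0) 6,
    step (((((i0.and 4).and 3).and 2).and 0).and 6) 5,
    step ((((((i0.and 4).and 3).and 2).and 0).and 6).and 5) 1,
    cnt_zero (fun v hv => vec_ext hv.1.1.1.2 hv.2 hv.1.1.1.1.2 hv.1.1.1.1.1.2 hv.1.1.1.1.1.1.2
      hv.1.2 hv.1.1.2),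
    card_three h, card_two h, card_a, card_six h, card_five h, card_one h]
  simp only [Nat.card_prod, hF1]
  apply Nat.cast_injective (R := ℂ)
  push_cast
  rw [h4, Nat.card_eq_fintype_card]
  ring

end Pool.Agent.Lib.MP_557161_ag.G2
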