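import Mathlib

/-!
Linear algebra: the idempotent relation for the group `F × F`, and semidefinite fibres.
-/

namespace Pool.Agent.Lib.MP_557161_ag.G2

open LinearMap Module

theorem trace_lmapDomain {Λ : Type} [Finite Λ] (π : Λ → Λ) :
    trace ℚ _ (Finsupp.lmapDomain ℚ ℚ π) = Nat.card {l // π l = l} := by
  classical
  have := Fintype.ofFinite Λ
  rw [trace_eq_matrix_trace ℚ Finsupp.basisSingleOne, Matrix.trace, Nat.card_eq_fintype_card,
    Fintype.card_subtype, Finset.card_filter]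
  push_cast
  refine Finset.sum_congr rfl fun l _ => ?_
  simp [toMatrix_apply, Finsupp.single_apply]

/-- A copy of `F × F` in `G` whose lines are all conjugate. -/
structure Plane {F G : Type} [Field F] [Group G] (θ : F → F → G) : Prop where
  mul : ∀ c d c' d', θ c d * θ c' d' = θ (c + c') (d + d')
  swap : ∃ s, ∀ d, s * θ 0 d = θ (-d) 0 * s
  shear : ∀ b, ∃ g, ∀ c, g * θ c 0 = θ c (c * b) * g

variable {F G : Type} [Field F] [Group G] {θ : F → F → G}

theorem Plane.zero (h : Plane θ) : θ 0 0 = 1 := by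
  have := h.mul 0 0 0 0
  rwa [add_zero, mul_eq_left] at this

variable [Fintype F]

theorem Plane.rel (h : Plane θ) {A : Type} [Ring A] (ρ : G →* A) :
    ∃ g : F → G, (Fintype.card F : A) + ∑ c, ρ (θ c 0) * ∑ d, ρ (θ 0 d) =
      ∑ d, ρ (θ 0 d) + ∑ b, ρ (g b) * (∑ d, ρ (θ 0 d)) * ρ (g b)⁻¹ := by
  classical
  obtain ⟨s, hs⟩ := h.swap
  choose g hg using h.shear
  refine ⟨fun b => g b * s, ?_⟩
  have h1 : ∀ b, ρ (g b * s) * (∑ d, ρ (θ 0 d)) * ρ (g b * s)⁻¹ = ∑ c, ρ (θ c (c * b)) := by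
    intro b
    rw [Finset.mul_sum, Finset.sum_mul, ← Equiv.sum_comp (Equiv.neg F)]
    refine Finset.sum_congr rfl fun c _ => ?_
    rw [← map_mul, ← map_mul, mul_assoc (g b), hs, Equiv.neg_apply, neg_neg, ← mul_assoc, hg,
      mul_assoc (θ _ _), mul_inv_cancel_right]
  have h2 : ∀ c ∈ Finset.univ.erase (0 : F),
      ρ (θ c 0) * ∑ d, ρ (θ 0 d) = ∑ b, ρ (θ c (c * b)) := by
    intro c hc
    rw [Finset.mul_sum, ← Equiv.sum_comp (Equiv.mulLeft₀ c (Finset.ne_of_mem_erase hc))]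
    refine Finset.sum_congr rfl fun b _ => ?_
    rw [← map_mul, h.mul, add_zero, zero_add]
    rfl
  simp only [h1]
  rw [Finset.sum_comm, ← Finset.add_sum_erase _ _ (Finset.mem_univ (0 : F)),
    ← Finset.add_sum_erase _ (fun c => ∑ b, ρ (θ c (c * b))) (Finset.mem_univ (0 : F)),
    Finset.sum_congr rfl h2]
  simp only [zero_mul, h.zero, map_one, one_mul, Finset.sum_const, Finset.card_univ, nsmul_eq_mul,
    mul_one]
  abel

theorem Plane.dim (h : Plane θ) {V Λ : Type} [AddCommGroup V] [Module ℚ V] [Finite Λ]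
    (ρ : G →* End ℚ V) (Φ : (Λ →₀ ℚ) →ₗ[ℚ] V) (π : F → Λ → Λ) (f : ℕ)
    (h1 : range (∑ d, ρ (θ 0 d)) ≤ range Φ)
    (h2 : (∑ d, ρ (θ 0 d)) ∘ₗ Φ = (Fintype.card F : ℚ) • Φ)
    (h3 : ∀ c, ρ (θ c 0) ∘ₗ Φ = Φ ∘ₗ Finsupp.lmapDomain ℚ ℚ (π c))
    (h4 : ∀ c, ∀ w ∈ ker Φ, Finsupp.lmapDomain ℚ ℚ (π c) w = w)
    (h5 : ∀ c ≠ 0, Nat.card {l // π c l = l} = f) :
    Module.Finite ℚ V ∧ finrank ℚ V + finrank ℚ (ker Φ) + (Fintype.card F - 1) * f =
      Fintype.card F * Nat.card Λ := by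
  classical
  have := Fintype.ofFinite Λ
  set N := ∑ d, ρ (θ 0 d) with hN
  obtain ⟨g, hg⟩ := h.rel ρ
  rw [← hN] at hg
  have hq : (Fintype.card F : ℚ) ≠ 0 := Nat.cast_ne_zero.2 Fintype.card_ne_zero
  have hfin : Module.Finite ℚ V := by
    let U : Submodule ℚ V := ⨆ i : F ⊕ F, (range Φ).map (ρ (Sum.elim g (θ · 0) i))
    have hU : ∀ (i : F ⊕ F) v, ρ (Sum.elim g (θ · 0) i) (N v) ∈ U := fun i v =>
      Submodule.mem_iSup_of_mem i (Submodule.mem_map_of_mem (h1 ⟨v, rfl⟩))
    refine ⟨(show U = ⊤ from eq_top_iff.2 fun v _ => ?_) ▸ Submodule.fg_iSup _ fun i =>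
      (Submodule.fg_range _).map _⟩
    have h6 := DFunLike.congr_fun hg v
    simp only [LinearMap.add_apply, End.natCast_apply, LinearMap.sum_apply, End.mul_apply] at h6
    rw [← U.smul_mem_iff hq, Nat.cast_smul_eq_nsmul, eq_sub_of_add_eq h6]
    refine sub_mem (add_mem ?_ (sum_mem fun b _ => hU (.inl b) _)) (sum_mem fun c _ => hU (.inr c) _)
    simpa [h.zero] using hU (.inr 0) v
  refine ⟨hfin, ?_⟩
  obtain ⟨s, hs⟩ := projective_lifting_property Φ.rangeRestrict (N.codRestrict _ fun v => h1 ⟨v, rfl⟩)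
    Φ.surjective_rangeRestrict
  have hs' : Φ ∘ₗ s = N := LinearMap.ext fun v => congrArg Subtype.val (DFunLike.congr_fun hs v)
  have hp : IsProj (ker Φ) (1 - (Fintype.card F : ℚ)⁻¹ • s ∘ₗ Φ) := by
    refine ⟨fun x => ?_, fun x hx => by simp [mem_ker.1 hx]⟩
    have h6 := DFunLike.congr_fun h2 x
    rw [← hs'] at h6
    simp only [comp_apply, LinearMap.smul_apply] at h6
    simp [h6, hq]
  have ht := hp.trace
  rw [map_sub, map_smul, trace_one, trace_comp_comm', hs', finrank_finsupp_self,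
    ← Nat.card_eq_fintype_card (α := Λ), smul_eq_mul] at ht
  have ht' : ∀ c ∈ Finset.univ.erase (0 : F), trace ℚ V (ρ (θ c 0) * N) =
      Fintype.card F * (f - finrank ℚ (ker Φ)) := by
    intro c hc
    have h6 : Finsupp.lmapDomain ℚ ℚ (π c) ∘ₗ (1 - (Fintype.card F : ℚ)⁻¹ • s ∘ₗ Φ) =
        1 - (Fintype.card F : ℚ)⁻¹ • s ∘ₗ Φ := LinearMap.ext fun x => h4 c _ (hp.map_mem x)
    have h7 := congrArg (trace ℚ _) h6
    rw [hp.trace, comp_sub, comp_smul, map_sub, map_smul, End.one_eq_id, comp_id, trace_lmapDomain,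
      h5 c (Finset.ne_of_mem_erase hc), ← comp_assoc, trace_comp_comm', ← comp_assoc, ← h3,
      comp_assoc, hs', smul_eq_mul] at h7
    rw [End.mul_eq_comp, ← h7]
    field_simp
    ring
  have h6 := congrArg (trace ℚ V) hg
  have h7 : ∀ b, trace ℚ V (ρ (g b) * N * ρ (g b)⁻¹) = trace ℚ V N := fun b => by
    rw [trace_mul_comm, ← mul_assoc, ← map_mul, inv_mul_cancel, map_one, one_mul]
  rw [map_add, map_add, map_sum _ (fun c => ρ (θ c 0) * N), map_sum _ (fun b => ρ (g b) * N * _),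
    ← Finset.add_sum_erase _ _ (Finset.mem_univ (0 : F)),
    Finset.sum_congr rfl ht', h.zero, map_one, one_mul, ← nsmul_one, map_nsmul, trace_one] at h6
  simp only [h7, Finset.sum_const, Finset.card_univ, nsmul_eq_mul,
    Finset.card_erase_of_mem (Finset.mem_univ _)] at h6
  have h8 : 1 ≤ Fintype.card F := Fintype.card_pos
  have h9 : trace ℚ V N = Fintype.card F * (Nat.card Λ - finrank ℚ (ker Φ)) := by
    rw [← ht]
    field_simp
    ring
  rw [h9, Nat.cast_sub h8] at h6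
  refine Nat.cast_injective (R := ℚ) (mul_left_cancel₀ hq ?_)
  push_cast [Nat.cast_sub h8] at h6 ⊢
  linear_combination h6

/-- The permutation representation. -/
noncomputable def perm (G ι : Type) [Group G] [MulAction G ι] : G →* End ℚ (ι →₀ ℚ) where
  toFun g := Finsupp.lmapDomain ℚ ℚ (g • ·)
  map_one' := by ext; simp
  map_mul' x y := by ext; simp [mul_smul]

theorem perm_single {ι : Type} [MulAction G ι] (g : G) (C : ι) (a : ℚ) :
    perm G ι g (Finsupp.single C a) = Finsupp.single (g • C) a := Finsupp.mapDomain_single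

theorem perm_apply {ι : Type} [MulAction G ι] (g : G) (w : ι →₀ ℚ) (C : ι) :
    perm G ι g w (g • C) = w C := Finsupp.mapDomain_apply (MulAction.injective g) w C

theorem Plane.rank (h : Plane θ) {ι Λ Ξ : Type} [MulAction G ι] [Finite Λ] [Finite Ξ]
    (b : ι → ι → ℚ) (hb : ∀ (g : G) C D, b (g • C) (g • D) = b C D) (S : Set ι) (C : Λ → ι)
    (fix : Λ → Prop) (L1 : ∀ D ∈ S, ∃ l d, θ 0 d • C l = D)
    (L2 : ∀ l m d, θ 0 d • C m = C l → l = m) (L3 : ∀ c l, θ c 0 • C l ∈ S)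
    (L4 : ∀ c ≠ 0, ∀ l, (∃ d, θ 0 d • C l = θ c 0 • C l) ↔ fix l)
    (L5 : ∀ d, ∀ D ∈ S, θ 0 d • D ∈ S)
    (gen : ∀ D ∉ S, ∃ w, Finsupp.linearCombination ℚ b w = 0 ∧ 0 < w D ∧
      ∀ E ∉ S, 0 ≤ w E ∧ (w E ≠ 0 → ∃ d, θ 0 d • D = E))
    (Dv : Ξ → ι →₀ ℚ) (K1 : LinearIndependent ℚ Dv) (K2 : ∀ x c d D, Dv x (θ c d • D) = Dv x D)
    (K3 : Submodule.span ℚ (Set.range Dv) =
      Finsupp.supported ℚ ℚ S ⊓ ker (Finsupp.linearCombination ℚ b)) :
    Module.Finite ℚ (range (Finsupp.linearCombination ℚ b)) ∧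
      Module.finrank ℚ (range (Finsupp.linearCombination ℚ b)) + Nat.card Ξ +
      (Fintype.card F - 1) * Nat.card {l // fix l} = Fintype.card F * Nat.card Λ := by
  classical
  have := Fintype.ofFinite Ξ
  set K := ker (Finsupp.linearCombination ℚ b) with hK
  have hq : (Fintype.card F : ℚ) ≠ 0 := Nat.cast_ne_zero.2 Fintype.card_ne_zero
  have hK1 : ∀ g, K ≤ K.comap (perm G ι g) := fun g w hw => by
    rw [Submodule.mem_comap, hK, mem_ker] at *
    funext D
    have := congrFun hw (g⁻¹ • D)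
    rw [perm, MonoidHom.coe_mk, OneHom.coe_mk, Finsupp.lmapDomain_apply,
      Finsupp.linearCombination_mapDomain]
    simp only [Finsupp.linearCombination_apply, Finsupp.sum, Finset.sum_apply, Pi.smul_apply,
      Function.comp_apply, Pi.zero_apply] at this ⊢
    rw [← this]
    refine Finset.sum_congr rfl fun E _ => ?_
    rw [← hb g E, smul_inv_smul]
  let ρ := Representation.quotient (perm G ι) K hK1
  have hρ : ∀ g w, ρ g (K.mkQ w) = K.mkQ (perm G ι g w) := fun g w => rfl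
  set N := ∑ d, perm G ι (θ 0 d) with hN
  have hN1 : ∀ w, (∑ d, ρ (θ 0 d)) (K.mkQ w) = K.mkQ (N w) := fun w => by
    simp only [hN, LinearMap.sum_apply, hρ, map_sum]
  have hc : ∀ c d, perm G ι (θ c d) * N = N * perm G ι (θ c d) := fun c d => by
    rw [hN, Finset.mul_sum, Finset.sum_mul]
    refine Finset.sum_congr rfl fun d' _ => ?_
    rw [← map_mul, ← map_mul, h.mul, h.mul, add_comm c, add_comm d]
  have hd : ∀ d, N * perm G ι (θ 0 d) = N := fun d => by
    rw [hN, Finset.sum_mul, ← Equiv.sum_comp (Equiv.addRight d) fun d => perm G ι (θ 0 d)]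
    refine Finset.sum_congr rfl fun d' _ => ?_
    rw [← map_mul, h.mul, add_zero]
    rfl
  have hNN : ∀ w, N (N w) = (Fintype.card F : ℚ) • N w := fun w => by
    nth_rewrite 2 [hN]
    simp only [LinearMap.sum_apply, map_sum, ← End.mul_apply, hd]
    simp [Nat.cast_smul_eq_nsmul]
  let Ψ : (Λ →₀ ℚ) →ₗ[ℚ] ι →₀ ℚ := N ∘ₗ Finsupp.lmapDomain ℚ ℚ C
  have hΨ : ∀ l a, Ψ (Finsupp.single l a) = N (Finsupp.single (C l) a) := fun l a => by simp [Ψ]
  have hΨ1 : ∀ w ∈ Finsupp.supported ℚ ℚ S, N w ∈ range Ψ := by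
    rw [Finsupp.supported_eq_span_single]
    refine fun w hw => (Submodule.span_le.2 ?_ : _ ≤ (range Ψ).comap N) hw
    rintro _ ⟨D, hD, rfl⟩
    obtain ⟨l, d, rfl⟩ := L1 D hD
    exact ⟨Finsupp.single l 1, by simp only [hΨ, ← perm_single, ← End.mul_apply, hd]⟩
  have hΨ2 : ∀ w, Ψ w ∈ Finsupp.supported ℚ ℚ S := fun w => by
    induction w using Finsupp.induction_linear with
    | zero => simp
    | add f g hf hg => rw [map_add]; exact add_mem hf hg
    | single l a =>
      rw [hΨ, hN, LinearMap.sum_apply]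
      refine sum_mem fun d _ => ?_
      rw [perm_single]
      exact Finsupp.single_mem_supported _ _ (L5 d _ (by simpa [h.zero] using L3 0 l))
  have hΨ3 : Function.Injective Ψ := by
    refine (injective_iff_map_eq_zero _).2 fun w hw => Finsupp.ext fun l => ?_
    have h1 : ∀ w, Ψ w (C l) = w l * N (Finsupp.single (C l) 1) (C l) := fun w => by
      induction w using Finsupp.induction_linear with
      | zero => simp
      | add f g hf hg => rw [map_add, Finsupp.add_apply, hf, hg, Finsupp.add_apply, add_mul]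
      | single m a =>
        rw [hΨ, ← Finsupp.smul_single_one (C m), map_smul, Finsupp.smul_apply, smul_eq_mul]
        by_cases h2 : m = l
        · rw [h2, Finsupp.single_eq_same]
        · rw [Finsupp.single_eq_of_ne' h2, zero_mul, hN, LinearMap.sum_apply,
            Finsupp.finsetSum_apply, Finset.sum_eq_zero, mul_zero]
          intro d _
          rw [perm_single]
          exact Finsupp.single_eq_of_ne' fun h3 => h2 (L2 l m d h3).symm
    have h2 : 0 < N (Finsupp.single (C l) 1) (C l) := by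
      rw [hN, LinearMap.sum_apply, Finsupp.finsetSum_apply]
      refine Finset.sum_pos' (fun d _ => ?_) ⟨0, Finset.mem_univ _, by simp [h.zero]⟩
      rw [perm_single, Finsupp.single_apply]
      split_ifs <;> simp
    have h3 := h1 w
    rw [hw] at h3
    exact (mul_eq_zero.1 h3.symm).resolve_right h2.ne'
  choose π e hπ using fun c l => L1 _ (L3 c l)
  have hπ1 : ∀ c w, perm G ι (θ c 0) (Ψ w) = Ψ (Finsupp.lmapDomain ℚ ℚ (π c) w) := fun c w => by
    induction w using Finsupp.induction_linear with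
    | zero => simp
    | add f g hf hg => simp only [map_add, hf, hg]
    | single l a =>
      rw [Finsupp.lmapDomain_apply, Finsupp.mapDomain_single, hΨ, hΨ, ← End.mul_apply, hc,
        End.mul_apply, perm_single, ← hπ, ← perm_single, ← End.mul_apply, hd]
  have hDv : ∀ c d, ∀ w ∈ Submodule.span ℚ (Set.range Dv), perm G ι (θ c d) w = w := by
    refine fun c d w hw => (Submodule.span_le.2 ?_ : _ ≤ eqLocus (perm G ι (θ c d)) id) hw
    rintro _ ⟨x, rfl⟩
    refine Finsupp.ext fun D => ?_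
    rw [← smul_inv_smul (θ c d) D, perm_apply, id_apply, K2]
  have hker : (ker (K.mkQ ∘ₗ Ψ)).map Ψ = Submodule.span ℚ (Set.range Dv) := by
    refine le_antisymm ?_ fun w hw => ?_
    · rintro _ ⟨w, hw, rfl⟩
      rw [K3]
      exact ⟨hΨ2 w, (Submodule.Quotient.mk_eq_zero K).1 hw⟩
    · have h1 : N w = (Fintype.card F : ℚ) • w := by
        simp [hN, LinearMap.sum_apply, hDv _ _ w hw, Nat.cast_smul_eq_nsmul]
      rw [K3] at hw
      obtain ⟨v, hv⟩ := (Submodule.smul_mem_iff _ hq).1 (h1 ▸ hΨ1 w hw.1)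
      exact ⟨v, (Submodule.Quotient.mk_eq_zero K).2 (hv ▸ hw.2), hv⟩
  have := h.dim ρ (K.mkQ ∘ₗ Ψ) π (Nat.card {l // fix l}) ?_ ?_ ?_ ?_ ?_
  · rw [← (Finsupp.linearCombination ℚ b).quotKerEquivRange.finrank_eq,
      Nat.card_eq_fintype_card (α := Ξ), ← finrank_span_eq_card K1, ← hker,
      ← (Submodule.equivMapOfInjective _ hΨ3 _).finrank_eq]
    exact ⟨have := this.1; .equiv (Finsupp.linearCombination ℚ b).quotKerEquivRange, this.2⟩
  · rintro _ ⟨v, rfl⟩
    obtain ⟨v, rfl⟩ := K.mkQ_surjective v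
    induction v using Finsupp.induction_linear with
    | zero => simp
    | add f g hf hg => rw [map_add, map_add]; exact add_mem hf hg
    | single D a =>
      rw [← Finsupp.smul_single_one, map_smul, map_smul, hN1]
      refine Submodule.smul_mem _ _ ?_
      by_cases hD : D ∈ S
      · obtain ⟨v, hv⟩ := hΨ1 _ (Finsupp.single_mem_supported ℚ (1 : ℚ) hD)
        exact ⟨v, congrArg K.mkQ hv⟩
      obtain ⟨w, h1, h2, h3⟩ := gen D hD
      obtain ⟨v, hv⟩ := hΨ1 (w.filter (· ∈ S)) fun E hE => by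
        simpa using (Finset.mem_filter.1 (Finsupp.support_filter (· ∈ S) w ▸ hE)).2
      have h4 : N (w.filter (· ∉ S)) = (∑ E ∈ w.support with E ∉ S, w E) •
          N (Finsupp.single D 1) := by
        rw [Finsupp.filter_eq_sum, map_sum, Finset.sum_smul]
        refine Finset.sum_congr rfl fun E hE => ?_
        obtain ⟨h5, h6⟩ := Finset.mem_filter.1 hE
        obtain ⟨d, rfl⟩ := (h3 E h6).2 (Finsupp.mem_support_iff.1 h5)
        rw [← Finsupp.smul_single_one, map_smul, ← perm_single, ← End.mul_apply, hd]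
      have h5 : 0 < ∑ E ∈ w.support with E ∉ S, w E :=
        Finset.sum_pos' (fun E hE => (h3 E (Finset.mem_filter.1 hE).2).1)
          ⟨D, Finset.mem_filter.2 ⟨Finsupp.mem_support_iff.2 h2.ne', hD⟩, h2⟩
      refine (Submodule.smul_mem_iff _ h5.ne').1 ⟨-v, ?_⟩
      rw [map_neg, comp_apply, hv, ← map_smul, ← h4, neg_eq_iff_add_eq_zero, ← map_add, ← map_add,
        Finsupp.filter_add_filter_not, ← hN1, show K.mkQ w = 0 from
          (Submodule.Quotient.mk_eq_zero K).2 h1, map_zero]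
  · refine LinearMap.ext fun w => ?_
    rw [comp_apply, comp_apply, hN1, LinearMap.smul_apply, comp_apply]
    exact (congrArg _ (hNN _)).trans (map_smul _ _ _)
  · exact fun c => LinearMap.ext fun w => congrArg K.mkQ (hπ1 c w)
  · exact fun c w hw => hΨ3 (by rw [← hπ1, hDv _ _ _ (hker ▸ Submodule.mem_map_of_mem hw)])
  · refine fun c hc => Nat.card_congr (Equiv.subtypeEquivRight fun l => ?_)
    rw [← L4 c hc]
    refine ⟨fun h1 => ⟨e c l, by rw [← hπ, h1]⟩, fun ⟨d, h1⟩ => (L2 _ _ (e c l - d) ?_).symm⟩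
    rw [← (MulAction.injective (θ 0 d)).eq_iff, h1, ← hπ, ← mul_smul, h.mul, add_zero,
      add_sub_cancel]

theorem zariski {ι : Type} (b : ι → ι → ℚ) (hb : ∀ C D, C ≠ D → 0 ≤ b C D) (f n : ι →₀ ℚ)
    (hf : ∀ C, 0 ≤ f C) (hs : n.support ⊆ f.support)
    (hf0 : ∀ C ∈ f.support, Finsupp.linearCombination ℚ b f C = 0)
    (hn0 : ∀ C ∈ f.support, Finsupp.linearCombination ℚ b n C = 0) (r : ι → ι → Prop)
    (hr : ∀ C D, r C D → C ≠ D → 0 < b D C)
    (conn : ∀ C ∈ f.support, ∀ D ∈ f.support, ∃ C' ∈ f.support, ∃ D' ∈ f.support,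
      r C C' ∧ r C' D' ∧ r D' D) : ∃ c : ℚ, n = c • f := by
  classical
  rcases f.support.eq_empty_or_nonempty with h0 | h0
  · exact ⟨0, by rw [zero_smul, ← Finsupp.support_eq_empty, ← Finset.subset_empty, ← h0]; exact hs⟩
  obtain ⟨C, hC, hmax⟩ := f.support.exists_max_image (fun C => n C / f C) h0
  have hpos : ∀ D ∈ f.support, 0 < f D := fun D hD =>
    lt_of_le_of_ne (hf D) (Finsupp.mem_support_iff.1 hD).symm
  set m := (n C / f C) • f - n with hm
  have h1 : ∀ D, 0 ≤ m D := fun D => by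
    rw [hm, Finsupp.sub_apply, Finsupp.smul_apply, smul_eq_mul, sub_nonneg]
    by_cases hD : D ∈ f.support
    · exact (div_le_iff₀ (hpos D hD)).1 (hmax D hD)
    · rw [Finsupp.notMem_support_iff.1 hD, Finsupp.notMem_support_iff.1 fun h => hD (hs h),
        mul_zero]
  have h2 : ∀ D ∈ f.support, ∀ D', m D = 0 → r D D' → m D' = 0 := by
    intro D hD D' h3 h4
    by_contra h5
    have h6 : Finsupp.linearCombination ℚ b m D = 0 := by
      rw [hm, map_sub, map_smul, Pi.sub_apply, Pi.smul_apply, hf0 D hD, hn0 D hD, smul_zero,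
        sub_zero]
    rw [Finsupp.linearCombination_apply, Finsupp.sum, Finset.sum_apply] at h6
    refine (Finset.sum_pos' (fun E hE => ?_) ⟨D', Finsupp.mem_support_iff.2 h5, ?_⟩).ne' h6
    · exact mul_nonneg (h1 E) (hb E D fun h7 => Finsupp.mem_support_iff.1 hE (h7 ▸ h3))
    · exact mul_pos (lt_of_le_of_ne (h1 D') (Ne.symm h5)) (hr D D' h4 fun h7 => h5 (h7 ▸ h3))
  have h3 : m C = 0 := by
    rw [hm, Finsupp.sub_apply, Finsupp.smul_apply, smul_eq_mul, div_mul_cancel₀ _ (hpos C hC).ne',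
      sub_self]
  refine ⟨n C / f C, (sub_eq_zero.1 (Finsupp.ext fun D => ?_ : m = 0)).symm⟩
  by_cases hD : D ∈ f.support
  · obtain ⟨C', h4, D', h5, h6, h7, h8⟩ := conn C hC D hD
    exact h2 D' h5 D (h2 C' h4 D' (h2 C hC C' h3 h6) h7) h8
  · rw [hm, Finsupp.sub_apply, Finsupp.smul_apply, Finsupp.notMem_support_iff.1 hD,
      Finsupp.notMem_support_iff.1 fun h => hD (hs h)]
    simp

end Pool.Agent.Lib.MP_557161_ag.G2
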