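import Mathlib
import Pool.Agent.Lib.MP_557161_ag.G2.Chart
import Pool.Agent.Lib.MP_557161_ag.G2.Fact

/-!
The scheme is a smooth surface.
-/

namespace Pool.Agent.Lib.MP_557161_ag.G2

open MvPolynomial IsLocalRing

variable {k : Type} [Field k] {q : ℕ}

theorem br_hom {f g : MvPolynomial (Fin 7) k} (hf : f.IsHomogeneous 1) (hg : g.IsHomogeneous 1) :
    (br q f g).IsHomogeneous (1 + 1 * q) :=
  (hf.mul (hg.pow q)).sub (hg.mul (hf.pow q))

theorem homog_ideal : Homog (ideal k q) := by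
  refine homog_span ?_
  rintro _ ⟨i, rfl⟩
  have h := fun j => isHomogeneous_X (σ := Fin 7) k j
  have h1 := fun i j => (h i).mul ((h j).pow q)
  have h2 := fun i j => (h i).mul (h j)
  fin_cases i
  · exact ⟨1 + 1, ((((h 0).pow 2).add (h2 1 4)).add (h2 2 5)).add (h2 3 6)⟩
  · exact ⟨_, (((h1 0 0).add (h1 1 4)).add (h1 2 5)).add (h1 3 6)⟩
  · exact ⟨_, (((h1 0 0).add (h1 4 1)).add (h1 5 2)).add (h1 6 3)⟩
  all_goals exact ⟨_, (br_hom (h _) (h _)).sub (br_hom (h _) (h _))⟩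

variable [FQ k q]

theorem exists_chart {i : Fin 7} (hi : i ≠ 0) :
    ∃ v : Fin 7 → Chart (ideal k q) i, IsChart k q v 4 := by
  have h := isChart (k := k) (q := q) i
  fin_cases i
  · exact absurd rfl hi
  · exact ⟨_, ((h.tau (i := 6) fun _ _ _ => rfl).cyc (i := 5) fun _ _ => rfl).cyc fun _ _ => rfl⟩
  · exact ⟨_, (h.tau (i := 5) fun _ _ _ => rfl).cyc fun _ _ => rfl⟩
  · exact ⟨_, h.tau fun _ _ _ => rfl⟩
  · exact ⟨_, h⟩
  · exact ⟨_, h.cyc fun _ _ => rfl⟩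
  · exact ⟨_, (h.cyc (i := 5) fun _ _ => rfl).cyc fun _ _ => rfl⟩

theorem smooth_chart {i : Fin 7} (hi : i ≠ 0) : Algebra.Smooth k (Chart (ideal k q) i) := by
  obtain ⟨v, hv⟩ := exists_chart (k := k) (q := q) hi
  exact ⟨hv.formallySmooth, Algebra.FinitePresentation.quotient (IsNoetherian.noetherian _)⟩

omit [FQ k q] in
theorem X_zero_mem {P : Ideal (MvPolynomial (Fin 7) k)} (hP : P.IsPrime) (hI : ideal k q ≤ P)
    (h1 : X 1 ∈ P ∨ X 4 ∈ P) (h2 : X 2 ∈ P ∨ X 5 ∈ P) (h3 : X 3 ∈ P ∨ X 6 ∈ P) : X 0 ∈ P := by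
  have h := ((ev_iff (q := q) (Ideal.Quotient.mk P)).2 (by rwa [Ideal.mk_ker])).q0
  simp only [← Ideal.Quotient.eq_zero_iff_mem] at h1 h2 h3 ⊢
  rw [mul_eq_zero.2 h1, mul_eq_zero.2 h2, mul_eq_zero.2 h3] at h
  simpa using h

instance [Finite k] : Surf (ideal k q) {i | i ≠ 0} where
  hom := homog_ideal
  cov P hP hI h j := by
    by_cases hj : j = 0
    · rw [hj]
      exact X_zero_mem hP hI (.inl (h 1 (by decide))) (.inl (h 2 (by decide)))
        (.inl (h 3 (by decide)))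
    · exact h j hj
  good p := by
    obtain ⟨v, hv⟩ := exists_chart (k := k) (q := q) p.hi
    have := p.hm
    exact hv.good p.m p.O

end Pool.Agent.Lib.MP_557161_ag.G2
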