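import Mathlib
import Pool.Agent.Lib.MP_557161_ag.G2.Srf
import Pool.Agent.Lib.MP_557161_ag.G2.Cls
import Pool.Agent.Lib.MP_557161_ag.G2.LinAlg

/-!
The symmetries of the surface.
-/

namespace Pool.Agent.Lib.MP_557161_ag.G2

open MvPolynomial

/-- The field contains the field with `q ^ 6` elements. -/
class Big (k : Type) [Field k] (q : ℕ) : Prop extends FQ k q where
  card : ∀ i, i ∣ 6 → Nat.card {x : k // x ^ q ^ i = x} = q ^ i

variable {k : Type} [Field k] {q : ℕ}

theorem root_mem [Big k q] {K : Type} [Field K] [Algebra k K] {i : ℕ} (hi : i ∣ 6) {z : K}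
    (h : z ^ q ^ i = z) : ∃ x : k, x ^ q ^ i = x ∧ algebraMap k K x = z := by
  classical
  have hq : 2 ≤ q ^ i := ((FQ.fr (k := k) (q := q) k).pow (ne_zero_of_dvd_ne_zero (by decide) hi)).two
  have hc := Big.card (k := k) (q := q) i hi
  have := Nat.finite_of_card_ne_zero (hc ▸ (by omega : q ^ i ≠ 0))
  have := Fintype.ofFinite {x : k // x ^ q ^ i = x}
  have h0 := FiniteField.X_pow_card_sub_X_ne_zero K hq
  have h1 : (Finset.univ.image fun x : {x : k // x ^ q ^ i = x} => algebraMap k K x) =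
      (Polynomial.X ^ q ^ i - Polynomial.X : Polynomial K).roots.toFinset := by
    refine Finset.eq_of_subset_of_card_le (fun y hy => ?_) ?_
    · obtain ⟨x, -, rfl⟩ := Finset.mem_image.1 hy
      simp [h0, ← map_pow, x.2]
    · rw [Finset.card_image_of_injective _ fun x y h => Subtype.ext ((algebraMap k K).injective h),
        Finset.card_univ, ← Nat.card_eq_fintype_card, hc]
      exact (Multiset.toFinset_card_le _).trans ((Polynomial.card_roots' _).trans
        (FiniteField.X_pow_card_sub_X_natDegree_eq K hq).le)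
  obtain ⟨x, -, hx⟩ := Finset.mem_image.1 (h1 ▸ (by simp [h0, h] :
    z ∈ (Polynomial.X ^ q ^ i - Polynomial.X : Polynomial K).roots.toFinset))
  exact ⟨x, x.2, hx⟩

variable (k q) in
/-- The field with `q` elements. -/
def Fq [FQ k q] : Subfield k where
  carrier := {x | x ^ q = x}
  mul_mem' := fun {a b} ha hb => by
    rw [Set.mem_ofPred_eq, mul_pow, show a ^ q = a from ha, show b ^ q = b from hb]
  one_mem' := one_pow q
  add_mem' := fun {a b} ha hb => by
    rw [Set.mem_ofPred_eq, (FQ.fr (k := k) k).add, show a ^ q = a from ha, show b ^ q = b from hb]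
  zero_mem' := (FQ.fr (k := k) k).zero
  neg_mem' := fun {a} ha => by
    rw [Set.mem_ofPred_eq, (FQ.fr (k := k) k).neg, show a ^ q = a from ha]
  inv_mem' := fun a ha => by rw [Set.mem_ofPred_eq, inv_pow, show a ^ q = a from ha]

theorem Fq.pow [FQ k q] (c : Fq k q) {R : Type} [CommRing R] [Algebra k R] :
    algebraMap k R c ^ q = algebraMap k R c := by rw [← map_pow, show (c : k) ^ q = c from c.2]

theorem card_Fq [Big k q] : Nat.card (Fq k q) = q := by
  have := Big.card (k := k) (q := q) 1 (one_dvd _)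
  rwa [pow_one] at this

theorem root_mem_one [Big k q] {K : Type} [Field K] [Algebra k K] {z : K} (h : z ^ q = z) :
    ∃ x : Fq k q, algebraMap k K x = z := by
  obtain ⟨x, h1, h2⟩ := root_mem (k := k) (q := q) (one_dvd 6) (z := z) (by rwa [pow_one])
  exact ⟨⟨x, by rwa [pow_one] at h1⟩, h2⟩

theorem ev_ker {B : Type} [CommRing B] [Algebra k B] {ψ : MvPolynomial (Fin 7) k →ₐ[k] B}
    (h : ideal k q ≤ RingHom.ker ψ) :
    E q (ψ (X 0)) (ψ (X 1)) (ψ (X 2)) (ψ (X 3)) (ψ (X 4)) (ψ (X 5)) (ψ (X 6)) :=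
  (ev_iff ψ.toRingHom).2 h

theorem pres {s : Fin 7 → MvPolynomial (Fin 7) k}
    (h : ∀ ψ : MvPolynomial (Fin 7) k →ₐ[k] MvPolynomial (Fin 7) k ⧸ ideal k q,
      E q (ψ (X 0)) (ψ (X 1)) (ψ (X 2)) (ψ (X 3)) (ψ (X 4)) (ψ (X 5)) (ψ (X 6)) →
        EV q fun j => ψ (s j)) :
    ∀ f ∈ ideal k q, aeval s f ∈ ideal k q := fun f hf =>
  Ideal.Quotient.eq_zero_iff_mem.1 ((ev_iff ((Ideal.Quotient.mkₐ k (ideal k q)).comp
    (aeval s)).toRingHom).1 (by
      simpa using h _ (ev_ker (ψ := Ideal.Quotient.mkₐ k (ideal k q))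
        fun _ hf => Ideal.Quotient.eq_zero_iff_mem.2 hf)) hf)

theorem lin_add (i j : Fin 7) (c : k) : (X i + C c * X j : MvPolynomial (Fin 7) k).IsHomogeneous 1 :=
  (isHomogeneous_X k i).add (isHomogeneous_C_mul_X c j)

theorem lin_sub (i j : Fin 7) (c : k) : (X i - C c * X j : MvPolynomial (Fin 7) k).IsHomogeneous 1 :=
  (isHomogeneous_X k i).sub (isHomogeneous_C_mul_X c j)

variable [FQ k q]

/-- The substitution that defines `theta`. -/
noncomputable def thV (c d : k) : Fin 7 → MvPolynomial (Fin 7) k :=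
  ![X 0, X 1 + C c * X 2 + C d * X 3, X 2, X 3, X 4, X 5 - C c * X 4, X 6 - C d * X 4]

omit [FQ k q] in
theorem thV_hom (c d : k) (j : Fin 7) : (thV c d j).IsHomogeneous 1 := by
  fin_cases j
  exacts [isHomogeneous_X _ _, (lin_add _ _ _).add (isHomogeneous_C_mul_X _ _), isHomogeneous_X _ _,
    isHomogeneous_X _ _, isHomogeneous_X _ _, lin_sub _ _ _, lin_sub _ _ _]

omit [FQ k q] in
theorem thV_mul (c d c' d' : k) (j : Fin 7) :
    aeval (thV c d) (thV c' d' j) = thV (c + c') (d + d') j := by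
  fin_cases j <;> simp [thV] <;> ring

omit [FQ k q] in
theorem thV_zero (j : Fin 7) : thV (0 : k) 0 j = X j := by
  fin_cases j <;> simp [thV]

theorem thV_pres (c d : Fq k q) : ∀ f ∈ ideal k q, aeval (thV (c : k) d) f ∈ ideal k q :=
  pres fun _ h => by simpa [EV, thV] using h.theta (FQ.fr (k := k) _) (Fq.pow c) (Fq.pow d)

/-- The elements of the abelian group of symmetries. -/
noncomputable def theta (c d : Fq k q) : Aut (ideal k q) :=
  mkAut (thV c d) (thV (-c : Fq k q) (-d : Fq k q)) (thV_hom _ _) (thV_hom _ _)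
    (fun j => by rw [thV_mul]; simp [thV_zero]) (fun j => by rw [thV_mul]; simp [thV_zero])
    (thV_pres c d) (thV_pres (-c) (-d))

theorem theta_apply (c d : Fq k q) (f : MvPolynomial (Fin 7) k) :
    (theta c d).1 f = aeval (thV (c : k) d) f := rfl

/-- The substitution that defines the shear. -/
noncomputable def kaV (b : k) : Fin 7 → MvPolynomial (Fin 7) k :=
  ![X 0, X 1, X 2 + C b * X 3, X 3, X 4, X 5, X 6 - C b * X 5]

theorem plane_theta : Plane (theta (k := k) (q := q)) := by
  refine ⟨fun c d c' d' => aut_ext fun j => ?_, ?_, fun b => ?_⟩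
  · change (theta c d).1 ((theta c' d').1 _) = _
    rw [theta_apply, theta_apply, theta_apply, aeval_X, aeval_X, thV_mul]
    rfl
  · have hq := FQ.fr (k := k) (q := q) (MvPolynomial (Fin 7) k ⧸ ideal k q)
    refine ⟨mkAut ![X 0, X 1, X 3, -X 2, X 4, X 6, -X 5] ![X 0, X 1, -X 3, X 2, X 4, -X 6, X 5]
      (fun j => ?_) (fun j => ?_) (fun j => ?_) (fun j => ?_)
      (pres fun _ h => by simpa [EV] using h.swap hq)
      (pres fun _ h => by simpa [EV] using ((h.swap hq).swap hq).swap hq), fun d => aut_ext fun j => ?_⟩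
    · fin_cases j <;> first | exact isHomogeneous_X _ _ | exact (isHomogeneous_X _ _).neg
    · fin_cases j <;> first | exact isHomogeneous_X _ _ | exact (isHomogeneous_X _ _).neg
    · fin_cases j <;> simp
    · fin_cases j <;> simp
    · change aeval _ (aeval _ _) = aeval _ (aeval _ _)
      fin_cases j <;> simp [thV] <;> ring
  · have h1 : ∀ (b : k) j, (kaV b j).IsHomogeneous 1 := fun b j => by
      fin_cases j
      exacts [isHomogeneous_X _ _, isHomogeneous_X _ _, lin_add _ _ _, isHomogeneous_X _ _,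
        isHomogeneous_X _ _, isHomogeneous_X _ _, lin_sub _ _ _]
    have h2 : ∀ b : Fq k q, ∀ f ∈ ideal k q, aeval (kaV (b : k)) f ∈ ideal k q := fun b =>
      pres fun _ h => by simpa [EV, kaV] using h.kappa (FQ.fr (k := k) _) (Fq.pow b)
    refine ⟨mkAut (kaV b) (kaV (-b : Fq k q)) (h1 _) (h1 _) (fun j => ?_) (fun j => ?_) (h2 b)
      (h2 (-b)), fun c => aut_ext fun j => ?_⟩
    · fin_cases j <;> simp [kaV]
    · fin_cases j <;> simp [kaV]
    · change aeval _ (aeval _ _) = aeval _ (aeval _ _)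
      fin_cases j <;> simp [thV, kaV] <;> ring

end Pool.Agent.Lib.MP_557161_ag.G2
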