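import Mathlib
import Pool.Agent.Lib.MP_557161_ag.G2.Sym
import Pool.Agent.Lib.MP_557161_ag.G2.Alg

/-!
Labels for the components of the special members of the pencil.
-/

namespace Pool.Agent.Lib.MP_557161_ag.G2

open MvPolynomial

variable (k : Type) [Field k] (q : ℕ)

/-- The finite special values. -/
abbrev Xi : Type := {x : k // (x ^ q) ^ q = x ∨ ((x ^ q) ^ q) ^ q = x}

/-- The labels. -/
abbrev Lab [FQ k q] : Type :=
  (Unit ⊕ Fq k q ⊕ Fq k q × Fq k q) ⊕ Fq k q × Fq k q ⊕ Fq k q × Fq k q × Fq k q ⊕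
    {x : k // (x ^ q) ^ q = x ∧ x ^ q ≠ x} × {y : k // (y ^ q) ^ q = y} ⊕
    {x : k // ((x ^ q) ^ q) ^ q = x ∧ x ^ q ≠ x} × Fq k q

/-- The invariant function. -/
noncomputable def sig : MvPolynomial (Fin 7) k := Dq (X 3 ^ q) ((X 3 ^ q) ^ q) (X 2) (X 0) (X 5)

/-- The parameter on the irrational special fibres. -/
noncomputable def par : MvPolynomial (Fin 7) k := Dq (X 3) ((X 3 ^ q) ^ q) (X 2) (X 0) (X 5)

variable {k q}

/-- The special members of the pencil. -/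
noncomputable def ell : Option (Xi k q) → MvPolynomial (Fin 7) k
  | none => X 4
  | some x => X 3 - C x.1 * X 4

theorem ell_hom (x : Option (Xi k q)) : (ell x).IsHomogeneous 1 := by
  cases x
  exacts [isHomogeneous_X _ _, lin_sub _ _ _]

section

variable [FQ k q]

/-- The chart of a label. -/
def idx : Lab k q → Fin 7
  | .inl (.inl _) => 6
  | .inl (.inr (.inl _)) => 5
  | .inl (.inr (.inr _)) => 3
  | .inr (.inl _) => 2
  | .inr (.inr _) => 4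

/-- The equations of a label. -/
def cnd : Lab k q → Set (MvPolynomial (Fin 7) k)
  | .inl (.inl _) => {X 4, X 3, X 2, X 5}
  | .inl (.inr (.inl c)) => {X 4, X 3, X 2, X 6 - C c.1}
  | .inl (.inr (.inr c)) => {X 4, X 0 - C c.1.1, X 2 - C c.2.1}
  | .inr (.inl c) => {X 4, X 3, X 0 - C c.1.1, X 1 + X 0 * X 6 - C c.2.1}
  | .inr (.inr (.inl c)) => {X 3 - C c.1.1, sig k q - C c.2.1.1, X 0 - X 3 * X 2 - C c.2.2.1}
  | .inr (.inr (.inr (.inl c))) => {X 3 - C c.1.1, sig k q - C c.2.1}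
  | .inr (.inr (.inr (.inr c))) => {X 3 - C c.1.1, sig k q - C c.2.1}

/-- The parameter of a label. -/
noncomputable def prm : Lab k q → MvPolynomial (Fin 7) k
  | .inl (.inl _) => X 1
  | .inl (.inr (.inl _)) => X 1
  | .inl (.inr (.inr _)) => X 5
  | .inr (.inl _) => X 6
  | .inr (.inr (.inl _)) => X 2
  | .inr (.inr (.inr _)) => par k q

/-- The equations of a label for a vector. -/
def LabV {K : Type} [Field K] [Algebra k K] (a u1 u2 u3 w1 w2 w3 : K) : Lab k q → Prop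
  | .inl (.inl _) => w1 = 0 ∧ u3 = 0 ∧ u2 = 0 ∧ w2 = 0
  | .inl (.inr (.inl c)) => w1 = 0 ∧ u3 = 0 ∧ u2 = 0 ∧ w3 = algebraMap k K c
  | .inl (.inr (.inr c)) => w1 = 0 ∧ a = algebraMap k K c.1 ∧ u2 = algebraMap k K c.2
  | .inr (.inl c) => w1 = 0 ∧ u3 = 0 ∧ a = algebraMap k K c.1 ∧ u1 + a * w3 = algebraMap k K c.2
  | .inr (.inr (.inl c)) => u3 = algebraMap k K c.1 ∧
      Dq (u3 ^ q) ((u3 ^ q) ^ q) u2 a w2 = algebraMap k K c.2.1 ∧
      a - u3 * u2 = algebraMap k K c.2.2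
  | .inr (.inr (.inr (.inl c))) => u3 = algebraMap k K c.1 ∧
      Dq (u3 ^ q) ((u3 ^ q) ^ q) u2 a w2 = algebraMap k K c.2
  | .inr (.inr (.inr (.inr c))) => u3 = algebraMap k K c.1 ∧
      Dq (u3 ^ q) ((u3 ^ q) ^ q) u2 a w2 = algebraMap k K c.2

/-- The point has the label. -/
def Has (P : Pt (ideal k q)) (l : Lab k q) : Prop := InC (idx l) (cnd l) 1 P

variable {K : Type} [Field K] [Algebra k K] {ψ ψ' : MvPolynomial (Fin 7) k →ₐ[k] K}

omit [FQ k q] in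
theorem map_sig : ψ (sig k q) =
    Dq (ψ (X 3) ^ q) ((ψ (X 3) ^ q) ^ q) (ψ (X 2)) (ψ (X 0)) (ψ (X 5)) := by simp [sig, Dq]

omit [FQ k q] in
theorem map_par : ψ (par k q) =
    Dq (ψ (X 3)) ((ψ (X 3) ^ q) ^ q) (ψ (X 2)) (ψ (X 0)) (ψ (X 5)) := by simp [par, Dq]

theorem cnd_iff (l : Lab k q) : (∀ f ∈ cnd l, ψ f = 0) ↔
    LabV (ψ (X 0)) (ψ (X 1)) (ψ (X 2)) (ψ (X 3)) (ψ (X 4)) (ψ (X 5)) (ψ (X 6)) l := by
  rcases l with (_ | c | c) | c | c | c | c <;>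
    simp only [cnd, LabV, Set.mem_insert_iff, Set.mem_singleton_iff, forall_eq_or_imp, forall_eq,
      map_sub, map_add, map_mul, algHom_C, sub_eq_zero, map_sig]

theorem has_iff {P : Pt (ideal k q)} {l : Lab k q} (h : Rep P (idx l) ψ) : Has P l ↔
    LabV (ψ (X 0)) (ψ (X 1)) (ψ (X 2)) (ψ (X 3)) (ψ (X 4)) (ψ (X 5)) (ψ (X 6)) l := by
  rw [← cnd_iff]
  exact ⟨fun h1 f hf => (h.aff_iff f).2 (h1.2.1 f hf), fun h1 => ⟨h.notMem,
    fun f hf => (h.aff_iff f).1 (h1 f hf), (Ideal.ne_top_iff_one _).1 P.2.1.ne_top⟩⟩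

theorem det_of {d : Fq k q} (h0 : ψ' (X 0) = ψ (X 0))
    (h1 : ψ' (X 1) + algebraMap k K d * ψ' (X 3) = ψ (X 1)) (h2 : ψ' (X 2) = ψ (X 2))
    (h3 : ψ' (X 3) = ψ (X 3)) (h4 : ψ' (X 4) = ψ (X 4)) (h5 : ψ' (X 5) = ψ (X 5))
    (h6 : ψ' (X 6) - algebraMap k K d * ψ' (X 4) = ψ (X 6)) :
    ∃ γ ∈ Set.range (theta (k := k) (q := q) 0), ∀ j, ψ' (γ.1 (X j)) = ψ (X j) := by
  refine ⟨_, ⟨d, rfl⟩, fun j => ?_⟩
  rw [theta_apply, aeval_X]
  fin_cases j <;> simp [thV, h0, h1, h2, h5, h6] <;> assumption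

end

variable [Big k q] {K : Type} [Field K] [Algebra k K] {ψ ψ' : MvPolynomial (Fin 7) k →ₐ[k] K}

theorem det_four (h : ideal k q ≤ RingHom.ker ψ) (h' : ideal k q ≤ RingHom.ker ψ')
    (h4 : ψ (X 4) = 1) (h4' : ψ' (X 4) = 1) (h3 : ψ' (X 3) = ψ (X 3))
    (h0 : ψ (X 2) - ψ' (X 2) = 0 ∧ ψ (X 0) - ψ' (X 0) = 0 ∧ ψ (X 5) - ψ' (X 5) = 0) :
    ∃ γ ∈ Set.range (theta (k := k) (q := q) 0), ∀ j, ψ' (γ.1 (X j)) = ψ (X j) := by
  simp only [sub_eq_zero] at h0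
  obtain ⟨h2, h0, h5⟩ := h0
  have e := ev_ker h
  have e' := ev_ker h'
  rw [h4] at e
  rw [h4', h3, ← h2, ← h0, ← h5] at e'
  obtain ⟨d, hd⟩ := root_mem_one (k := k) (q := q) (z := ψ' (X 6) - ψ (X 6)) (by
    rw [(FQ.fr (k := k) K).sub]
    linear_combination e'.chart.2.2.1 - e.chart.2.2.1)
  refine det_of (d := d) h0.symm ?_ h2.symm h3 (h4'.trans h4.symm) h5.symm ?_
  · rw [hd, h3]
    linear_combination e'.q0 - e.q0
  · rw [hd, h4']
    ring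

theorem rel_sub (h : ideal k q ≤ RingHom.ker ψ) (h' : ideal k q ≤ RingHom.ker ψ')
    (h4 : ψ (X 4) = 1) (h4' : ψ' (X 4) = 1) (h3 : ψ' (X 3) = ψ (X 3)) :
    Rel q (ψ (X 3)) (ψ (X 2) - ψ' (X 2)) (ψ (X 0) - ψ' (X 0)) (ψ (X 5) - ψ' (X 5)) := by
  have e := ev_ker h
  have e' := ev_ker h'
  rw [h4] at e
  rw [h4', h3] at e'
  exact e.rel.sub (FQ.fr (k := k) K) e'.rel

theorem cls_zero : Cls (I := ideal k q) {1} 6 (cnd (q := q) (.inl (.inl ()))) 1 ![X 1] := by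
  refine ⟨⟨_, isHomogeneous_one _ _⟩, fun K _ _ ψ ψ' h h' hi hi' hs hs' _ ht => ⟨1, rfl, ?_⟩⟩
  obtain ⟨h4, h3, h2, h5⟩ := (cnd_iff _).1 hs
  obtain ⟨h4', h3', h2', h5'⟩ := (cnd_iff _).1 hs'
  have e := (ev_ker h).q0
  have e' := (ev_ker h').q0
  have h1 : ψ (X 1) = ψ' (X 1) := ht 0
  simp only [h4, h3, h2, h4', h3', h2', mul_zero, zero_mul, add_zero, pow_eq_zero_iff two_ne_zero]
    at e e'
  intro j
  fin_cases j <;> simp [*]

theorem cls (l : Lab k q) :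
    Cls (Set.range (theta (k := k) (q := q) 0)) (idx l) (cnd l) 1 ![prm l] := by
  refine ⟨⟨_, isHomogeneous_one _ _⟩, fun K _ _ ψ ψ' h h' hi hi' hs hs' hδ ht => ?_⟩
  have hq := FQ.fr (k := k) (q := q) K
  have e := ev_ker h
  have e' := ev_ker h'
  have h1 : ψ (prm l) = ψ' (prm l) := ht 0
  rcases l with (_ | c | c) | c | c | c | c
  · exact (cls_zero.mono (by rintro _ rfl; exact ⟨0, plane_theta.zero⟩)).det K ψ ψ' h h' hi hi' hs
      hs' hδ ht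
  all_goals
    rw [cnd_iff] at hs hs'
    simp only [idx, prm, LabV, map_par] at hi hi' hs hs' h1
  · obtain ⟨h4, h3, h2, h5⟩ := hs
    obtain ⟨h4', h3', h2', h5'⟩ := hs'
    have e := e.q0
    have e' := e'.q0
    simp only [h4, h3, h2, h4', h3', h2', mul_zero, zero_mul, add_zero,
      pow_eq_zero_iff two_ne_zero] at e e'
    refine det_of (d := 0) ?_ ?_ ?_ ?_ ?_ ?_ ?_ <;> simp [*]
  · obtain ⟨h4, h0, h2⟩ := hs
    obtain ⟨h4', h0', h2'⟩ := hs'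
    rw [h4, h0, h2, hi] at e
    rw [h4', h0', h2', hi', ← h1] at e'
    obtain ⟨d, hd⟩ := root_mem_one (k := k) (q := q) (z := ψ (X 1) - ψ' (X 1)) (by
      rw [hq.sub]
      linear_combination e'.h2 - e.h2)
    refine det_of (d := d) ?_ ?_ ?_ ?_ ?_ ?_ ?_
    all_goals try simp [*]
    linear_combination e'.q0 - e.q0
  · obtain ⟨h4, h3, h0, h5⟩ := hs
    obtain ⟨h4', h3', h0', h5'⟩ := hs'
    rw [h4, h0, h3, hi] at e
    rw [h4', h0', h3', hi'] at e'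
    rw [h0] at h5
    rw [h0', ← h1] at h5'
    refine det_of (d := 0) ?_ ?_ ?_ ?_ ?_ ?_ ?_
    all_goals try simp [*]
    · linear_combination h5' - h5
    · linear_combination e'.q0 - e.q0
  · obtain ⟨h3, h5, h0⟩ := hs
    obtain ⟨h3', h5', h0'⟩ := hs'
    rw [h3', ← h3, ← h1] at h5' h0'
    have h6 : ψ (X 0) = ψ' (X 0) := by linear_combination h0 - h0'
    refine det_four h h' hi hi' (h3'.trans h3.symm) ⟨sub_eq_zero.2 h1, sub_eq_zero.2 h6, ?_⟩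
    rw [← h6, Dq] at h5'
    rw [Dq] at h5
    linear_combination h5' - h5
  · obtain ⟨h3, h5⟩ := hs
    obtain ⟨h3', h5'⟩ := hs'
    have h6 := h3'.trans h3.symm
    rw [h6] at h5' h1
    refine det_four h h' hi hi' h6 ((rel_sub h h' hi hi' h6).quad hq ?_ ?_
      (Dq_sub (h5.trans h5'.symm)) (Dq_sub h1))
    · rw [h3, ← map_pow]
      exact (algebraMap k K).injective.ne c.1.2.2
    · rw [h3, ← map_pow, ← map_pow, c.1.2.1]
  · obtain ⟨h3, h5⟩ := hs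
    obtain ⟨h3', h5'⟩ := hs'
    have h6 := h3'.trans h3.symm
    rw [h6] at h5' h1
    refine det_four h h' hi hi' h6 ((rel_sub h h' hi hi' h6).cub hq ?_ ?_
      (Dq_sub (h5.trans h5'.symm)) (Dq_sub h1))
    · rw [h3, ← map_pow]
      exact (algebraMap k K).injective.ne c.1.2.2
    · rw [h3, ← map_pow, ← map_pow, ← map_pow, c.1.2.1]

theorem root_mem_two {z : K} (h : (z ^ q) ^ q = z) :
    ∃ x : k, (x ^ q) ^ q = x ∧ algebraMap k K x = z := by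
  simpa only [pow_two q, pow_mul] using root_mem (k := k) (q := q) (i := 2) (by decide) (z := z)
    (by rwa [pow_two q, pow_mul])

theorem root_mem_three {z : K} (h : ((z ^ q) ^ q) ^ q = z) :
    ∃ x : k, ((x ^ q) ^ q) ^ q = x ∧ algebraMap k K x = z := by
  simpa only [pow_three' q, pow_mul] using root_mem (k := k) (q := q) (i := 3) (by decide) (z := z)
    (by rwa [pow_three' q, pow_mul, pow_mul])

theorem cls_gen [Fintype (Xi k q)] : Cls (Set.range (theta (k := k) (q := q) 0)) 4 ∅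
    (∏ x : Xi k q, ell (some x)) ![X 3, sig k q] := by
  refine ⟨⟨_, IsHomogeneous.prod _ _ (fun _ => 1) fun x _ => ell_hom _⟩,
    fun K _ _ ψ ψ' h h' hi hi' _ _ hδ ht => ?_⟩
  have h3 : ψ (X 3) = ψ' (X 3) := ht 0
  have h5 : ψ (sig k q) = ψ' (sig k q) := ht 1
  rw [map_sig, map_sig, ← h3] at h5
  rw [map_prod, Finset.prod_ne_zero_iff] at hδ
  refine det_four h h' hi hi' h3.symm ((rel_sub h h' hi hi' h3.symm).gen (FQ.fr (k := k) K)
    (fun h6 => ?_) (fun h6 => ?_) (Dq_sub h5))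
  · obtain ⟨x, h7, h8⟩ := root_mem_two (k := k) h6
    exact hδ ⟨x, .inl h7⟩ (Finset.mem_univ _) (by simp [ell, hi, h8])
  · obtain ⟨x, h7, h8⟩ := root_mem_three (k := k) h6
    exact hδ ⟨x, .inr h7⟩ (Finset.mem_univ _) (by simp [ell, hi, h8])

omit [Big k q] in
theorem cls_point : Cls (I := ideal k q) {1} 1 {X 2, X 3, X 4, X 5, X 6} 1 ![] := by
  refine ⟨⟨_, isHomogeneous_one _ _⟩, fun K _ _ ψ ψ' h h' hi hi' hs hs' _ _ => ⟨1, rfl, ?_⟩⟩
  simp only [Set.mem_insert_iff, Set.mem_singleton_iff, forall_eq_or_imp, forall_eq] at hs hs'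
  have e := (ev_ker h).q0
  have e' := (ev_ker h').q0
  simp only [hs, hs', mul_zero, add_zero, pow_eq_zero_iff two_ne_zero] at e e'
  intro j
  fin_cases j <;> simp [*]

theorem cls_base (y : k) :
    Cls (I := ideal k q) {1} 6 {X 2, X 3, X 4, X 5, C y + (X 1 ^ q) ^ q} 1 ![] := by
  refine ⟨⟨_, isHomogeneous_one _ _⟩, fun K _ _ ψ ψ' h h' hi hi' hs hs' _ _ => ⟨1, rfl, ?_⟩⟩
  simp only [Set.mem_insert_iff, Set.mem_singleton_iff, forall_eq_or_imp, forall_eq, map_add,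
    map_pow, algHom_C] at hs hs'
  have e := (ev_ker h).q0
  have e' := (ev_ker h').q0
  have hq := FQ.fr (k := k) (q := q) K
  have h1 : ψ' (X 1) = ψ (X 1) := hq.inj (hq.inj (by linear_combination hs'.2.2.2.2 - hs.2.2.2.2))
  simp only [hs.2.1, hs'.2.1, hs.1, hs'.1, hs.2.2.1, hs'.2.2.1, mul_zero, zero_mul, add_zero,
    pow_eq_zero_iff two_ne_zero] at e e'
  intro j
  fin_cases j <;> simp [*]

end Pool.Agent.Lib.MP_557161_ag.G2
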