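import Mathlib
import Pool.Agent.Lib.MP_557161_ag.G2.Lab

/-!
Existence, uniqueness and number of the labels.
-/

namespace Pool.Agent.Lib.MP_557161_ag.G2

open MvPolynomial

variable {k : Type} [Field k] {q : ℕ} [Big k q] {P : Pt (ideal k q)}

omit [Big k q] in
theorem Rep.zero {i : Fin 7} {K : Type} [Field K] [Algebra k K] {ψ : MvPolynomial (Fin 7) k →ₐ[k] K}
    (h : Rep P i ψ) {f : MvPolynomial (Fin 7) k} (hf : f ∈ P.1) : ψ f = 0 :=
  (h.aff_iff f).2 (le_aff hf)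

theorem form3 (h4 : X 4 ∈ P.1) (h3 : X 3 ∉ P.1) : ∃ a b c : Fq k q, X 0 - C a.1 * X 3 ∈ P.1 ∧
    X 2 - C b.1 * X 3 ∈ P.1 ∧ X 1 - C a.1 * X 5 - C c.1 * X 3 ∈ P.1 ∧
    X 6 + C b.1 * X 5 + C (a.1 ^ 2) * X 3 ∈ P.1 := by
  obtain ⟨K, _, _, ψ, r⟩ := Pt.exists_rep h3
  have hq := FQ.fr (k := k) (q := q) K
  have e := ev_ker r.ker
  rw [r.zero h4, r.1] at e
  obtain ⟨e0, -, -, -, -, e1, e2, e3, -⟩ := e
  rw [hq.zero, one_pow] at e1 e2
  rw [one_pow] at e3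
  obtain ⟨a, ha⟩ := root_mem_one (k := k) (q := q) (z := ψ (X 0)) (by linear_combination -e1)
  obtain ⟨b, hb⟩ := root_mem_one (k := k) (q := q) (z := ψ (X 2)) (by linear_combination e2)
  obtain ⟨c, hc⟩ := root_mem_one (k := k) (q := q) (z := ψ (X 1) - ψ (X 0) * ψ (X 5)) (by
    rw [hq.sub, mul_pow]
    linear_combination -e3 + (ψ (X 5) ^ q + ψ (X 5)) * e1)
  refine ⟨a, b, c, (r.2 _ _ (lin_sub _ _ _)).1 ?_, (r.2 _ _ (lin_sub _ _ _)).1 ?_,
    (r.2 _ _ ((lin_sub _ _ _).sub (isHomogeneous_C_mul_X _ _))).1 ?_,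
    (r.2 _ _ ((lin_add _ _ _).add (isHomogeneous_C_mul_X _ _))).1 ?_⟩ <;>
    simp only [map_sub, map_add, map_mul, map_pow, algHom_C, ha, hb, hc, r.1]
  · ring
  · ring
  · ring
  · linear_combination e0

theorem form2 (h4 : X 4 ∈ P.1) (h3 : X 3 ∈ P.1) (h2 : X 2 ∉ P.1) : ∃ a c : Fq k q,
    X 0 - C a.1 * X 2 ∈ P.1 ∧ X 5 + C (a.1 ^ 2) * X 2 ∈ P.1 ∧
    X 1 + C a.1 * X 6 - C c.1 * X 2 ∈ P.1 := by
  obtain ⟨K, _, _, ψ, r⟩ := Pt.exists_rep h2
  have hq := FQ.fr (k := k) (q := q) K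
  have e := ev_ker r.ker
  rw [r.zero h4, r.zero h3, r.1] at e
  obtain ⟨e0, -, -, -, e1, -, -, -, e3⟩ := e
  rw [hq.zero, one_pow] at e1
  rw [one_pow] at e3
  obtain ⟨a, ha⟩ := root_mem_one (k := k) (q := q) (z := ψ (X 0)) (by linear_combination -e1)
  obtain ⟨c, hc⟩ := root_mem_one (k := k) (q := q) (z := ψ (X 1) + ψ (X 0) * ψ (X 6)) (by
    rw [hq.add, mul_pow]
    linear_combination e3 - (ψ (X 6) ^ q + ψ (X 6)) * e1)
  refine ⟨a, c, (r.2 _ _ (lin_sub _ _ _)).1 ?_, (r.2 _ _ (lin_add _ _ _)).1 ?_,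
    (r.2 _ _ ((lin_add _ _ _).sub (isHomogeneous_C_mul_X _ _))).1 ?_⟩ <;>
    simp only [map_sub, map_add, map_mul, map_pow, algHom_C, ha, hc, r.1]
  · ring
  · linear_combination e0
  · ring

theorem form5 (h4 : X 4 ∈ P.1) (h3 : X 3 ∈ P.1) (h2 : X 2 ∈ P.1) (h5 : X 5 ∉ P.1) :
    ∃ c : Fq k q, X 6 - C c.1 * X 5 ∈ P.1 := by
  obtain ⟨K, _, _, ψ, r⟩ := Pt.exists_rep h5
  have hq := FQ.fr (k := k) (q := q) K
  have e := (ev_ker r.ker).g1
  rw [r.zero (X_zero_mem P.2.1 P.2.2.2.1 (.inr h4) (.inl h2) (.inl h3)), r.1, hq.zero,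
    one_pow] at e
  obtain ⟨c, hc⟩ := root_mem_one (k := k) (q := q) (z := ψ (X 6)) (by linear_combination -e)
  refine ⟨c, (r.2 _ _ (lin_sub _ _ _)).1 ?_⟩
  simp only [map_sub, map_mul, algHom_C, hc, r.1, mul_one, sub_self]

theorem exists_lab_four {x : Xi k q} (hx : ell (some x) ∈ P.1) (h4 : X 4 ∉ P.1) : ∃ l, Has P l := by
  obtain ⟨K, _, _, ψ, r⟩ := Pt.exists_rep h4
  have hq := FQ.fr (k := k) (q := q) K
  have e := ev_ker r.ker
  rw [r.1] at e
  have h3 : ψ (X 3) = algebraMap k K x := by simpa [ell, r.1, sub_eq_zero] using r.zero hx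
  by_cases h1 : x.1 ^ q = x
  · have h5 : ψ (X 3) ^ q = ψ (X 3) := by rw [h3, ← map_pow, h1]
    obtain ⟨y, hy⟩ := root_mem_one (k := k) (e.rel.sig_cub hq (by rw [h5, h5, h5]))
    obtain ⟨z, hz⟩ := root_mem_one (k := k) (q := q) (z := ψ (X 0) - ψ (X 3) * ψ (X 2)) (by
      have := e.rel.r1
      rw [h5] at this
      rw [hq.sub, mul_pow, h5]
      linear_combination this)
    exact ⟨.inr (.inr (.inl (⟨x, h1⟩, y, z))), (has_iff (by exact r)).2 ⟨h3, hy.symm, hz.symm⟩⟩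
  rcases x.2 with h2 | h2
  · obtain ⟨y, hy1, hy⟩ := root_mem_two (k := k) (e.rel.sig_quad hq (by
      rw [h3, ← map_pow, ← map_pow, h2]))
    exact ⟨.inr (.inr (.inr (.inl (⟨x, h2, h1⟩, ⟨y, hy1⟩)))),
      (has_iff (by exact r)).2 ⟨h3, hy.symm⟩⟩
  · obtain ⟨y, hy⟩ := root_mem_one (k := k) (e.rel.sig_cub hq (by
      rw [h3, ← map_pow, ← map_pow, ← map_pow, h2]))
    exact ⟨.inr (.inr (.inr (.inr (⟨x, h2, h1⟩, y)))), (has_iff (by exact r)).2 ⟨h3, hy.symm⟩⟩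

theorem has_zero (h4 : X 4 ∈ P.1) (h3 : X 3 ∈ P.1) (h2 : X 2 ∈ P.1) (h5 : X 5 ∈ P.1)
    (h6 : X 6 ∉ P.1) : Has P (.inl (.inl ())) := by
  obtain ⟨K, _, _, ψ, r⟩ := Pt.exists_rep h6
  exact (has_iff (by exact r)).2 ⟨r.zero h4, r.zero h3, r.zero h2, r.zero h5⟩

omit [Big k q] in
theorem in_point (h4 : X 4 ∈ P.1) (h3 : X 3 ∈ P.1) (h2 : X 2 ∈ P.1) (h5 : X 5 ∈ P.1)
    (h6 : X 6 ∈ P.1) : InC 1 {X 2, X 3, X 4, X 5, X 6} 1 P := by
  refine ⟨fun h1 => ?_, ?_, (Ideal.ne_top_iff_one _).1 P.2.1.ne_top⟩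
  · obtain ⟨j, hj⟩ := P.2.2.2.2
    have h0 := X_zero_mem P.2.1 P.2.2.2.1 (.inr h4) (.inl h2) (.inl h3)
    fin_cases j <;> exact hj ‹_›
  · rintro f (rfl | rfl | rfl | rfl | rfl) <;> exact le_aff ‹_›

theorem exists_lab {x : Option (Xi k q)} (hx : ell x ∈ P.1) :
    (∃ l, Has P l) ∨ InC 1 {X 2, X 3, X 4, X 5, X 6} 1 P := by
  by_cases h4 : X 4 ∈ P.1
  swap
  · cases x
    exacts [absurd hx h4, .inl (exists_lab_four hx h4)]
  by_cases h3 : X 3 ∈ P.1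
  swap
  · obtain ⟨a, b, -, h1, h2, -⟩ := form3 h4 h3
    obtain ⟨K, _, _, ψ, r⟩ := Pt.exists_rep h3
    exact .inl ⟨.inl (.inr (.inr (a, b))), (has_iff (by exact r)).2 ⟨r.zero h4,
      by simpa [r.1, sub_eq_zero] using r.zero h1, by simpa [r.1, sub_eq_zero] using r.zero h2⟩⟩
  by_cases h2 : X 2 ∈ P.1
  swap
  · obtain ⟨a, c, h1, -, h5⟩ := form2 h4 h3 h2
    obtain ⟨K, _, _, ψ, r⟩ := Pt.exists_rep h2
    have h6 : ψ (X 0) = algebraMap k K a := by simpa [r.1, sub_eq_zero] using r.zero h1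
    exact .inl ⟨.inr (.inl (a, c)), (has_iff (by exact r)).2 ⟨r.zero h4, r.zero h3, h6,
      by simpa [r.1, sub_eq_zero, h6] using r.zero h5⟩⟩
  by_cases h5 : X 5 ∈ P.1
  swap
  · obtain ⟨c, h1⟩ := form5 h4 h3 h2 h5
    obtain ⟨K, _, _, ψ, r⟩ := Pt.exists_rep h5
    exact .inl ⟨.inl (.inr (.inl c)), (has_iff (by exact r)).2 ⟨r.zero h4, r.zero h3, r.zero h2,
      by simpa [r.1, sub_eq_zero] using r.zero h1⟩⟩
  by_cases h6 : X 6 ∈ P.1
  exacts [.inr (in_point h4 h3 h2 h5 h6), .inl ⟨_, has_zero h4 h3 h2 h5 h6⟩]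

/-- The order in which the coordinates are inspected. -/
def rk : Fin 7 → ℕ := ![9, 9, 2, 1, 0, 3, 4]

theorem Has.pre {l : Lab k q} (h : Has P l) (j : Fin 7) (hj : rk j < rk (idx l)) : X j ∈ P.1 := by
  obtain ⟨K, _, _, ψ, r⟩ := Pt.exists_rep h.1
  rw [has_iff r] at h
  rw [← r.X_iff]
  rcases l with (_ | c | c) | c | c | c | c <;> fin_cases j <;> simp [rk, idx] at hj <;>
    simp_all only [LabV] <;> tauto

theorem idx_eq {l m : Lab k q} (h1 : ¬ rk (idx l) < rk (idx m)) (h2 : ¬ rk (idx m) < rk (idx l)) :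
    idx l = idx m := by
  rcases l with (_ | c | c) | c | c <;> rcases m with (_ | c | c) | c | c <;>
    simp [rk, idx] at h1 h2 ⊢

theorem Has.uniq {l m : Lab k q} (h : Has P l) (h' : Has P m) : l = m := by
  have h1 := idx_eq (fun h2 => h.1 (h'.pre _ h2)) fun h2 => h'.1 (h.pre _ h2)
  obtain ⟨K, _, _, ψ, r⟩ := Pt.exists_rep h.1
  rw [has_iff r] at h
  rw [has_iff (h1 ▸ r)] at h'
  have hi : ∀ {a b : k} {z}, z = algebraMap k K a → z = algebraMap k K b → a = b :=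
    fun ha hb => (algebraMap k K).injective (ha.symm.trans hb)
  rcases l with (_ | c | c) | c | c | c | c <;> rcases m with (_ | d | d) | d | d | d | d <;>
    simp [idx] at h1 <;> simp only [LabV] at h h'
  · rfl
  · rw [Subtype.ext (hi h.2.2.2 h'.2.2.2)]
  · rw [Prod.ext (Subtype.ext (hi h.2.1 h'.2.1)) (Subtype.ext (hi h.2.2 h'.2.2))]
  · rw [Prod.ext (Subtype.ext (hi h.2.2.1 h'.2.2.1)) (Subtype.ext (hi h.2.2.2 h'.2.2.2))]
  · rw [Prod.ext (Subtype.ext (hi h.1 h'.1)) (Prod.ext (Subtype.ext (hi h.2.1 h'.2.1))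
      (Subtype.ext (hi h.2.2 h'.2.2)))]
  · exact absurd (hi h.1 h'.1 ▸ c.1.2) d.1.2.2
  · exact absurd (hi h.1 h'.1 ▸ c.1.2) d.1.2.2
  · exact absurd (hi h'.1 h.1 ▸ d.1.2) c.1.2.2
  · rw [Prod.ext (Subtype.ext (hi h.1 h'.1)) (Subtype.ext (hi h.2 h'.2))]
  · have h2 := d.1.2.1
    rw [← hi h.1 h'.1, c.1.2.1] at h2
    exact absurd h2 c.1.2.2
  · exact absurd (hi h'.1 h.1 ▸ d.1.2) c.1.2.2
  · have h2 := c.1.2.1
    rw [hi h.1 h'.1, d.1.2.1] at h2
    exact absurd h2 d.1.2.2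
  · rw [Prod.ext (Subtype.ext (hi h.1 h'.1)) (Subtype.ext (hi h.2 h'.2))]

theorem Has.of_smul {c d : Fq k q} {l : Lab k q} (h : Has (theta c d • P) l)
    (hc : c = 0 ∨ l.isLeft) : Has P l := by
  obtain ⟨K, _, _, ψ, r⟩ := Pt.exists_rep h.1
  rw [has_iff r] at h
  have h1 := r.1
  have h2 : ψ ((theta c d).1 (X (idx l))) = 1 := by
    rcases l with (_ | e | e) | e | e | e | e <;> simp only [LabV, idx] at h h1 ⊢ <;>
      simp [theta_apply, thV, h, h1]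
  rw [has_iff (r.smul h2)]
  rcases l with (_ | e | e) | e | e | e | e <;> simp only [LabV] at h ⊢
  · simp [theta_apply, thV, h]
  · simp [theta_apply, thV, h]
  · simp [theta_apply, thV, h]
  all_goals obtain rfl : c = 0 := by simpa using hc
  · simpa [theta_apply, thV, h.1, h.2.1] using h.2.2
  all_goals simpa [theta_apply, thV] using h

theorem Has.not_fix {c d : Fq k q} {l : Lab k q} (h : Has P l) (h1 : theta c d • P = P)
    (hl : ¬ l.isLeft) : c = 0 := by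
  obtain ⟨K, _, _, ψ, r⟩ := Pt.exists_rep h.1
  have h2 := (has_iff r).1 h
  have h3 := r.1
  have h4 : ψ ((theta c d).1 (X (idx l))) = 1 := by
    rcases l with e | e | e
    exacts [absurd rfl hl, by simpa [theta_apply, thV, idx] using h3,
      by simpa [theta_apply, thV, idx] using h3]
  rw [← h1] at r
  rw [has_iff (r.smul h4)] at h
  refine Subtype.ext ((map_eq_zero (algebraMap k K)).1 ?_)
  rcases l with e | e | e | e | e
  · exact absurd rfl hl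
  all_goals
    simp only [LabV, idx] at h h2 h3
    simp [theta_apply, thV, h3, Dq] at h
  · rw [h2.1, h2.2.1] at h
    linear_combination h.2.2.2 - h2.2.2.2
  · linear_combination (norm := (simp only [Dq]; ring1)) h.2.1 - h2.2.1
  · linear_combination (norm := (simp only [Dq]; ring1)) h.2 - h2.2
  · linear_combination (norm := (simp only [Dq]; ring1)) h.2 - h2.2

variable [Finite k]

theorem ell_notMem (x : Option (Xi k q)) (h : IsMin P) : ell x ∉ P.1 := fun h1 => by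
  rcases exists_lab h1 with ⟨l, h2⟩ | h2
  exacts [(cls l).not_min le_rfl h2 h, cls_point.not_min zero_le_one h2 h]

theorem ell_ne (x : Option (Xi k q)) (p : LP (ideal k q) {i | i ≠ 0}) : p.φ (ell x) ≠ 0 :=
  φ_ne_zero (ell_hom x) (fun _ => ell_notMem x) p

theorem Curve.exists_lab (D : Curve (ideal k q)) {x : Option (Xi k q)} (hx : ell x ∈ D.1.1) :
    ∃ l, Has D.1 l := (G2.exists_lab hx).resolve_right (cls_point.not_curve D)

omit [Finite k] in
theorem card_two : Nat.card {y : k // (y ^ q) ^ q = y} = q ^ 2 := by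
  simpa only [pow_two q, pow_mul] using Big.card (k := k) (q := q) 2 (by decide)

theorem card_quad : Nat.card {x : k // (x ^ q) ^ q = x ∧ x ^ q ≠ x} + q = q ^ 2 := by
  have := Set.ncard_sdiff_add_ncard_of_subset (s := {x : k | x ^ q = x})
    (t := {x : k | (x ^ q) ^ q = x}) fun x (hx : x ^ q = x) => show _ = _ by rw [hx, hx]
  rw [← Nat.card_coe_set_eq, ← Nat.card_coe_set_eq, ← Nat.card_coe_set_eq] at this
  exact ((congrArg _ card_Fq.symm).trans this).trans card_two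

omit [Finite k] in
theorem card_three : Nat.card {y : k // ((y ^ q) ^ q) ^ q = y} = q ^ 3 := by
  simpa only [pow_three' q, pow_mul] using Big.card (k := k) (q := q) 3 (by decide)

theorem card_cub : Nat.card {x : k // ((x ^ q) ^ q) ^ q = x ∧ x ^ q ≠ x} + q = q ^ 3 := by
  have := Set.ncard_sdiff_add_ncard_of_subset (s := {x : k | x ^ q = x})
    (t := {x : k | ((x ^ q) ^ q) ^ q = x}) fun x (hx : x ^ q = x) => show _ = _ by rw [hx, hx, hx]
  rw [← Nat.card_coe_set_eq, ← Nat.card_coe_set_eq, ← Nat.card_coe_set_eq] at this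
  exact ((congrArg _ card_Fq.symm).trans this).trans card_three

theorem card_Xi : Nat.card (Xi k q) + q = q ^ 2 + q ^ 3 := by
  have := Set.ncard_union_add_ncard_inter {x : k | (x ^ q) ^ q = x} {x : k | ((x ^ q) ^ q) ^ q = x}
  rw [show {x : k | (x ^ q) ^ q = x} ∩ {x : k | ((x ^ q) ^ q) ^ q = x} = {x : k | x ^ q = x} from
    Set.ext fun x => ⟨fun ⟨(h1 : _ = _), (h2 : _ = _)⟩ => by rwa [h1] at h2,
      fun (h : _ = _) => ⟨show _ = _ by rw [h, h], show _ = _ by rw [h, h, h]⟩⟩,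
    ← Nat.card_coe_set_eq, ← Nat.card_coe_set_eq, ← Nat.card_coe_set_eq, ← Nat.card_coe_set_eq]
    at this
  exact ((congrArg _ card_Fq.symm).trans this).trans (congrArg₂ _ card_two card_three)

theorem card_left : Nat.card {l : Lab k q // l.isLeft} = 1 + q + q ^ 2 := by
  rw [Nat.card_congr Equiv.sumIsLeft]
  simp [card_Fq, pow_two, add_assoc]

theorem card_Lab : Nat.card (Lab k q) = 1 + q + q ^ 2 + 2 * q ^ 4 := by
  have h1 := card_quad (k := k) (q := q)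
  have h2 := card_cub (k := k) (q := q)
  simp only [Nat.card_sum, Nat.card_prod, card_Fq, card_two, Nat.card_unique]
  zify at h1 h2 ⊢
  linear_combination (q : ℤ) ^ 2 * h1 + q * h2

theorem exists_irr : ∃ t : k, t ^ q ≠ t := by
  have h1 := card_quad (k := k) (q := q)
  have h2 := (FQ.fr (k := k) (q := q) k).two
  obtain ⟨t⟩ := (Nat.card_pos_iff (α := {x : k // (x ^ q) ^ q = x ∧ x ^ q ≠ x})).1
    (by nlinarith) |>.1
  exact ⟨t, t.2.2⟩

theorem curve_of_vec (l : Lab k q) (x : Option (Xi k q)) {a u1 u2 u3 w1 w2 w3 : k}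
    (h : E q a u1 u2 u3 w1 w2 w3) (h1 : ![a, u1, u2, u3, w1, w2, w3] (idx l) = 1)
    (h2 : LabV a u1 u2 u3 w1 w2 w3 l) (h3 : aeval ![a, u1, u2, u3, w1, w2, w3] (ell x) = 0)
    (h4 : ∀ P : Pt (ideal k q), (∀ f ∈ P.1, aeval ![a, u1, u2, u3, w1, w2, w3] f = 0) →
      ell x ∈ P.1 → ∀ j, rk j < rk (idx l) → X j ∈ P.1) :
    ∃ D : Curve (ideal k q), Has D.1 l ∧ ∃ x : Option (Xi k q), ell x ∈ D.1.1 := by
  have r := rep_ofVec (ψ := aeval ![a, u1, u2, u3, w1, w2, w3]) (i := idx l) (homog_ideal (k := k) (q := q))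
    ((ev_iff (aeval ![a, u1, u2, u3, w1, w2, w3]).toRingHom).1 (by simpa [EV] using h))
    (by simpa using h1)
  obtain ⟨D, h5, h6⟩ := exists_curve_le _ (ell_hom x) (ell_ne x) ((r.2 _ _ (ell_hom x)).1 h3)
  obtain ⟨m, hm⟩ := D.exists_lab h6
  have h7 := idx_eq (fun h8 => r.notMem (h5 (hm.pre _ h8)))
    fun h8 => hm.1 (h4 _ (fun f hf => r.zero (h5 hf)) h6 _ h8)
  have h9 : Has _ l := (has_iff r).2 (by simpa using h2)
  have h8 := h9.uniq ⟨h7 ▸ r.notMem, fun f hf => aff_mono h5 (hm.2.1 f hf), h9.2.2⟩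
  exact ⟨D, h8 ▸ hm, x, h6⟩

omit [Finite k] [Big k q] in
theorem E.rat {a u1 u2 u3 w1 w2 w3 : k} (h0 : a ^ q = a) (h1 : u1 ^ q = u1) (h2 : u2 ^ q = u2)
    (h3 : u3 ^ q = u3) (h4 : w1 ^ q = w1) (h5 : w2 ^ q = w2) (h6 : w3 ^ q = w3)
    (h : a ^ 2 + u1 * w1 + u2 * w2 + u3 * w3 = 0) : E q a u1 u2 u3 w1 w2 w3 := by
  refine ⟨h, ?_, ?_, ?_, ?_, ?_, ?_, ?_, ?_⟩ <;> simp only [h0, h1, h2, h3, h4, h5, h6]
  · linear_combination h
  · linear_combination h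
  all_goals ring

theorem curve_four (l : Lab k q) (hl : idx l = 4) (x : Xi k q) {a w : k} (h1 : a ^ q = a)
    (h2 : w ^ q = w + (a * x.1 ^ q - x.1 * a)) (h3 : ∀ u, LabV a u 0 x.1 1 w 0 l) :
    ∃ D : Curve (ideal k q), Has D.1 l ∧ ∃ x : Option (Xi k q), ell x ∈ D.1.1 := by
  have hq := FQ.fr (k := k) (q := q) k
  exact curve_of_vec l (some x) (E.of_chart hq (a := a) (u2 := 0) (u3 := x) (w2 := w) (w3 := 0)
    (by simp [h1, hq.zero]) (by rwa [h1]) (by simp [hq.zero])) (by rw [hl]; rfl) (h3 _)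
    (by simp [ell]) fun _ _ _ j hj => by simp [hl, rk] at hj

theorem exists_curve_lab (l : Lab k q) :
    ∃ D : Curve (ideal k q), Has D.1 l ∧ ∃ x : Option (Xi k q), ell x ∈ D.1.1 := by
  have hq := FQ.fr (k := k) (q := q) k
  have h0 := hq.zero
  obtain ⟨t, ht⟩ := exists_irr (k := k) (q := q)
  rcases l with (_ | c | ⟨a, b⟩) | ⟨a, c⟩ | ⟨x, y, z⟩ | ⟨x, y⟩ | ⟨x, y⟩
  · refine curve_of_vec _ none (a := 0) (u1 := t) (u2 := 0) (u3 := 0) (w1 := 0) (w2 := 0)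
      (w3 := 1) (by constructor <;> simp [h0]) rfl ⟨rfl, rfl, rfl, rfl⟩ (by simp [ell])
      fun P hP h4 => ?_
    have h3 : X 3 ∈ P.1 := by
      by_contra h
      obtain ⟨a, b, c, -, -, -, h1⟩ := form3 h4 h
      simpa using hP _ h1
    have h2 : X 2 ∈ P.1 := by
      by_contra h
      obtain ⟨a, c, -, -, h1⟩ := form2 h4 h3 h
      have h5 : t = (-a : Fq k q) := by simpa [add_eq_zero_iff_eq_neg] using hP _ h1
      exact ht (h5 ▸ (-a).2)
    have h5 : X 5 ∈ P.1 := by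
      by_contra h
      obtain ⟨c, h1⟩ := form5 h4 h3 h2 h
      simpa using hP _ h1
    intro j hj
    fin_cases j <;> simp [rk, idx] at hj <;> assumption
  · have hc : c.1 ^ q = c := c.2
    refine curve_of_vec _ none (a := 0) (u1 := t) (u2 := 0) (u3 := 0) (w1 := 0) (w2 := 1)
      (w3 := c.1) (by constructor <;> simp [h0, hc]) rfl ⟨rfl, rfl, rfl, rfl⟩ (by simp [ell])
      fun P hP h4 => ?_
    have h3 : X 3 ∈ P.1 := by
      by_contra h
      obtain ⟨a, b, c, -, -, h1, -⟩ := form3 h4 h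
      have h5 : t = a := by simpa [sub_eq_zero] using hP _ h1
      exact ht (h5 ▸ a.2)
    have h2 : X 2 ∈ P.1 := by
      by_contra h
      obtain ⟨a, c, -, h1, -⟩ := form2 h4 h3 h
      simpa using hP _ h1
    intro j hj
    fin_cases j <;> simp [rk, idx] at hj <;> assumption
  · refine curve_of_vec _ none (a := a.1) (u1 := 0) (u2 := b.1) (u3 := 1) (w1 := 0) (w2 := 0)
      (w3 := (-a ^ 2 : Fq k q).1) (E.rat a.2 h0 b.2 (one_pow q) h0 h0 (-a ^ 2).2 (by simp)) rfl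
      ⟨rfl, rfl, rfl⟩ (by simp [ell]) fun P hP h4 j hj => ?_
    fin_cases j <;> simp [rk, idx] at hj
    exact h4
  · refine curve_of_vec _ none (a := a.1) (u1 := c.1) (u2 := 1) (u3 := 0) (w1 := 0)
      (w2 := (-a ^ 2 : Fq k q).1) (w3 := 0)
      (E.rat a.2 c.2 (one_pow q) h0 h0 (-a ^ 2).2 h0 (by simp)) rfl ⟨rfl, rfl, rfl, by simp⟩
      (by simp [ell]) fun P hP h4 => ?_
    have h3 : X 3 ∈ P.1 := by
      by_contra h
      obtain ⟨a, b, c, -, h1, -⟩ := form3 h4 h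
      simpa using hP _ h1
    intro j hj
    fin_cases j <;> simp [rk, idx] at hj <;> assumption
  · have hx : x.1 ^ q = x := x.2
    refine curve_four _ rfl ⟨x.1, .inl (by rw [hx, hx])⟩ (a := z.1)
      (w := (-y - (x + x) * z : Fq k q).1)
      z.2 ?_ fun _ => ⟨rfl, ?_, by simp⟩
    · rw [show _ ^ q = _ from (-y - (x + x) * z : Fq k q).2]
      simp only [hx]
      ring
    · simp [Dq, hx]
  · obtain ⟨x, hx2, hx1⟩ := x
    obtain ⟨y, hy⟩ := y
    obtain ⟨a, ha⟩ : ∃ a, a * (x ^ q - x) = y - y ^ q := ⟨_, div_mul_cancel₀ _ (sub_ne_zero.2 hx1)⟩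
    have h1 : a ^ q = a := mul_right_cancel₀ (sub_ne_zero.2 hx1) (by
      have := congrArg (· ^ q) ha
      simp only [mul_pow, hq.sub, hx2, hy] at this
      linear_combination -this - ha)
    refine curve_four _ rfl ⟨x, .inl hx2⟩ (a := a) (w := -y - (x + x ^ q) * a) h1 ?_
      fun _ => ⟨rfl, ?_⟩
    · simp only [mul_pow, hq.sub, hq.add, hq.neg, hx2, h1]
      linear_combination -ha
    · simp only [Dq, hx2, Algebra.algebraMap_self, RingHom.id_apply]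
      ring
  · refine curve_four _ rfl ⟨x.1, .inr x.2.1⟩ (a := 0) (w := (-y : Fq k q).1) h0 ?_
      fun _ => ⟨rfl, by simp [Dq]⟩
    rw [show _ ^ q = _ from (-y : Fq k q).2]
    ring

theorem exists_curve_fin (x : Xi k q) :
    ∃ D : Curve (ideal k q), ell (some x) ∈ D.1.1 ∧ X 4 ∉ D.1.1 := by
  have h0 := (FQ.fr (k := k) (q := q) k).zero
  have h : E q 0 0 0 x.1 1 0 0 := by constructor <;> simp [h0]
  have r := rep_ofVec (ψ := aeval ![0, 0, 0, x.1, 1, 0, 0]) (i := 4) (homog_ideal (k := k) (q := q))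
    ((ev_iff (aeval ![0, 0, 0, x.1, 1, 0, 0]).toRingHom).1 (by simpa [EV] using h)) (by simp)
  obtain ⟨D, h5, h6⟩ := exists_curve_le _ (ell_hom (some x)) (ell_ne _)
    ((r.2 _ _ (ell_hom _)).1 (by simp [ell]))
  exact ⟨D, h6, fun h7 => r.notMem (h5 h7)⟩

end Pool.Agent.Lib.MP_557161_ag.G2
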