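import Mathlib
import Pool.Agent.Lib.MP_557161_ag.G2.Lab2

/-!
The pencil spanned by two coordinates has no base points after removing its fixed part.
-/

namespace Pool.Agent.Lib.MP_557161_ag.G2

open MvPolynomial IsLocalRing

/-- A multiset as a rational divisor. -/
noncomputable def toQ {ι : Type} (m : Multiset ι) : ι →₀ ℚ := (m.map fun C => Finsupp.single C 1).sum

theorem toQ_apply {ι : Type} [DecidableEq ι] (m : Multiset ι) (C : ι) : toQ m C = m.count C := by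
  induction m using Multiset.induction_on with
  | empty => simp [toQ]
  | cons D m ih =>
    rw [toQ, Multiset.map_cons, Multiset.sum_cons, Finsupp.add_apply, ← toQ, ih,
      Multiset.count_cons, Finsupp.single_apply, add_comm]
    simp [eq_comm]

theorem lc_toQ {ι : Type} (b : ι → ι → ℤ) (m : Multiset ι) (D : ι) :
    Finsupp.linearCombination ℚ (fun C D => (b C D : ℚ)) (toQ m) D =
      ((m.map fun C => b C D).sum : ℤ) := by
  induction m using Multiset.induction_on with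
  | empty => simp [toQ]
  | cons C m ih =>
    rw [toQ, Multiset.map_cons, Multiset.sum_cons, map_add, Pi.add_apply, ← toQ, ih]
    simp

variable {k : Type} [Field k] {q : ℕ} [Big k q] [Finite k]

/-- The divisor of a special member. -/
noncomputable def dvs (x : Option (Xi k q)) : Multiset (Curve (ideal k q)) :=
  (exists_isDiv (ell_hom x) (ell_ne x)).choose

theorem dvs_div (x : Option (Xi k q)) : IsDiv {i | i ≠ 0} (ell x) (dvs x) :=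
  (exists_isDiv (ell_hom x) (ell_ne x)).choose_spec.1

/-- The intersection numbers of a rational divisor. -/
noncomputable abbrev LQ (k : Type) [Field k] (q : ℕ) :
    (Curve (ideal k q) →₀ ℚ) →ₗ[ℚ] Curve (ideal k q) → ℚ :=
  Finsupp.linearCombination ℚ fun C D => (inter C D : ℚ)

theorem dvs_sum (x : Option (Xi k q)) (D : Curve (ideal k q)) : LQ k q (toQ (dvs x)) D = deg D := by
  rw [lc_toQ, dvs, (exists_isDiv (ell_hom x) (ell_ne x)).choose_spec.2]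
  simp

/-- The special value zero. -/
def xz : Xi k q := ⟨0, .inl (by rw [(FQ.fr (k := k) k).zero, (FQ.fr (k := k) k).zero])⟩

open Classical in
/-- The moving part of a special member. -/
noncomputable def fib (x : Option (Xi k q)) : Curve (ideal k q) →₀ ℚ :=
  toQ (dvs x) - toQ (dvs none ∩ dvs (some xz))

theorem fib_sum (x y : Option (Xi k q)) : LQ k q (fib x) = LQ k q (fib y) := by
  funext D
  rw [fib, fib, map_sub, map_sub, Pi.sub_apply, Pi.sub_apply, dvs_sum, dvs_sum]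

section

variable (p : LP (ideal k q) {i | i ≠ 0})

/-- The two generators of the pencil have the greatest common divisor `β`. -/
structure Dec (β s r : p.O) : Prop where
  h3 : p.φ (X 3) = β * s
  h4 : p.φ (X 4) = β * r
  unit : IsUnit s ∨ IsUnit r

/-- The local equation of the moving part. -/
noncomputable def sx (s r : p.O) : Option (Xi k q) → p.O
  | none => r
  | some x => s - p.φ (C x.1) * r

omit [Finite k] in
theorem LP.fr : Fr q p.O :=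
  letI := (p.φ.comp C).toAlgebra
  FQ.fr (k := k) p.O

omit [Big k q] [Finite k] in
theorem LP.ev : E q (p.φ (X 0)) (p.φ (X 1)) (p.φ (X 2)) (p.φ (X 3)) (p.φ (X 4)) (p.φ (X 5))
    (p.φ (X 6)) := (ev_iff p.φ).2 fun _ hf => p.φ_I hf

omit [Big k q] [Finite k] in
theorem LP.zero_mem (h2 : X 2 ∈ p.M) (h3 : X 3 ∈ p.M) (h4 : X 4 ∈ p.M) : X 0 ∈ p.M :=
  X_zero_mem p.M_max.isPrime (le_sup_left.trans p.K_le) (.inr h4) (.inl h2) (.inl h3)

omit [Finite k] in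
theorem LP.decA (h2 : X 2 ∉ p.M) (h3 : X 3 ∈ p.M) : ∃ μ, Dec p (p.φ (X 4)) μ 1 ∧
    μ * p.φ (X 2) - p.φ (X 0) ∈ Ideal.span {p.φ (X 3), p.φ (X 4)} := by
  obtain ⟨μ, h, h'⟩ := p.ev.locA p.fr (p.isUnit_φ.2 h2) (p.φ_mem_max.2 h3)
  exact ⟨μ, ⟨h, (mul_one _).symm, .inr isUnit_one⟩, h'⟩

omit [Finite k] in
theorem LP.decA' (h5 : X 5 ∉ p.M) (h4 : X 4 ∈ p.M) : ∃ ν, Dec p (p.φ (X 3)) 1 ν ∧
    ν * p.φ (X 5) - -p.φ (X 0) ∈ Ideal.span {p.φ (X 4), p.φ (X 3)} := by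
  obtain ⟨μ, h, h'⟩ := (p.ev.tau p.fr).locA p.fr (p.isUnit_φ.2 h5) (p.φ_mem_max.2 h4)
  exact ⟨μ, ⟨(mul_one _).symm, h, .inl isUnit_one⟩, h'⟩

theorem LP.decB (h2 : X 2 ∈ p.M) (h3 : X 3 ∈ p.M) (h4 : X 4 ∈ p.M) (h5 : X 5 ∈ p.M)
    (h6 : X 6 ∉ p.M) : ∃ μ, Dec p (p.φ (X 4)) μ 1 ∧
      μ * (p.φ (X 6) ^ q) ^ q + (p.φ (X 1) ^ q) ^ q ∈ Ideal.span {p.φ (X 2)} := by
  obtain ⟨μ, h, h'⟩ := p.ev.locB p.fr (p.isUnit_φ.2 h6) (p.φ_mem_max.2 h2)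
    (p.φ_mem_max.2 (p.zero_mem h2 h3 h4)) (p.φ_mem_max.2 h5) (p.φ_mem_max.2 h4) (ell_ne none p)
  exact ⟨μ, ⟨h, (mul_one _).symm, .inr isUnit_one⟩, h'⟩

theorem X3_ne : p.φ (X 3) ≠ 0 := by simpa [ell, xz] using ell_ne (some xz) p

theorem LP.decB' (h2 : X 2 ∈ p.M) (h3 : X 3 ∈ p.M) (h4 : X 4 ∈ p.M) (h5 : X 5 ∈ p.M)
    (h6 : X 6 ∈ p.M) : ∃ ν, Dec p (p.φ (X 3)) 1 ν ∧ ν ∈ maximalIdeal p.O := by
  have h1 : X 1 ∉ p.M := fun h1 => by
    have h7 := p.X_notMem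
    have h8 := p.hi
    generalize p.i = i at h7 h8
    fin_cases i
    exacts [h8 rfl, h7 h1, h7 h2, h7 h3, h7 h4, h7 h5, h7 h6]
  obtain ⟨μ, h, h'⟩ := (p.ev.tau p.fr).locB p.fr (p.isUnit_φ.2 h1) (p.φ_mem_max.2 h5)
    (neg_mem (p.φ_mem_max.2 (p.zero_mem h2 h3 h4))) (p.φ_mem_max.2 h2) (p.φ_mem_max.2 h3) (X3_ne p)
  refine ⟨μ, ⟨(mul_one _).symm, h, .inl isUnit_one⟩, ?_⟩
  have h7 := (Ideal.span_singleton_le_iff_mem _).2 (p.φ_mem_max.2 h5) h'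
  rwa [Ideal.add_mem_iff_left _ (Ideal.pow_mem_of_mem _ (Ideal.pow_mem_of_mem _
    (p.φ_mem_max.2 h6) _ p.fr.ne.bot_lt) _ p.fr.ne.bot_lt),
    Ideal.mul_unit_mem_iff_mem _ (((p.isUnit_φ.2 h1).pow q).pow q)] at h7

theorem LP.exists_dec : ∃ β s r, Dec p β s r := by
  by_cases h4 : X 4 ∈ p.M
  swap
  · exact ⟨1, _, _, (one_mul _).symm, (one_mul _).symm, .inr (p.isUnit_φ.2 h4)⟩
  by_cases h3 : X 3 ∈ p.M
  swap
  · exact ⟨1, _, _, (one_mul _).symm, (one_mul _).symm, .inl (p.isUnit_φ.2 h3)⟩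
  by_cases h2 : X 2 ∈ p.M
  swap
  · exact ⟨_, _, _, (p.decA h2 h3).choose_spec.1⟩
  by_cases h5 : X 5 ∈ p.M
  swap
  · exact ⟨_, _, _, (p.decA' h5 h4).choose_spec.1⟩
  by_cases h6 : X 6 ∈ p.M
  exacts [⟨_, _, _, (p.decB' h2 h3 h4 h5 h6).choose_spec.1⟩,
    ⟨_, _, _, (p.decB h2 h3 h4 h5 h6).choose_spec.1⟩]

variable {p} {β s r : p.O} (d : Dec p β s r) {D : Curve (ideal k q)} {x y : Option (Xi k q)}

include d

omit [Big k q] [Finite k] in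
theorem Dec.ell (x : Option (Xi k q)) : p.φ (ell x) = β * sx p s r x := by
  cases x
  · exact d.h4
  · rw [G2.ell, sx, map_sub, map_mul, d.h3, d.h4]
    ring

omit [Big k q] [Finite k] in
theorem Dec.uniq (hx : sx p s r x ∈ maximalIdeal p.O) (hy : sx p s r y ∈ maximalIdeal p.O) :
    x = y := by
  have h : ∀ c, r ∈ maximalIdeal p.O → s - c * r ∉ maximalIdeal p.O := fun c h1 h2 =>
    d.unit.elim ((Submodule.sub_mem_iff_left _ (Ideal.mul_mem_left _ c h1)).1 h2) h1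
  rcases x with _ | x <;> rcases y with _ | y
  · rfl
  · exact absurd hy (h _ hx)
  · exact absurd hx (h _ hy)
  by_contra h1
  refine h _ ?_ hx
  have h2 := sub_mem hx hy
  rwa [sx, sx, sub_sub_sub_cancel_left, ← sub_mul, ← map_sub, ← map_sub, Ideal.unit_mul_mem_iff_mem
    _ (((IsUnit.mk0 _ (sub_ne_zero.2 fun h3 => h1 (by rw [Subtype.ext h3]))).map C).map p.φ)] at h2

theorem Dec.fib (hD : D.1.1 ≤ p.M) {π : p.O} (hπ : Prime π)
    (h : D.1.1.map p.φ = Ideal.span {π}) (x : Option (Xi k q)) :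
    0 ≤ fib x D ∧ (fib x D ≠ 0 ↔ π ∣ sx p s r x) := by
  classical
  have h0 : β ≠ 0 := left_ne_zero_of_mul (d.ell none ▸ ell_ne none p)
  obtain ⟨n, γ, rfl, hγ⟩ := exists_pow_mul (t := π) hπ.not_isUnit h0
  have h1 : ∀ y, n ≤ (dvs y).count D := fun y => by
    rw [← (dvs_div y).dvd_iff p hD hπ h, d.ell, mul_assoc]
    exact dvd_mul_right _ _
  have h2 : ∀ y, n + 1 ≤ (dvs y).count D ↔ π ∣ sx p s r y := fun y => by
    rw [← (dvs_div y).dvd_iff p hD hπ h, d.ell, mul_assoc, pow_succ,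
      mul_dvd_mul_iff_left (pow_ne_zero n hπ.ne_zero), hπ.dvd_mul, or_iff_right hγ]
  have h3 : (dvs none ∩ dvs (some xz)).count D = n := by
    rw [Multiset.count_inter]
    have := h1 none
    have := h1 (some xz)
    by_contra h4
    have h5 := (h2 none).1 (by omega)
    have h6 := (h2 (some xz)).1 (by omega)
    simp only [sx, xz, map_zero, zero_mul, sub_zero] at h5 h6
    exact hπ.not_isUnit (d.unit.elim (isUnit_of_dvd_unit h6) (isUnit_of_dvd_unit h5))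
  have h4 : G2.fib x D = ((dvs x).count D : ℚ) - n := by
    rw [G2.fib, Finsupp.sub_apply, toQ_apply, toQ_apply, ← h3]
  rw [h4, ← h2, sub_nonneg, sub_ne_zero, Nat.cast_le, Nat.cast_injective.ne_iff]
  have := h1 x
  omega

theorem Dec.val (hD : D.1.1 ≤ p.M) (hx : G2.fib x D ≠ 0) : sx p s r x ∈ maximalIdeal p.O := by
  obtain ⟨π, h1, h2⟩ := p.curve_gen D hD
  exact fun h => h1.not_isUnit (isUnit_of_dvd_unit ((d.fib hD h1 h2 x).2.1 hx) h)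

theorem Dec.exists_typ (hx : sx p s r x ∈ maximalIdeal p.O) :
    ∃ D : Curve (ideal k q), D.1.1 ≤ p.M ∧ G2.fib x D ≠ 0 := by
  obtain ⟨π, h1, h2⟩ := (Surf.good p).exists_prime_dvd
    (right_ne_zero_of_mul (d.ell x ▸ ell_ne x p)) hx
  obtain ⟨D, h3, h4⟩ := p.exists_curve h1
  exact ⟨D, h3, (d.fib h3 h1 h4 x).2.2 h2⟩

theorem Dec.exists_base (h3 : X 3 ∈ p.M) (h4 : X 4 ∈ p.M) :
    ∃ D : Curve (ideal k q), D.1.1 ≤ p.M ∧ X 3 ∈ D.1.1 ∧ X 4 ∈ D.1.1 := by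
  obtain ⟨π, h1, h2⟩ := (Surf.good p).exists_prime_dvd
    (left_ne_zero_of_mul (d.ell none ▸ ell_ne none p)) fun h => d.unit.elim
      (fun h5 => p.isUnit_φ.1 (d.h3 ▸ h.mul h5) h3) fun h5 => p.isUnit_φ.1 (d.h4 ▸ h.mul h5) h4
  obtain ⟨D, h5, h6⟩ := p.exists_curve h1
  refine ⟨D, h5, ?_, ?_⟩ <;>
    rw [← p.mem_map_prime D.1 h5 (isHomogeneous_X k _), h6, Ideal.mem_span_singleton]
  exacts [d.h3 ▸ h2.mul_right _, d.h4 ▸ h2.mul_right _]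

end

variable {C D : Curve (ideal k q)} {x y : Option (Xi k q)}

theorem fib_nonneg (x : Option (Xi k q)) (D : Curve (ideal k q)) : 0 ≤ fib x D := by
  obtain ⟨p, hp⟩ := Pt.exists_LP D.1
  obtain ⟨β, s, r, d⟩ := p.exists_dec
  obtain ⟨π, h1, h2⟩ := p.curve_gen D hp
  exact (d.fib hp h1 h2 x).1

theorem mem_of_fib (h : fib x D ≠ 0) : ell x ∈ D.1.1 := by
  obtain ⟨p, hp⟩ := Pt.exists_LP D.1
  obtain ⟨β, s, r, d⟩ := p.exists_dec
  obtain ⟨π, h1, h2⟩ := p.curve_gen D hp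
  rw [← p.mem_map_prime D.1 hp (ell_hom x), h2, Ideal.mem_span_singleton, d.ell]
  exact ((d.fib hp h1 h2 x).2.1 h).mul_left _

theorem typ_uniq (hx : fib x C ≠ 0) (hy : fib y D ≠ 0) {P : Pt (ideal k q)} (h1 : C.1 ≤ P)
    (h2 : D.1 ≤ P) : x = y := by
  obtain ⟨p, hp⟩ := Pt.exists_LP P
  obtain ⟨β, s, r, d⟩ := p.exists_dec
  exact d.uniq (d.val (le_trans h1 hp) hx) (d.val (le_trans h2 hp) hy)

omit [Big k q] [Finite k] in
theorem lq_apply (w : Curve (ideal k q) →₀ ℚ) (D : Curve (ideal k q)) :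
    LQ k q w D = ∑ C ∈ w.support, w C * inter C D := by
  rw [Finsupp.linearCombination_apply, Finsupp.sum, Finset.sum_apply]
  rfl

theorem lq_zero {w : Curve (ideal k q) →₀ ℚ} (hw : ∀ C, w C ≠ 0 → fib x C ≠ 0) (hy : fib y D ≠ 0)
    (h : x ≠ y) : LQ k q w D = 0 := by
  rw [lq_apply]
  refine Finset.sum_eq_zero fun C hC => ?_
  rw [inter_eq_zero fun P h1 h2 => h (typ_uniq (hw C (Finsupp.mem_support_iff.1 hC)) hy h1 h2),
    Int.cast_zero, mul_zero]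

theorem fib_fib (x : Option (Xi k q)) (hy : fib y D ≠ 0) : LQ k q (fib x) D = 0 := by
  obtain ⟨z, hz⟩ : ∃ z, z ≠ y := by
    cases y
    exacts [⟨some xz, by simp⟩, ⟨none, by simp⟩]
  rw [fib_sum x z, lq_zero (fun _ h => h) hy hz]

theorem fib_of_notMem (hx : ell x ∈ D.1.1) (h : ¬ (X 3 ∈ D.1.1 ∧ X 4 ∈ D.1.1)) : fib x D ≠ 0 := by
  obtain ⟨p, hp⟩ := Pt.exists_LP D.1
  obtain ⟨β, s, r, d⟩ := p.exists_dec
  obtain ⟨π, h1, h2⟩ := p.curve_gen D hp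
  rw [← p.mem_map_prime D.1 hp (ell_hom x), h2, Ideal.mem_span_singleton, d.ell] at hx
  rw [← p.mem_map_prime D.1 hp (isHomogeneous_X k 3), ← p.mem_map_prime D.1 hp (isHomogeneous_X k 4),
    h2, Ideal.mem_span_singleton, Ideal.mem_span_singleton, d.h3, d.h4] at h
  exact (d.fib hp h1 h2 x).2.2 ((h1.dvd_or_dvd hx).resolve_left fun h3 =>
    h ⟨h3.mul_right _, h3.mul_right _⟩)

theorem exists_typ (hx : ell x ∈ D.1.1) : Has D.1 (.inl (.inl ())) ∨ ∃ y, fib y D ≠ 0 := by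
  by_cases h : X 3 ∈ D.1.1 ∧ X 4 ∈ D.1.1
  swap
  · exact .inr ⟨x, fib_of_notMem hx h⟩
  obtain ⟨h3, h4⟩ := h
  by_cases h2 : X 2 ∈ D.1.1
  swap
  · obtain ⟨p, hp, h5⟩ := Pt.exists_LP' D.1 (isHomogeneous_X k 2) h2
    obtain ⟨μ, d, h6⟩ := p.decA h5 (hp h3)
    obtain ⟨π, h7, h8⟩ := p.curve_gen D hp
    obtain ⟨a, -, h9, -⟩ := form2 h4 h3 h2
    have ha : a.1 ^ q = a := a.2
    refine .inr ⟨some ⟨a, .inl (by rw [ha, ha])⟩, (d.fib hp h7 h8 _).2.2 ?_⟩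
    have h10 := add_mem ((Ideal.span_le.2 (Set.pair_subset (Ideal.mem_map_of_mem _ h3)
      (Ideal.mem_map_of_mem _ h4)) : _ ≤ D.1.1.map p.φ) h6) (Ideal.mem_map_of_mem p.φ h9)
    rwa [map_sub, map_mul, sub_add_sub_cancel, ← sub_mul,
      Ideal.mul_unit_mem_iff_mem _ (p.isUnit_φ.2 h5), h8, Ideal.mem_span_singleton,
      ← mul_one (p.φ _)] at h10
  by_cases h5 : X 5 ∈ D.1.1
  swap
  · obtain ⟨p, hp, h6⟩ := Pt.exists_LP' D.1 (isHomogeneous_X k 5) h5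
    obtain ⟨μ, d, h7⟩ := p.decA' h6 (hp h4)
    obtain ⟨π, h8, h9⟩ := p.curve_gen D hp
    refine .inr ⟨none, (d.fib hp h8 h9 _).2.2 ?_⟩
    have h10 := sub_mem ((Ideal.span_le.2 (Set.pair_subset (Ideal.mem_map_of_mem _ h4)
      (Ideal.mem_map_of_mem _ h3)) : _ ≤ D.1.1.map p.φ) h7) (Ideal.mem_map_of_mem p.φ
        (X_zero_mem D.1.2.1 D.1.2.2.2.1 (.inr h4) (.inl h2) (.inl h3)))
    rwa [sub_neg_eq_add, add_sub_cancel_right, Ideal.mul_unit_mem_iff_mem _ (p.isUnit_φ.2 h6), h9,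
      Ideal.mem_span_singleton] at h10
  exact .inl (has_zero h4 h3 h2 h5 fun h6 => cls_point.not_curve D (in_point h4 h3 h2 h5 h6))

omit [Big k q] [Finite k] in
theorem in_base {P : Pt (ideal k q)} (h2 : X 2 ∈ P.1) (h3 : X 3 ∈ P.1) (h4 : X 4 ∈ P.1)
    (h5 : X 5 ∈ P.1) (h6 : X 6 ∉ P.1) {y : k}
    (h : MvPolynomial.C y * (X 6 ^ q) ^ q + (X 1 ^ q) ^ q ∈ P.1) :
    InC 6 {X 2, X 3, X 4, X 5, MvPolynomial.C y + (X 1 ^ q) ^ q} 1 P := by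
  refine ⟨h6, ?_, (Ideal.ne_top_iff_one _).1 P.2.1.ne_top⟩
  obtain ⟨K, _, _, ψ, r⟩ := Pt.exists_rep h6
  rintro f (rfl | rfl | rfl | rfl | rfl)
  exacts [le_aff h2, le_aff h3, le_aff h4, le_aff h5,
    (r.aff_iff _).1 (by simpa [r.1] using r.zero h)]

omit [Big k q] [Finite k] in
theorem base_hom (y : k) : (MvPolynomial.C y * (X 6 ^ q) ^ q + (X 1 ^ q) ^ q :
    MvPolynomial (Fin 7) k).IsHomogeneous (1 * q * q) :=
  ((((isHomogeneous_X k 6).pow q).pow q).C_mul y).add (((isHomogeneous_X k 1).pow q).pow q)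

omit [Big k q] [Finite k] in
theorem base_mem (p : LP (ideal k q) {i | i ≠ 0}) {μ : p.O} {y : k} {J : Ideal p.O}
    (h : μ * (p.φ (X 6) ^ q) ^ q + (p.φ (X 1) ^ q) ^ q ∈ Ideal.span {p.φ (X 2)})
    (h2 : p.φ (X 2) ∈ J) (h1 : μ - p.φ (MvPolynomial.C y) * 1 ∈ J) :
    p.φ (MvPolynomial.C y * (X 6 ^ q) ^ q + (X 1 ^ q) ^ q) ∈ J := by
  have h3 := sub_mem ((Ideal.span_singleton_le_iff_mem _).2 h2 h)
    (J.mul_mem_right ((p.φ (X 6) ^ q) ^ q) h1)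
  convert h3 using 1
  simp only [map_add, map_mul, map_pow]
  ring

theorem zero_no (h : Has D.1 (.inl (.inl ()))) (x : Option (Xi k q)) : fib x D = 0 := by
  by_contra hx
  have h2 := h.pre 2 (by simp [rk, idx])
  have h3 := h.pre 3 (by simp [rk, idx])
  have h4 := h.pre 4 (by simp [rk, idx])
  have h5 := h.pre 5 (by simp [rk, idx])
  obtain ⟨p, hp, h6⟩ := Pt.exists_LP' D.1 (isHomogeneous_X k 6) h.1
  obtain ⟨μ, d, h7⟩ := p.decB (hp h2) (hp h3) (hp h4) (hp h5) h6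
  obtain ⟨π, h8, h9⟩ := p.curve_gen D hp
  have h10 := (d.fib hp h8 h9 x).2.1 hx
  rcases x with _ | x
  · exact h8.not_isUnit (isUnit_of_dvd_one h10)
  · rw [← Ideal.mem_span_singleton, ← h9] at h10
    exact (cls_base x.1).not_curve D (in_base h2 h3 h4 h5 h.1 ((p.mem_map_prime D.1 hp
      (base_hom _)).1 (base_mem p h7 (Ideal.mem_map_of_mem _ h2) h10)))

theorem zero_pos (h : Has D.1 (.inl (.inl ()))) (x : Option (Xi k q)) : 0 < LQ k q (fib x) D := by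
  obtain ⟨P, h0, h1⟩ := exists_meet D (isHomogeneous_X k 1)
  obtain ⟨p, hp⟩ := Pt.exists_LP P
  have h2 := h0 (h.pre 2 (by simp [rk, idx]))
  have h3 := h0 (h.pre 3 (by simp [rk, idx]))
  have h4 := h0 (h.pre 4 (by simp [rk, idx]))
  have h5 := h0 (h.pre 5 (by simp [rk, idx]))
  have h6 : X 6 ∉ p.M := fun h6 => (in_point ((p.le_top' hp) h4) ((p.le_top' hp) h3)
    ((p.le_top' hp) h2) ((p.le_top' hp) h5) ((p.mem_top (isHomogeneous_X k 6)).2 h6)).1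
      ((p.le_top' hp) h1)
  obtain ⟨μ, d, h7⟩ := p.decB (hp h2) (hp h3) (hp h4) (hp h5) h6
  obtain ⟨C, h8, h9⟩ := d.exists_typ (x := some xz) (by
    have h8 := (Ideal.span_singleton_le_iff_mem _).2 (p.φ_mem_max.2 (hp h2)) h7
    rw [Ideal.add_mem_iff_left _ (Ideal.pow_mem_of_mem _ (Ideal.pow_mem_of_mem _
      (p.φ_mem_max.2 (hp h1)) _ p.fr.ne.bot_lt) _ p.fr.ne.bot_lt),
      Ideal.mul_unit_mem_iff_mem _ (((p.isUnit_φ.2 h6).pow q).pow q)] at h8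
    simpa [sx, xz] using h8)
  have h10 : ∀ C, fib (some xz) C ≠ 0 → C ≠ D := fun C h1 h2 => h1 (h2 ▸ zero_no h _)
  rw [fib_sum x (some xz), lq_apply]
  refine Finset.sum_pos' (fun C hC => mul_nonneg (fib_nonneg _ _) (Int.cast_nonneg
    (inter_nonneg (h10 C (Finsupp.mem_support_iff.1 hC))))) ⟨C, Finsupp.mem_support_iff.2 h9,
      mul_pos (lt_of_le_of_ne (fib_nonneg _ _) h9.symm) (Int.cast_pos.2
        (inter_pos (h10 C h9) p.top (p.le_top' h8) (h0.trans (p.le_top' hp))))⟩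

/-- The point lies on the horizontal line. -/
def OnL (J : Ideal (MvPolynomial (Fin 7) k)) : Prop := X 2 ∈ J ∧ X 3 ∈ J ∧ X 4 ∈ J ∧ X 5 ∈ J

theorem reach (hC : fib x C ≠ 0) : ∃ D, fib x D ≠ 0 ∧ (∃ P, C.1 ≤ P ∧ D.1 ≤ P) ∧
    ∃ p : LP (ideal k q) {i | i ≠ 0}, D.1.1 ≤ p.M ∧ OnL p.M := by
  obtain ⟨P, h0, h3, h4⟩ : ∃ P, C.1 ≤ P ∧ X 3 ∈ P.1 ∧ X 4 ∈ P.1 := by
    have h := mem_of_fib hC
    rcases x with _ | x
    · obtain ⟨P, h0, h1⟩ := exists_meet C (isHomogeneous_X k 3)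
      exact ⟨P, h0, h1, h0 h⟩
    · obtain ⟨P, h0, h1⟩ := exists_meet C (isHomogeneous_X k 4)
      exact ⟨P, h0, (Submodule.sub_mem_iff_left _ (Ideal.mul_mem_left _ _ h1)).1 (h0 h), h1⟩
  obtain ⟨p, hp⟩ := Pt.exists_LP P
  by_cases h : X 2 ∈ p.M ∧ X 5 ∈ p.M
  · exact ⟨C, hC, ⟨C.1, le_rfl, le_rfl⟩, p, le_trans h0 hp, h.1, hp h3, hp h4, h.2⟩
  obtain ⟨β, s, r, d⟩ := p.exists_dec
  obtain ⟨D, h5, h6, h7⟩ := d.exists_base (hp h3) (hp h4)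
  obtain ⟨y, hy⟩ := (exists_typ (x := none) h7).resolve_left fun h8 =>
    h ⟨h5 (h8.pre 2 (by simp [rk, idx])), h5 (h8.pre 5 (by simp [rk, idx]))⟩
  have h8 := h0.trans (p.le_top' hp)
  obtain rfl := typ_uniq hC hy h8 (p.le_top' h5)
  refine ⟨D, hy, ⟨_, h8, p.le_top' h5⟩, ?_⟩
  obtain ⟨P', h9, h10, h11⟩ : ∃ P', D.1 ≤ P' ∧ X 2 ∈ P'.1 ∧ X 5 ∈ P'.1 := by
    by_cases h2 : X 2 ∈ D.1.1
    · obtain ⟨P', h9, h10⟩ := exists_meet D (isHomogeneous_X k 5)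
      exact ⟨P', h9, h9 h2, h10⟩
    · obtain ⟨P', h9, h10⟩ := exists_meet D (isHomogeneous_X k 2)
      obtain ⟨a, -, -, h11, -⟩ := form2 h7 h6 h2
      exact ⟨P', h9, h10, (Ideal.add_mem_iff_left _ (Ideal.mul_mem_left _ _ h10)).1 (h9 h11)⟩
  obtain ⟨p', hp'⟩ := Pt.exists_LP P'
  exact ⟨p', le_trans h9 hp', hp' h10, hp' (h9 h6), hp' (h9 h7), hp' h11⟩

theorem onL_in (p : LP (ideal k q) {i | i ≠ 0}) (h : OnL p.M) (hD : D.1.1 ≤ p.M)
    (hx : fib x D ≠ 0) : (x = none ∧ InC 1 {X 2, X 3, X 4, X 5, X 6} 1 p.top) ∨ ∃ y, x = some y ∧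
      InC 6 {X 2, X 3, X 4, X 5, MvPolynomial.C y.1 + (X 1 ^ q) ^ q} 1 p.top := by
  obtain ⟨h2, h3, h4, h5⟩ := h
  have ht := fun j => (p.mem_top (isHomogeneous_X k j)).2
  by_cases h6 : X 6 ∈ p.M
  · obtain ⟨ν, d, h7⟩ := p.decB' h2 h3 h4 h5 h6
    exact .inl ⟨d.uniq (d.val hD hx) h7, in_point (ht _ h4) (ht _ h3) (ht _ h2) (ht _ h5) (ht _ h6)⟩
  · obtain ⟨μ, d, h7⟩ := p.decB h2 h3 h4 h5 h6
    have h8 := d.val hD hx
    rcases x with _ | x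
    · exact absurd isUnit_one h8
    · exact .inr ⟨x, rfl, in_base (ht _ h2) (ht _ h3) (ht _ h4) (ht _ h5)
        (fun h9 => h6 ((p.mem_top (isHomogeneous_X k 6)).1 h9)) ((p.mem_top (base_hom _)).2
          (p.φ_mem_max.1 (base_mem p h7 (p.φ_mem_max.2 h2) h8)))⟩

theorem conn (hC : fib x C ≠ 0) (hD : fib x D ≠ 0) : ∃ C', fib x C' ≠ 0 ∧ ∃ D', fib x D' ≠ 0 ∧
    (∃ P, C.1 ≤ P ∧ C'.1 ≤ P) ∧ (∃ P, C'.1 ≤ P ∧ D'.1 ≤ P) ∧ ∃ P, D'.1 ≤ P ∧ D.1 ≤ P := by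
  obtain ⟨C', h1, h2, p, h3, h4⟩ := reach hC
  obtain ⟨D', h1', ⟨P, h2'⟩, p', h3', h4'⟩ := reach hD
  refine ⟨C', h1, D', h1', h2, ⟨p.top, p.le_top' h3, ?_⟩, P, h2'.symm⟩
  have : p.top = p'.top := by
    rcases onL_in p h4 h3 h1 with ⟨rfl, h5⟩ | ⟨y, rfl, h5⟩ <;>
      rcases onL_in p' h4' h3' h1' with ⟨h6, h7⟩ | ⟨y', h6, h7⟩
    · obtain ⟨γ, rfl, h8⟩ := cls_point.conj_zero h5 h7
      exact h8
    · exact absurd h6 (by simp)
    · exact absurd h6 (by simp)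
    · obtain rfl := Option.some_injective _ h6
      obtain ⟨γ, rfl, h8⟩ := (cls_base _).conj_zero h5 h7
      exact h8
  exact this ▸ p'.le_top' h3'

end Pool.Agent.Lib.MP_557161_ag.G2
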