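import Mathlib
import Pool.Agent.Lib.MP_557161_ag.G2.Pencil

/-!
The rank of the group of divisors modulo numerical equivalence.
-/

namespace Pool.Agent.Lib.MP_557161_ag.G2

open MvPolynomial LinearMap

theorem rank_int {ι : Type} (b : ι → ι → ℤ) :
    Module.rank ℤ ((ι →₀ ℤ) ⧸ ker (Finsupp.linearCombination ℤ b)) =
      Module.rank ℚ (range (Finsupp.linearCombination ℚ fun C D => (b C D : ℚ))) := by
  let L := Finsupp.linearCombination ℚ fun C D => (b C D : ℚ)
  let g : (ι →₀ ℤ) →ₗ[ℤ] range L :=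
    Finsupp.linearCombination ℤ fun C => L.rangeRestrict (Finsupp.single C 1)
  have h1 : ∀ w D, (g w).1 D = Finsupp.linearCombination ℤ b w D := fun w D => by
    induction w using Finsupp.induction_linear with
    | zero => simp
    | add f f' hf hf' => simp [hf, hf']
    | single C a => simp [g, L]
  have h2 : ker (Finsupp.linearCombination ℤ b) = ker g := by
    ext w
    simp only [mem_ker, funext_iff, Subtype.ext_iff, h1, ZeroMemClass.coe_zero, Pi.zero_apply,
      Int.cast_eq_zero]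
  rw [h2, g.quotKerEquivRange.rank_eq, IsLocalization.rank_eq ℚ (nonZeroDivisors ℤ) le_rfl,
    ← (range g).rank_quotient_add_rank, (rank_eq_zero_iff (M := range L ⧸ range g)).2, zero_add]
  intro x
  obtain ⟨x, rfl⟩ := (range g).mkQ_surjective x
  obtain ⟨w, rfl⟩ := L.surjective_rangeRestrict x
  induction w using Finsupp.induction_linear with
  | zero => exact ⟨1, one_ne_zero, by simp⟩
  | add f f' hf hf' =>
    obtain ⟨a, h3, h4⟩ := hf
    obtain ⟨a', h3', h4'⟩ := hf'
    refine ⟨a * a', mul_ne_zero h3 h3', ?_⟩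
    rw [map_add, map_add, smul_add, mul_smul a a' ((range g).mkQ (L.rangeRestrict f')), h4', mul_comm, mul_smul, h4]
    simp
  | single C a =>
    refine ⟨a.den, Int.natCast_ne_zero.2 a.den_ne_zero, ?_⟩
    rw [← map_smul, Submodule.mkQ_apply, Submodule.Quotient.mk_eq_zero]
    refine ⟨Finsupp.single C a.num, Subtype.ext (funext fun D => ?_)⟩
    simp [g, L, ← mul_assoc, Rat.den_mul_eq_num]

variable {k : Type} [Field k] {q : ℕ} [Big k q] [Finite k]

omit [Big k q] [Finite k] in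
theorem lq_symm (w w' : Curve (ideal k q) →₀ ℚ) :
    ∑ C ∈ w.support, w C * LQ k q w' C = ∑ C ∈ w'.support, w' C * LQ k q w C := by
  simp only [lq_apply, Finset.mul_sum]
  rw [Finset.sum_comm]
  refine Finset.sum_congr rfl fun C _ => Finset.sum_congr rfl fun D _ => ?_
  rw [inter_comm]
  ring

omit [Finite k] in
theorem theta_ell (c d : Fq k q) (x : Option (Xi k q)) : (theta c d).1 (ell x) = ell x := by
  cases x <;> simp [theta_apply, ell, thV]

omit [Finite k] in
theorem ell_smul (c d : Fq k q) (x : Option (Xi k q)) (D : Curve (ideal k q)) :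
    ell x ∈ (theta c d • D).1.1 ↔ ell x ∈ D.1.1 := by
  rw [← mem_im' (theta c d) (J := D.1.1), theta_ell]
  rfl

theorem ker_eq : Submodule.span ℚ (Set.range fun x : Xi k q => fib (some x) - fib none) =
    Finsupp.supported ℚ ℚ {D : Curve (ideal k q) | ∃ x : Option (Xi k q), ell x ∈ D.1.1} ⊓
      ker (LQ k q) := by
  classical
  have := Fintype.ofFinite (Xi k q)
  refine le_antisymm (Submodule.span_le.2 ?_) fun w ⟨h1, h2⟩ => ?_
  · rintro _ ⟨x, rfl⟩
    have h : ∀ y, fib y ∈ Finsupp.supported ℚ ℚ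
        {D : Curve (ideal k q) | ∃ x : Option (Xi k q), ell x ∈ D.1.1} :=
      fun y D hD => ⟨y, mem_of_fib (Finsupp.mem_support_iff.1 hD)⟩
    exact ⟨sub_mem (h _) (h _), by rw [SetLike.mem_coe, mem_ker, map_sub, fib_sum, sub_self]⟩
  replace h2 : LQ k q w = 0 := h2
  obtain ⟨L, hL, -⟩ := exists_curve_lab (k := k) (q := q) (.inl (.inl ()))
  have h3 : ∀ C ∈ w.support, C ≠ L → ∃ y, fib y C ≠ 0 := fun C hC h => by
    obtain ⟨x, hx⟩ := h1 hC
    refine (exists_typ hx).resolve_left fun h4 => h ?_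
    obtain ⟨γ, rfl, h5⟩ := cls_zero.conj_one h4 hL
    exact h5
  have h4 : w L = 0 := by
    have h5 := lq_symm w (fib none)
    rw [h2, Finset.sum_eq_single L (fun C hC h => by
      obtain ⟨y, hy⟩ := h3 C hC h
      rw [fib_fib _ hy, mul_zero]) fun h => by rw [Finsupp.notMem_support_iff.1 h, zero_mul]] at h5
    simpa [(zero_pos hL none).ne'] using h5
  have h5 : w = ∑ x, w.filter (fib x · ≠ 0) := by
    ext C
    rw [Finsupp.finsetSum_apply]
    simp only [Finsupp.filter_apply]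
    by_cases hC : w C = 0
    · simp [hC]
    obtain ⟨y, hy⟩ := h3 C (Finsupp.mem_support_iff.2 hC) fun h => hC (h ▸ h4)
    rw [Finset.sum_eq_single y (fun x _ hx => if_neg fun h => hx (typ_uniq h hy le_rfl le_rfl))
      (by simp), if_pos hy]
  have h6 : ∀ x C, w.filter (fib x · ≠ 0) C ≠ 0 → fib x C ≠ 0 := fun x C h h7 =>
    h (Finsupp.filter_apply_neg _ _ fun h8 => h8 h7)
  have h7 : ∀ x, ∃ c : ℚ, w.filter (fib x · ≠ 0) = c • fib x := fun x => by
    refine zariski _ (fun C D h => Int.cast_nonneg (inter_nonneg h)) _ _ (fib_nonneg x)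
      (fun C hC => Finsupp.mem_support_iff.2 (h6 x C (Finsupp.mem_support_iff.1 hC)))
      (fun C hC => fib_fib x (Finsupp.mem_support_iff.1 hC)) (fun C hC => ?_)
      (fun C D => ∃ P, C.1 ≤ P ∧ D.1 ≤ P)
      (fun C D ⟨P, h8, h9⟩ h => Int.cast_pos.2 (inter_pos h.symm P h9 h8)) fun C hC D hD => ?_
    · have h8 := congrFun h2 C
      rwa [h5, map_sum, Finset.sum_apply, Finset.sum_eq_single x
        (fun y _ hy => lq_zero (h6 y) (Finsupp.mem_support_iff.1 hC) hy) (by simp)] at h8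
    · simpa only [Finsupp.mem_support_iff] using
        conn (Finsupp.mem_support_iff.1 hC) (Finsupp.mem_support_iff.1 hD)
  choose c hc using h7
  simp only [hc] at h5
  have h8 : ∑ x, c x = 0 := by
    have h9 := congrFun h2 L
    rw [h5, map_sum, Finset.sum_apply] at h9
    simp only [map_smul, Pi.smul_apply, smul_eq_mul, fib_sum _ none, ← Finset.sum_mul] at h9
    exact (mul_eq_zero.1 h9).resolve_right (zero_pos hL none).ne'
  rw [Fintype.sum_option] at h5 h8
  rw [h5, eq_neg_of_add_eq_zero_left h8, neg_smul, Finset.sum_smul, neg_add_eq_sub,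
    ← Finset.sum_sub_distrib]
  refine sum_mem fun x _ => ?_
  rw [← smul_sub]
  exact Submodule.smul_mem _ _ (Submodule.subset_span ⟨x, rfl⟩)

theorem fib_indep : LinearIndependent ℚ fun x : Xi k q => fib (some x) - fib none := by
  classical
  rw [linearIndependent_iff']
  intro s c h x hx
  obtain ⟨D, h1, h2⟩ := exists_curve_fin x
  have h3 := fib_of_notMem h1 fun h => h2 h.2
  have h4 : ∀ y, y ≠ some x → fib y D = 0 := fun y hy => by
    by_contra h5
    exact hy (typ_uniq h5 h3 le_rfl le_rfl)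
  have h5 := DFunLike.congr_fun h D
  rw [Finsupp.finsetSum_apply, Finset.sum_eq_single x (fun y _ hy => by
    simp [h4 none, h4 (some y) (by simpa using hy)]) fun h6 => absurd hx h6] at h5
  simpa [h4 none, h3] using h5

theorem gen_curve (D : Curve (ideal k q)) (hD : ¬ ∃ x : Option (Xi k q), ell x ∈ D.1.1) :
    ∃ w, LQ k q w = 0 ∧ 0 < w D ∧ ∀ E : Curve (ideal k q),
      ¬ (∃ x : Option (Xi k q), ell x ∈ E.1.1) →
        0 ≤ w E ∧ (w E ≠ 0 → ∃ d : Fq k q, theta 0 d • D = E) := by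
  classical
  have := Fintype.ofFinite (Xi k q)
  have h0 : ∀ P : Pt (ideal k q), ¬ (∃ x : Option (Xi k q), ell x ∈ P.1) →
      InC 4 ∅ (∏ x : Xi k q, ell (some x)) P := fun P h => ⟨fun h1 => h ⟨none, h1⟩, by simp,
    fun h1 => by
      obtain ⟨x, -, hx⟩ := (Ideal.IsPrime.prod_mem_iff (hp := P.2.1)).1 h1
      exact h ⟨_, hx⟩⟩
  obtain ⟨f, e, h1, h2, h3, h4⟩ := cls_gen.conj_two (h0 D.1 hD)
  obtain ⟨m, h5, h6⟩ := exists_isDiv h1 (φ_ne_zero h1 fun P hP =>
    h3 P hP (h0 P fun ⟨x, hx⟩ => ell_notMem x hP hx))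
  have h7 : ∀ E : Curve (ideal k q), ¬ (∃ x : Option (Xi k q), ell x ∈ E.1.1) →
      (toQ m - (e : ℚ) • toQ (dvs none) : _ →₀ ℚ) E = m.count E := fun E hE => by
    rw [Finsupp.sub_apply, Finsupp.smul_apply, toQ_apply, toQ_apply, Multiset.count_eq_zero.2
      fun h => hE ⟨none, ((dvs_div none).mem_iff (ell_hom _) E).1 h⟩]
    simp
  refine ⟨toQ m - (e : ℚ) • toQ (dvs none), funext fun E => ?_, ?_, fun E hE => ?_⟩
  · rw [map_sub, map_smul, Pi.sub_apply, Pi.smul_apply, dvs_sum, lc_toQ, h6]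
    simp
  · rw [h7 D hD, Nat.cast_pos, Multiset.count_pos]
    exact (h5.mem_iff h1 D).2 h2
  · rw [h7 E hE]
    refine ⟨Nat.cast_nonneg _, fun h => ?_⟩
    obtain ⟨_, ⟨d, rfl⟩, h8⟩ := h4 E (h0 _ hE) ((h5.mem_iff h1 E).1 (by simpa using h))
    exact ⟨d, h8⟩

theorem rank_num : Module.rank ℤ (Num (ideal k q)) = (2 * q ^ 5 + 2 * q + 1 - q ^ 3 : ℕ) := by
  classical
  have := Fintype.ofFinite (Fq k q)
  choose C hC1 hC2 using exists_curve_lab (k := k) (q := q)
  have hn : ∀ (c d : Fq k q) (D : Curve (ideal k q)), 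
      theta (-c) (-d) • theta c d • D = D := fun c d D => by
    rw [← mul_smul, plane_theta.mul, neg_add_cancel, neg_add_cancel, plane_theta.zero, one_smul]
  have hS : ∀ (c d : Fq k q) (D : Curve (ideal k q)), (∃ x : Option (Xi k q), ell x ∈ D.1.1) →
      ∃ x : Option (Xi k q), ell x ∈ (theta c d • D).1.1 := fun c d D h =>
    h.imp fun x => (ell_smul c d x D).2
  obtain ⟨h1, h2⟩ := plane_theta.rank (fun C D : Curve (ideal k q) => (inter C D : ℚ))
    (fun g C D => by rw [inter_smul]) {D | ∃ x : Option (Xi k q), ell x ∈ D.1.1} C (·.isLeft)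
    (fun D ⟨x, hx⟩ => by
      obtain ⟨l, hl⟩ := D.exists_lab hx
      obtain ⟨_, ⟨d, rfl⟩, h⟩ := (cls l).conj_one (hC1 l) hl
      exact ⟨l, d, h⟩)
    (fun l m d h => (Has.of_smul (P := (C m).1) (c := 0) (d := d)
      (by rw [← smul_val', h]; exact hC1 l) (.inl rfl)).uniq (hC1 m))
    (fun c l => hS _ _ _ (hC2 l))
    (fun c hc l => ⟨fun ⟨d, h⟩ => by
      by_contra h1
      have h2 := hn 0 d (C l)
      rw [h, ← mul_smul, plane_theta.mul, neg_zero, zero_add, add_zero] at h2
      exact hc ((hC1 l).not_fix (by rw [← smul_val', h2]) h1), fun h => by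
      obtain ⟨_, ⟨d, rfl⟩, h1⟩ := (cls l).conj_one (D := theta c 0 • C l) (hC1 l)
        (Has.of_smul (c := -c) (d := -0) (by rw [← smul_val', hn]; exact hC1 l) (.inr h))
      exact ⟨d, h1⟩⟩)
    (fun d D => hS 0 d D) gen_curve _ fib_indep (fun x c d D => by
      have h : ∀ y, (dvs y).count (theta c d • D) = (dvs y).count D := fun y =>
        (dvs_div y).count_smul (ell_hom y) _ (theta_ell c d y) D
      simp only [fib, sub_sub_sub_cancel_right, Finsupp.sub_apply, toQ_apply, h]) ker_eq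
  rw [rank_int, ← Module.finrank_eq_rank]
  congr 1
  rw [← Nat.card_eq_fintype_card, card_Fq, card_left, card_Lab] at h2
  have h3 := card_Xi (k := k) (q := q)
  have h4 : 1 ≤ q := one_le_two.trans (FQ.fr (k := k) (q := q) k).two
  refine (Nat.sub_eq_of_eq_add ?_).symm
  zify [h4] at h2 h3 ⊢
  linear_combination h3 - h2

end Pool.Agent.Lib.MP_557161_ag.G2
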